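import Pool.Agent.NH85.CE.Defs
import Pool.Agent.NH85.ML.Wr

/-!
# CE-A (MP_af4c59_nt): structure of the extensions with group `W ⋊ H`
-/

set_option autoImplicit false

open IntermediateField Pool.Agent.TH365.J3099 Pool.Agent.NH85.ML

namespace Pool.Agent.NH85.CE

namespace PA

theorem sign_prod {P F : Type} [Fintype P] [Field F] (g : P → ZMod 2) (h : ∑ x, g x = 0) :
    ∏ x, (if g x ≠ 0 then (-1 : F) else 1) = 1 := by
  classical
  rw [Finset.prod_ite, Finset.prod_const, Finset.prod_const_one, mul_one]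
  have h1 : ((Finset.univ.filter fun x => g x ≠ 0).card : ZMod 2) = 0 := by
    refine Eq.trans ?_ h
    rw [Finset.card_eq_sum_ones, Nat.cast_sum, Finset.sum_filter]
    refine Finset.sum_congr rfl fun x _ => ?_
    have key : ∀ a : ZMod 2, (if a ≠ 0 then ((1 : ℕ) : ZMod 2) else 0) = a := by decide
    exact key (g x)
  exact ((ZMod.natCast_eq_zero_iff_even).1 h1).neg_one_pow

section emb

variable {K Ω : Type} [Field K] [Field Ω] [Algebra K Ω]

/-- An embedding of `M(s)` is determined by the restriction to `M` and the image of `s`. -/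
theorem emb_ext [Normal K Ω] {M L : IntermediateField K Ω} (h : M ≤ L) {s : Ω}
    (hL : L = M ⊔ adjoin K {s}) (hs : s ∈ L) {φ ψ : L →ₐ[K] Ω} (h1 : res h φ = res h ψ)
    (h2 : φ ⟨s, hs⟩ = ψ ⟨s, hs⟩) : φ = ψ := by
  obtain ⟨σ, rfl⟩ := exists_act L φ
  obtain ⟨τ, rfl⟩ := exists_act L ψ
  rw [act_val_eq_iff, hL, IntermediateField.fixingSubgroup_sup]
  refine ⟨?_, ?_⟩
  · rw [res_act, res_act] at h1
    exact (act_val_eq_iff M σ τ).1 h1
  · have h3 : σ s = τ s := h2
    have h4 : (τ⁻¹ * σ) s = s := by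
      change τ⁻¹ (σ s) = s
      rw [h3]
      exact τ.symm_apply_apply s
    obtain ⟨ρ, hρ⟩ : ∃ ρ, ρ = τ⁻¹ * σ := ⟨_, rfl⟩
    rw [← hρ] at h4 ⊢
    have h5 : adjoin K {s} ≤ fixedField (Subgroup.zpowers ρ) := by
      rw [adjoin_le_iff, Set.singleton_subset_iff, SetLike.mem_coe, mem_fixedField_iff]
      intro f hf
      have h6 : Subgroup.zpowers ρ ≤ MulAction.stabilizer (Ω ≃ₐ[K] Ω) s := by
        rw [Subgroup.zpowers_le]
        exact h4
      exact h6 hf
    change ρ ∈ (adjoin K {s}).fixingSubgroup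
    rw [IntermediateField.mem_fixingSubgroup_iff]
    intro x hx
    have h6 := h5 hx
    rw [mem_fixedField_iff] at h6
    exact h6 ρ (Subgroup.mem_zpowers ρ)

end emb

end PA

theorem s_A : S_A := by
  classical
  intro K Ω _ _ _ _ _ X _ H W hW L hL
  obtain ⟨hfd, e, he⟩ := hL
  have i1 : IsAlgClosed Ω := IsAlgClosure.isAlgClosed K
  have i2 : Normal K Ω := IsAlgClosure.normal K Ω
  have i3 : Algebra.IsAlgebraic K Ω := IsAlgClosure.isAlgebraic
  have i4 : Algebra.IsSeparable K Ω := inferInstance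
  have i5 : IsGalois K Ω := ⟨⟩
  let P : (Ω ≃ₐ[K] Ω) →* Equiv.Perm (X × Bool) := e.permCongrHom.toMonoidHom.comp (act L)
  have hP : ∀ (σ : Ω ≃ₐ[K] Ω) (φ : L →ₐ[K] Ω), e (act L σ φ) = P σ (e φ) := by
    intro σ φ
    change _ = e (act L σ (e.symm (e φ)))
    rw [Equiv.symm_apply_apply]
  have hPW : ∀ σ, P σ ∈ CodeG H W hW := fun σ => (he _).2 ⟨σ, fun φ => hP σ φ⟩
  choose q hqH w hwW hq using hPW
  let h : (Ω ≃ₐ[K] Ω) →* Equiv.Perm X :=
    { toFun := q
      map_one' := by
        ext x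
        have h1 := hq 1 (x, true)
        rw [map_one] at h1
        exact (congrArg Prod.fst h1).symm
      map_mul' := fun σ τ => by
        ext x
        have h1 := hq (σ * τ) (x, true)
        rw [map_mul, Equiv.Perm.mul_apply, hq τ, hq σ] at h1
        exact (congrArg Prod.fst h1).symm }
  have hh : ∀ σ (x : X × Bool), (P σ x).1 = h σ x.1 := fun σ x => by
    rw [hq]
    rfl
  have hhH : ∀ σ, h σ ∈ H := hqH
  have hs : ∀ a ∈ H, ∃ σ, h σ = a := by
    intro a ha
    obtain ⟨σ, hσ⟩ := (he (Equiv.prodCongr a (Equiv.refl Bool))).1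
      ⟨a, ha, 0, W.zero_mem, fun x => by simp; rfl⟩
    refine ⟨σ, ?_⟩
    ext x
    have h1 := hσ (e.symm (x, true))
    rw [← act_apply, hP, Equiv.apply_symm_apply] at h1
    have h2 := hh σ (x, true)
    rw [h1] at h2
    exact h2.symm
  obtain ⟨x0, hx0⟩ : ∃ x0, x0 = (e L.val).1 := ⟨_, rfl⟩
  obtain ⟨U, hU⟩ : ∃ U : Subgroup (Ω ≃ₐ[K] Ω), ∀ σ, σ ∈ U ↔ h σ x0 = x0 :=
    ⟨(MulAction.stabilizer (Equiv.Perm X) x0).comap h, fun σ => Iff.rfl⟩
  have hker : L.fixingSubgroup ≤ U := by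
    intro σ hσ
    rw [hU]
    have h1 : act L σ L.val = L.val := by
      ext x
      rw [act_apply_apply]
      rw [IntermediateField.mem_fixingSubgroup_iff] at hσ
      exact hσ _ x.2
    have h2 := hP σ L.val
    rw [h1] at h2
    have h3 := hh σ (e L.val)
    rw [← h2, ← hx0] at h3
    exact h3.symm
  have hopen : IsOpen (U : Set (Ω ≃ₐ[K] Ω)) :=
    Subgroup.isOpen_mono hker L.fixingSubgroup_isOpen
  have hclosed : IsClosed (U : Set (Ω ≃ₐ[K] Ω)) := Subgroup.isClosed_of_isOpen _ hopen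
  obtain ⟨M, hMdef⟩ : ∃ M, M = fixedField U := ⟨_, rfl⟩
  have hM : M.fixingSubgroup = U := by
    rw [hMdef]
    exact InfiniteGalois.fixingSubgroup_fixedField ⟨U, hclosed⟩
  have hML : M ≤ L := by
    rw [← InfiniteGalois.fixedField_fixingSubgroup L, hMdef]
    intro x hx
    rw [mem_fixedField_iff] at hx ⊢
    exact fun σ hσ => hx σ (hker hσ)
  have hMfd : FiniteDimensional K M := by
    rw [← InfiniteGalois.isOpen_iff_finite, hM]
    exact hopen
  choose s hs1 using exists_act M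
  have hwd : ∀ σ τ, act M σ M.val = act M τ M.val ↔ h σ x0 = h τ x0 := by
    intro σ τ
    rw [act_val_eq_iff, hM, hU, map_mul, map_inv, Equiv.Perm.mul_apply,
      Equiv.Perm.inv_eq_iff_eq]
  let f : (M →ₐ[K] Ω) → X := fun φ => h (s φ) x0
  have hf : ∀ σ, f (act M σ M.val) = h σ x0 := by
    intro σ
    exact (hwd _ _).1 (hs1 _)
  have hf2 : ∀ σ φ, f (act M σ φ) = h σ (f φ) := by
    intro σ φ
    have h1 : act M σ φ = act M (σ * s φ) M.val := by
      rw [map_mul, Equiv.Perm.mul_apply, hs1]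
    rw [h1, hf, map_mul, Equiv.Perm.mul_apply]
  have hinj : Function.Injective f := by
    intro φ ψ hφψ
    have h1 := (hwd (s φ) (s ψ)).2 hφψ
    rwa [hs1, hs1] at h1
  have hsurj : Function.Surjective f := by
    intro x
    obtain ⟨σ, hσ⟩ := exists_act L (e.symm (x, true))
    refine ⟨act M σ M.val, ?_⟩
    rw [hf, hx0, ← hh, ← hP, hσ, Equiv.apply_symm_apply]
  let eM : (M →ₐ[K] Ω) ≃ X := Equiv.ofBijective f ⟨hinj, hsurj⟩
  have heM : ∀ φ, eM φ = f φ := fun φ => rfl
  have hG : ∀ π : Equiv.Perm X, π ∈ H ↔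
      ∃ σ : Ω ≃ₐ[K] Ω, ∀ φ : M →ₐ[K] Ω, eM (σ.toAlgHom.comp φ) = π (eM φ) := by
    intro π
    constructor
    · intro hπ
      obtain ⟨σ, rfl⟩ := hs π hπ
      exact ⟨σ, fun φ => hf2 σ φ⟩
    · rintro ⟨σ, hσ⟩
      have h1 : π = h σ := by
        ext x
        obtain ⟨φ, rfl⟩ := hsurj x
        have h2 := hσ φ
        rw [heM, heM, ← act_apply, hf2] at h2
        exact h2.symm
      rw [h1]
      exact hhH σ
  have hcM : Module.finrank K M = Nat.card X := by
    rw [← card_emb, Nat.card_congr eM]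
  have hcL : Module.finrank K L = 2 * Nat.card X := by
    rw [← card_emb, Nat.card_congr e, Nat.card_prod, mul_comm]
    simp
  refine ⟨M, eM, ⟨hMfd, eM, hG⟩, hML, hfd, by rw [hcL, hcM], ?_⟩
  intro α t ht htM hLt S hS
  have htL : t ∈ L := by
    rw [hLt]
    exact (le_sup_right : adjoin K {t} ≤ M ⊔ adjoin K {t}) (mem_adjoin_simple_self K t)
  have hres : ∀ φ : L →ₐ[K] Ω, eM (res hML φ) = (e φ).1 := by
    intro φ
    obtain ⟨σ, rfl⟩ := exists_act L φ
    rw [res_act, hP, hh, ← hx0]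
    exact hf σ
  have hres2 : ∀ (x : X) (b : Bool), res hML (e.symm (x, b)) = eM.symm x := by
    intro x b
    rw [Equiv.eq_symm_apply, hres, Equiv.apply_symm_apply]
  have hsq : ∀ (x : X) (b : Bool), (e.symm (x, b) ⟨t, htL⟩) ^ 2 = eM.symm x α := by
    intro x b
    rw [← hres2 x b, res_apply, ← map_pow]
    congr 1
    exact Subtype.ext ht
  obtain ⟨r, hr⟩ : ∃ r : X → Ω, ∀ x, r x = e.symm (x, false) ⟨t, htL⟩ := ⟨_, fun _ => rfl⟩
  have hneg : ∀ x, e.symm (x, true) ⟨t, htL⟩ = -r x := by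
    intro x
    have h1 : (e.symm (x, true) ⟨t, htL⟩) ^ 2 = (r x) ^ 2 := by rw [hsq, hr, hsq]
    rcases sq_eq_sq_iff_eq_or_eq_neg.1 h1 with h2 | h2
    · exfalso
      rw [hr] at h2
      have h3 := PA.emb_ext hML hLt htL (by rw [hres2, hres2]) h2
      have h4 := e.symm.injective h3
      have h5 : true = false := congrArg Prod.snd h4
      exact absurd h5 (by decide)
    · exact h2
  have hσr : ∀ σ x, σ (r x) = if w σ (h σ x) ≠ 0 then -r (h σ x) else r (h σ x) := by
    intro σ x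
    have h1 : act L σ (e.symm (x, false)) = e.symm (h σ x, decide (w σ (h σ x) ≠ 0)) := by
      rw [Equiv.eq_symm_apply, hP, Equiv.apply_symm_apply, hq]
      simp only [Bool.false_xor]
      rfl
    have h2 : σ (r x) = act L σ (e.symm (x, false)) ⟨t, htL⟩ := by
      rw [hr, act_apply_apply]
    rw [h2, h1]
    split_ifs with h3
    · rw [decide_eq_true h3, hneg]
    · rw [decide_eq_false h3, hr]
  refine ⟨Sprod S r, ?_, ?_⟩
  · rw [← InfiniteGalois.fixedField_fixingSubgroup (normalClosure K M Ω), mem_fixedField_iff]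
    intro σ hσ
    rw [IntermediateField.mem_fixingSubgroup_iff] at hσ
    have h1 : ∀ x, h σ x = x := by
      intro x
      obtain ⟨φ, rfl⟩ := eM.surjective x
      have h2 : act M σ φ = φ := by
        ext y
        rw [act_apply_apply]
        exact hσ _ (AlgHom.fieldRange_le_normalClosure φ ⟨y, rfl⟩)
      have h3 := hf2 σ φ
      rw [h2] at h3
      exact h3.symm
    unfold Sprod
    rw [map_prod]
    have h4 : ∀ x, σ (if S x ≠ 0 then r x else 1) =
        (if S x * w σ x ≠ 0 then (-1 : Ω) else 1) * (if S x ≠ 0 then r x else 1) := by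
      intro x
      by_cases hS0 : S x = 0
      · simp [hS0]
      · by_cases hw0 : w σ x = 0
        · rw [if_pos hS0, hσr, h1, if_neg (by rw [hw0]; simp), if_neg (by rw [hw0]; simp), one_mul]
        · rw [if_pos hS0, hσr, h1, if_pos hw0, if_pos (mul_ne_zero hS0 hw0), neg_one_mul]
    rw [Finset.prod_congr rfl fun x _ => h4 x, Finset.prod_mul_distrib,
      PA.sign_prod _ (hS _ (hwW σ)), one_mul]
  · unfold Sprod
    rw [← Finset.prod_pow]
    refine Finset.prod_congr rfl fun x _ => ?_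
    split_ifs with hS0
    · rw [hr, hsq]
    · rw [one_pow]

end Pool.Agent.NH85.CE
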