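import Pool.Agent.NH85.CE.Defs
import Pool.Agent.NH85.ML.SqBad
import Pool.Agent.NH85.ML.Comp
import Pool.Agent.NH85.ML.Few

/-!
# The squarefree part of `α` (CE-B, helper17)
-/

set_option autoImplicit false

open NumberField Module

namespace Pool.Agent.NH85.CE

open Pool.Agent.TH444.ML Pool.Agent.NH85.ML UniqueFactorizationMonoid
open Pool.Agent.TH9.J3098 (v v_mul v_prod v_zero v_sqf)
open Pool.Agent.TH228.J3101 (nf)
open Pool.Agent.NH85.ML.SB (om coe_om om_inj om_alg under_om om_mem om_mem' exists_over g comap_comp)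

namespace BB

/-! ### discriminants -/

section dsc

attribute [local instance] FractionRing.liftAlgebra

/-- the discriminant of a compositum divides a product of powers -/
lemma comp_discr_dvd {F₁ F₂ L : Type} [Field F₁] [NumberField F₁] [Field F₂] [NumberField F₂]
    [Field L] [NumberField L] [Algebra F₁ L] [Algebra F₂ L]
    (hgen : ∀ S : Subfield L, (∀ x : F₁, algebraMap F₁ L x ∈ S) →
      (∀ x : F₂, algebraMap F₂ L x ∈ S) → S = ⊤) :
    (discr L).natAbs ∣
      (discr F₁).natAbs ^ Module.finrank F₁ L * (discr F₂).natAbs ^ Module.finrank F₂ L := by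
  have : FiniteDimensional F₁ L := Module.Finite.of_restrictScalars_finite ℚ F₁ L
  have : FiniteDimensional F₂ L := Module.Finite.of_restrictScalars_finite ℚ F₂ L
  have h1 := natAbs_discr_eq_absNorm_differentIdeal_mul_natAbs_discr_pow F₁ (𝓞 F₁) L (𝓞 L)
  rw [h1, mul_comm]
  refine Nat.mul_dvd_mul_left _ ?_
  have h2 : Ideal.absNorm (Ideal.map (algebraMap (𝓞 F₂) (𝓞 L)) (differentIdeal ℤ (𝓞 F₂))) =
      (discr F₂).natAbs ^ Module.finrank F₂ L := by
    rw [Ideal.absNorm_algebraMap, absNorm_differentIdeal F₂,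
      ← IsFractionRing.finrank_eq (𝓞 F₂) F₂ (𝓞 L) L]
  rw [← h2]
  exact map_dvd _ (comp_diff_dvd hgen)

/-- a prime of `N` whose square divides a prime of `K` contains the discriminant of `N` -/
lemma discr_mem {K N : Type} [Field K] [NumberField K] [Field N] [NumberField N] [Algebra K N]
    {p : Ideal (𝓞 K)} (hp : p.IsPrime) (hp0 : p ≠ ⊥) {Q : Ideal (𝓞 N)}
    (h : Q ^ 2 ∣ p.map (algebraMap (𝓞 K) (𝓞 N))) : ((discr N : ℤ) : 𝓞 N) ∈ Q := by
  have : FiniteDimensional K N := Module.Finite.of_restrictScalars_finite ℚ K N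
  have : p.IsMaximal := hp.isMaximal hp0
  have h1 : Q ∣ differentIdeal (𝓞 K) (𝓞 N) := by
    have := pow_sub_one_dvd_differentIdeal (𝓞 K) Q 2 hp0 h
    simpa using this
  have h2 : differentIdeal (𝓞 K) (𝓞 N) ∣ differentIdeal ℤ (𝓞 N) := by
    rw [differentIdeal_eq_differentIdeal_mul_differentIdeal ℤ (𝓞 K) (𝓞 N)]
    exact dvd_mul_right _ _
  exact Ideal.dvd_iff_le.mp (h1.trans h2) (discr_mem_differentIdeal N (𝓞 N))

end dsc

section comp

variable {K Ω : Type} [Field K] [NumberField K] [Field Ω] [Algebra K Ω] [IsAlgClosure K Ω]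

lemma sup_dvd (F₁ F₂ : IntermediateField K Ω) [FiniteDimensional K F₁]
    [FiniteDimensional K F₂] : ∃ a b : ℕ, dnF (F₁ ⊔ F₂) ∣ dnF F₁ ^ a * dnF F₂ ^ b := by
  set L : IntermediateField K Ω := F₁ ⊔ F₂ with hL
  have h1 : F₁ ≤ L := le_sup_left
  have h2 : F₂ ≤ L := le_sup_right
  have n1 : NumberField F₁ := nf F₁
  have n2 : NumberField F₂ := nf F₂
  have hfd : FiniteDimensional K L := by
    rw [hL]
    infer_instance
  have n3 : NumberField L := nf L
  let a1 : Algebra F₁ L := (IntermediateField.inclusion h1).toRingHom.toAlgebra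
  let a2 : Algebra F₂ L := (IntermediateField.inclusion h2).toRingHom.toAlgebra
  have t1 : IsScalarTower K F₁ L := IsScalarTower.of_algebraMap_eq fun x => rfl
  have t2 : IsScalarTower K F₂ L := IsScalarTower.of_algebraMap_eq fun x => rfl
  refine ⟨Module.finrank F₁ L, Module.finrank F₂ L, ?_⟩
  rw [dnF_eq, dnF_eq, dnF_eq]
  refine comp_discr_dvd fun S hS1 hS2 => ?_
  rw [eq_top_iff]
  rintro y -
  set T : IntermediateField K Ω := (S.map (L.val : L →+* Ω)).toIntermediateField (fun x => by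
    refine ⟨algebraMap K L x, ?_, rfl⟩
    have := hS1 (algebraMap K F₁ x)
    rwa [← IsScalarTower.algebraMap_apply] at this) with hT
  have h3 : L ≤ T := by
    rw [hL]
    refine sup_le (fun x hx => ?_) (fun x hx => ?_)
    · exact ⟨algebraMap F₁ L ⟨x, hx⟩, hS1 ⟨x, hx⟩, rfl⟩
    · exact ⟨algebraMap F₂ L ⟨x, hx⟩, hS2 ⟨x, hx⟩, rfl⟩
  obtain ⟨z, hz, hzy⟩ := h3 y.2
  have : z = y := Subtype.ext hzy
  rw [← this]
  exact hz

lemma conj_dvd (M : IntermediateField K Ω) [FiniteDimensional K M] (B : Finset (M →ₐ[K] Ω))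
    (hB : B.Nonempty) :
    FiniteDimensional K (⨆ φ ∈ B, φ.fieldRange : IntermediateField K Ω) ∧
      ∃ n : ℕ, dnF (⨆ φ ∈ B, φ.fieldRange : IntermediateField K Ω) ∣ dnF M ^ n := by
  classical
  induction hB using Finset.Nonempty.cons_induction with
  | singleton φ =>
      obtain ⟨h2, h3, h4⟩ := few_range M φ
      have h1 : (⨆ ψ ∈ ({φ} : Finset (M →ₐ[K] Ω)), ψ.fieldRange : IntermediateField K Ω) =
          φ.fieldRange := by simp
      rw [h1, h4]
      exact ⟨h2, 1, by rw [pow_one]⟩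
  | cons φ B hx hB ih =>
      obtain ⟨ih1, n, ih2⟩ := ih
      obtain ⟨h2, h3, h4⟩ := few_range M φ
      have h1 : (⨆ ψ ∈ Finset.cons φ B hx, ψ.fieldRange : IntermediateField K Ω) =
          φ.fieldRange ⊔ ⨆ ψ ∈ B, ψ.fieldRange := by
        rw [Finset.cons_eq_insert, Finset.iSup_insert]
      obtain ⟨a, b, h7⟩ := sup_dvd φ.fieldRange (⨆ ψ ∈ B, ψ.fieldRange : IntermediateField K Ω)
      rw [h1]
      refine ⟨inferInstance, a + n * b, h7.trans ?_⟩
      rw [h4, pow_add, pow_mul]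
      exact Nat.mul_dvd_mul_left _ (pow_dvd_pow_of_dvd ih2 b)

/-- the discriminant of the normal closure divides a power of the discriminant -/
lemma normal_dvd (M : IntermediateField K Ω) [FiniteDimensional K M] :
    ∃ n : ℕ, dnF (IntermediateField.normalClosure K M Ω) ∣ dnF M ^ n := by
  classical
  have hf : Finite (M →ₐ[K] Ω) := inferInstance
  have := Fintype.ofFinite (M →ₐ[K] Ω)
  have hne : (Finset.univ : Finset (M →ₐ[K] Ω)).Nonempty := ⟨M.val, Finset.mem_univ _⟩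
  obtain ⟨-, n, h⟩ := conj_dvd M Finset.univ hne
  refine ⟨n, ?_⟩
  have h1 : IntermediateField.normalClosure K M Ω =
      ⨆ φ ∈ (Finset.univ : Finset (M →ₐ[K] Ω)), φ.fieldRange := by
    simp only [Finset.mem_univ, iSup_pos]
    rfl
  rw [h1]
  exact h

end comp

/-! ### linear algebra -/

/-- the double orthogonal of a code -/
lemma mem_code {P : Type} [Fintype P] (W : Submodule (ZMod 2) (P → ZMod 2)) (t : P → ZMod 2)
    (h : ∀ S : P → ZMod 2, (∀ w ∈ W, ∑ x, S x * w x = 0) → ∑ x, S x * t x = 0) : t ∈ W := by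
  classical
  by_contra ht
  obtain ⟨f, hf, hW⟩ := Submodule.exists_le_ker_of_notMem ht
  have key : ∀ w : P → ZMod 2, ∑ x, f (Pi.single x 1) * w x = f w := by
    intro w
    conv_rhs => rw [← Finset.univ_sum_single w]
    rw [map_sum]
    refine Finset.sum_congr rfl fun x _ => ?_
    have : (Pi.single x (w x) : P → ZMod 2) = w x • Pi.single x 1 := by
      rw [← Pi.single_smul, smul_eq_mul, mul_one]
    rw [this, map_smul, smul_eq_mul, mul_comm]
  apply hf
  rw [← key t]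
  refine h (fun x => f (Pi.single x 1)) fun w hw => ?_
  rw [key w]
  exact hW hw

/-! ### the main theorem -/

section

variable {K M N : Type} [Field K] [NumberField K] [Field M] [NumberField M] [Field N]
  [NumberField N] [Algebra K M] [Algebra K N]

lemma map0 (φ : M →ₐ[K] N) {I : Ideal (𝓞 M)} (hI : I ≠ ⊥) : I.map (om φ) ≠ ⊥ := by
  intro h
  apply hI
  rwa [Ideal.map_eq_bot_iff_of_injective (om_inj φ)] at h

/-- valuation of a prime of `K` in `N` -/
lemma vK {p : Ideal (𝓞 K)} (hp : p.IsPrime) (hp0 : p ≠ ⊥) {Q : Ideal (𝓞 N)} (hQ : Q.IsPrime)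
    (hQp : Q.under (𝓞 K) = p) (hd : ((discr N : ℤ) : 𝓞 N) ∉ Q) :
    v Q (p.map (algebraMap (𝓞 K) (𝓞 N))) = 1 := by
  classical
  have hpN0 : p.map (algebraMap (𝓞 K) (𝓞 N)) ≠ ⊥ := Ideal.map_ne_bot_of_ne_bot hp0
  have hle : p.map (algebraMap (𝓞 K) (𝓞 N)) ≤ Q := by
    rw [Ideal.map_le_iff_le_comap, ← Ideal.under_def, hQp]
  obtain ⟨J, hJ⟩ := Ideal.dvd_iff_le.mpr hle
  have hQ0 : Q ≠ ⊥ := by
    rintro rfl
    apply hpN0
    rw [hJ, Ideal.bot_mul]
  have hJ0 : J ≠ ⊥ := by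
    rintro rfl
    apply hpN0
    rw [hJ, Ideal.mul_bot]
  rw [hJ, v_mul _ hQ0 hJ0, v_zero Q J hJ0, add_zero]
  · unfold v
    rw [normalizedFactors_irreducible (Ideal.prime_of_isPrime hQ0 hQ).irreducible, normalize_eq]
    exact Multiset.count_singleton_self Q
  · intro h
    apply hd
    apply discr_mem hp hp0
    obtain ⟨J', hJ'⟩ := Ideal.dvd_iff_le.mpr h
    exact ⟨J', by rw [hJ, hJ', pow_two, mul_assoc]⟩

/-- valuation of the image of a squarefree ideal -/
lemma cnt {p : Ideal (𝓞 K)} (hp : p.IsPrime) (hp0 : p ≠ ⊥) {Q : Ideal (𝓞 N)} (hQ : Q.IsPrime)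
    (hQp : Q.under (𝓞 K) = p) (hv : v Q (p.map (algebraMap (𝓞 K) (𝓞 N))) = 1)
    {𝔡 : Ideal (𝓞 M)} (hd0 : 𝔡 ≠ ⊥) (hsq : Squarefree 𝔡) (φ : M →ₐ[K] N) [Decidable (𝔡 ≤ Q.comap (om φ))] :
    v Q (𝔡.map (om φ)) = if 𝔡 ≤ Q.comap (om φ) then 1 else 0 := by
  classical
  set P := Q.comap (om φ) with hP
  have hPprime : P.IsPrime := Ideal.comap_isPrime _ _
  have hPp : P.under (𝓞 K) = p := by rw [hP, under_om, hQp]
  have hpN0 : p.map (algebraMap (𝓞 K) (𝓞 N)) ≠ ⊥ := Ideal.map_ne_bot_of_ne_bot hp0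
  have hP0 : P ≠ ⊥ := by
    intro h
    apply hp0
    rw [← hPp, h]
    exact Ideal.comap_bot_of_injective _ (FaithfulSMul.algebraMap_injective (𝓞 K) (𝓞 M))
  have hPQ : P.map (om φ) ≤ Q := by
    rw [Ideal.map_le_iff_le_comap]
  have hvP : v Q (P.map (om φ)) = 1 := by
    have h1 : P ∣ p.map (algebraMap (𝓞 K) (𝓞 M)) := by
      rw [Ideal.dvd_iff_le, Ideal.map_le_iff_le_comap, ← Ideal.under_def, hPp]
    obtain ⟨J, hJ⟩ := h1
    have h2 : p.map (algebraMap (𝓞 K) (𝓞 N)) = P.map (om φ) * J.map (om φ) := by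
      rw [← Ideal.map_mul, ← hJ, Ideal.map_map]
      congr 1
      ext x
      rw [RingHom.comp_apply, om_alg]
    have h3 : J.map (om φ) ≠ ⊥ := by
      intro h
      apply hpN0
      rw [h2, h, Ideal.mul_bot]
    rw [h2, v_mul _ (map0 _ hP0) h3] at hv
    have h4 : v Q (P.map (om φ)) ≠ 0 := by
      unfold v
      rw [Multiset.count_ne_zero]
      exact (Ideal.mem_normalizedFactors_iff (map0 _ hP0)).mpr ⟨hQ, hPQ⟩
    omega
  split_ifs with h
  · obtain ⟨𝔢, h𝔢⟩ := Ideal.dvd_iff_le.mpr h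
    have he0 : 𝔢 ≠ ⊥ := by
      rintro rfl
      apply hd0
      rw [h𝔢, Ideal.mul_bot]
    rw [h𝔢, Ideal.map_mul, v_mul _ (map0 _ hP0) (map0 _ he0), hvP, v_zero _ _ (map0 _ he0)]
    intro h
    rw [Ideal.map_le_iff_le_comap] at h
    obtain ⟨𝔣, h𝔣⟩ := Ideal.dvd_iff_le.mpr h
    have h1 : IsUnit P := hsq P ⟨𝔣, by rw [h𝔢, h𝔣, mul_assoc]⟩
    rw [Ideal.isUnit_iff] at h1
    exact hPprime.ne_top h1
  · refine v_zero _ _ (map0 _ hd0) ?_
    intro h'
    rw [Ideal.map_le_iff_le_comap] at h'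
    exact h h'

/-- the norm of the image of an ideal -/
lemma norm_map (φ : M →ₐ[K] N) (I : Ideal (𝓞 M)) :
    ∃ r : ℕ, r * Module.finrank K M = Module.finrank K N ∧
      Ideal.absNorm (I.map (om φ)) = Ideal.absNorm I ^ r := by
  let _ : Algebra M N := (φ : M →+* N).toAlgebra
  have : IsScalarTower K M N := IsScalarTower.of_algebraMap_eq fun x => (φ.commutes x).symm
  refine ⟨Module.finrank M N, ?_, ?_⟩
  · rw [mul_comm]
    exact Module.finrank_mul_finrank K M N
  · have h1 : I.map (om φ) = I.map (algebraMap (𝓞 M) (𝓞 N)) := rfl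
    rw [h1, Ideal.absNorm_algebraMap, ← IsFractionRing.finrank_eq (𝓞 M) M (𝓞 N) N]

lemma norm_mapK (I : Ideal (𝓞 K)) :
    Ideal.absNorm (I.map (algebraMap (𝓞 K) (𝓞 N))) = Ideal.absNorm I ^ Module.finrank K N := by
  rw [Ideal.absNorm_algebraMap, ← IsFractionRing.finrank_eq (𝓞 K) K (𝓞 N) N]

theorem main [IsGalois K N] {P : Type} [Fintype P] (ψ : P ≃ (M →ₐ[K] N))
    (W : Submodule (ZMod 2) (P → ZMod 2)) (d : ℕ)
    (hcard : Nat.card (M →ₐ[K] N) = Module.finrank K M)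
    (hdisc : ∀ Q : Ideal (𝓞 N), Q.IsPrime → ((discr N : ℤ) : 𝓞 N) ∈ Q →
      ((discr M : ℤ) : 𝓞 N) ∈ Q)
    (hW : ∀ w ∈ W, w ≠ 0 → d ≤ wt w)
    (α : 𝓞 M) (𝔡 𝔠 : Ideal (𝓞 M)) (hα : α ≠ 0) (hsq : Squarefree 𝔡)
    (hdc : Ideal.span {α} = 𝔡 * 𝔠 ^ 2)
    (hS : ∀ S : P → ZMod 2, (∀ w ∈ W, ∑ x, S x * w x = 0) →
      ∃ b : N, b ^ 2 = Sprod S (fun x => ψ x (α : M))) :
    𝔡 ∈ BdW K M d := by
  classical
  have hspan : Ideal.span {α} ≠ ⊥ := by
    rw [Ne, Ideal.span_singleton_eq_bot]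
    exact hα
  have hd0 : 𝔡 ≠ ⊥ := by
    rintro rfl
    apply hspan
    rw [hdc, Ideal.bot_mul]
  have hc0 : 𝔠 ≠ ⊥ := by
    rintro rfl
    apply hspan
    rw [hdc]
    simp [pow_two]
  -- the word of a prime
  let tau : Ideal (𝓞 N) → P → ZMod 2 := fun Q x => if 𝔡 ≤ Q.comap (om (ψ x)) then 1 else 0
  have htau : ∀ (p : Ideal (𝓞 K)) (Q : Ideal (𝓞 N)), p.IsPrime → p ≠ ⊥ → Q.IsPrime →
      Q.under (𝓞 K) = p → v Q (p.map (algebraMap (𝓞 K) (𝓞 N))) = 1 → tau Q ∈ W := by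
    intro p Q hp hp0 hQ hQp hv
    refine mem_code W _ fun S hSW => ?_
    obtain ⟨b, hb⟩ := hS S hSW
    have hbint : IsIntegral ℤ b := by
      have h1 : IsIntegral ℤ (b ^ 2) := by
        rw [hb]
        unfold Sprod
        refine IsIntegral.prod _ fun x _ => ?_
        split_ifs
        · exact map_isIntegral_int ((ψ x : M →ₐ[K] N) : M →+* N) α.2
        · exact isIntegral_one
      exact IsIntegral.of_pow (by norm_num) h1
    obtain ⟨β, hβ⟩ : ∃ β : 𝓞 N, (β : N) = b := ⟨⟨b, hbint⟩, rfl⟩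
    set SS : Finset P := Finset.univ.filter (fun x => S x ≠ 0) with hSS
    have hprod2 : ∏ x ∈ SS, om (ψ x) α = β * β := by
      apply RingOfIntegers.coe_injective
      rw [map_prod, map_mul, show algebraMap (𝓞 N) N β = b from hβ, ← pow_two, hb]
      unfold Sprod
      rw [hSS, Finset.prod_filter]
      rfl
    have hI0 : ∀ x : P, (Ideal.span {α}).map (om (ψ x)) ≠ ⊥ := fun x => map0 _ hspan
    have h1 : ∏ x ∈ SS, (Ideal.span {α}).map (om (ψ x)) = Ideal.span {β} * Ideal.span {β} := by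
      rw [Ideal.span_singleton_mul_span_singleton, ← hprod2, ← Ideal.prod_span_singleton]
      refine Finset.prod_congr rfl fun x _ => ?_
      rw [Ideal.map_span, Set.image_singleton]
    have hβ0 : Ideal.span {β} ≠ ⊥ := by
      intro h
      have h4 : ∏ x ∈ SS, (Ideal.span {α}).map (om (ψ x)) ≠ 0 :=
        Finset.prod_ne_zero_iff.mpr fun x _ => hI0 x
      rw [h1, h] at h4
      exact h4 (by simp)
    have h2 : v Q (∏ x ∈ SS, (Ideal.span {α}).map (om (ψ x))) =
        v Q (Ideal.span {β}) + v Q (Ideal.span {β}) := by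
      rw [h1, v_mul _ hβ0 hβ0]
    rw [v_prod _ _ _ hI0] at h2
    have h3 : ∀ x ∈ SS, v Q ((Ideal.span {α}).map (om (ψ x))) =
        (if 𝔡 ≤ Q.comap (om (ψ x)) then 1 else 0) + 2 * v Q (𝔠.map (om (ψ x))) := by
      intro x _
      rw [hdc, Ideal.map_mul, Ideal.map_pow, pow_two, v_mul _ (map0 _ hd0)
        (mul_ne_zero (map0 _ hc0) (map0 _ hc0)), v_mul _ (map0 _ hc0) (map0 _ hc0),
        cnt hp hp0 hQ hQp hv hd0 hsq]
      ring
    rw [Finset.sum_congr rfl h3, Finset.sum_add_distrib, ← Finset.mul_sum] at h2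
    have h4 : ((∑ x ∈ SS, (if 𝔡 ≤ Q.comap (om (ψ x)) then 1 else 0) : ℕ) : ZMod 2) = 0 := by
      rw [ZMod.natCast_eq_zero_iff]
      omega
    have h5 : ∑ x, S x * tau Q x = ∑ x ∈ SS, tau Q x := by
      rw [hSS, Finset.sum_filter]
      refine Finset.sum_congr rfl fun x _ => ?_
      have key : ∀ s t : ZMod 2, s * t = if s ≠ 0 then t else 0 := by decide
      exact key _ _
    rw [h5, ← h4]
    push_cast
    rfl
  -- the ideal `𝔟`
  set T : Finset (Ideal (𝓞 K)) := ((normalizedFactors 𝔡).toFinset.image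
    (fun Q => Q.under (𝓞 K))).filter (fun p => ((discr M : ℤ) : 𝓞 K) ∉ p) with hT
  have hTp : ∀ p ∈ T, p.IsPrime ∧ p ≠ ⊥ ∧ ((discr M : ℤ) : 𝓞 K) ∉ p ∧
      ∃ Q : Ideal (𝓞 M), Q.IsPrime ∧ 𝔡 ≤ Q ∧ Q.under (𝓞 K) = p := by
    intro p hp
    rw [hT, Finset.mem_filter, Finset.mem_image] at hp
    obtain ⟨⟨Q, hQ, rfl⟩, hp2⟩ := hp
    rw [Multiset.mem_toFinset, Ideal.mem_normalizedFactors_iff hd0] at hQ
    have hQ1 : Q.IsPrime := hQ.1
    refine ⟨Ideal.comap_isPrime _ _, ?_, hp2, Q, hQ.1, hQ.2, rfl⟩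
    apply Ideal.under_ne_bot
    rintro rfl
    exact hd0 (le_bot_iff.mp hQ.2)
  set 𝔟 : Ideal (𝓞 K) := ∏ p ∈ T, p with h𝔟
  have hb0 : 𝔟 ≠ ⊥ := by
    rw [h𝔟, ← Ideal.zero_eq_bot, Finset.prod_ne_zero_iff]
    exact fun p hp => (hTp p hp).2.1
  refine ⟨hsq, 𝔟, hb0, ?_, ?_⟩
  · -- the norm
    set D : Ideal (𝓞 N) := ∏ x, 𝔡.map (om (ψ x)) with hD
    have hD0 : D ≠ ⊥ := by
      rw [hD, ← Ideal.zero_eq_bot, Finset.prod_ne_zero_iff]
      exact fun x _ => map0 _ hd0
    have hbN0 : 𝔟.map (algebraMap (𝓞 K) (𝓞 N)) ≠ ⊥ := Ideal.map_ne_bot_of_ne_bot hb0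
    have hdvd : (𝔟.map (algebraMap (𝓞 K) (𝓞 N))) ^ d ∣ D := by
      rw [dvd_iff_normalizedFactors_le_normalizedFactors (pow_ne_zero _ hbN0) hD0,
        Multiset.le_iff_count]
      intro Q
      rw [normalizedFactors_pow, Multiset.count_nsmul]
      change d * v Q (𝔟.map (algebraMap (𝓞 K) (𝓞 N))) ≤ v Q D
      by_cases hQ : Q ∈ normalizedFactors (𝔟.map (algebraMap (𝓞 K) (𝓞 N)))
      · rw [Ideal.mem_normalizedFactors_iff hbN0] at hQ
        obtain ⟨hQ1, hQ2⟩ := hQ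
        have hbQ : 𝔟 ≤ Q.under (𝓞 K) := by
          rwa [Ideal.under_def, ← Ideal.map_le_iff_le_comap]
        have hpr : (Q.under (𝓞 K)).IsPrime := Ideal.comap_isPrime _ _
        obtain ⟨p, hp, hpQ⟩ := (hpr.prod_le).mp (by rw [← h𝔟]; exact hbQ)
        obtain ⟨hp1, hp2, hp3, Q₀, hQ₀, hdQ₀, hQ₀p⟩ := hTp p hp
        have hpm : p.IsMaximal := hp1.isMaximal hp2
        have hQp : Q.under (𝓞 K) = p := (hpm.eq_of_le hpr.ne_top hpQ).symm
        have hdN : ((discr N : ℤ) : 𝓞 N) ∉ Q := by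
          intro h
          apply hp3
          have h1 := hdisc Q hQ1 h
          rw [← hQp, Ideal.under_def, Ideal.mem_comap, map_intCast]
          exact h1
        have hv := vK hp1 hp2 hQ1 hQp hdN
        -- the valuation of `𝔟`
        have hvb : v Q (𝔟.map (algebraMap (𝓞 K) (𝓞 N))) ≤ 1 := by
          have h1 : 𝔟.map (algebraMap (𝓞 K) (𝓞 N)) =
              ∏ p' ∈ T, p'.map (algebraMap (𝓞 K) (𝓞 N)) := by
            rw [h𝔟]
            exact map_prod (Ideal.mapHom (algebraMap (𝓞 K) (𝓞 N))) _ _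
          have h2 : 𝔟.map (algebraMap (𝓞 K) (𝓞 N)) = p.map (algebraMap (𝓞 K) (𝓞 N)) *
              ∏ p' ∈ T.erase p, p'.map (algebraMap (𝓞 K) (𝓞 N)) := by
            rw [h1, Finset.mul_prod_erase T _ hp]
          have h3 : ∏ p' ∈ T.erase p, p'.map (algebraMap (𝓞 K) (𝓞 N)) ≠ ⊥ := by
            rw [← Ideal.zero_eq_bot, Finset.prod_ne_zero_iff]
            exact fun p' hp' => Ideal.map_ne_bot_of_ne_bot
              (hTp p' (Finset.mem_of_mem_erase hp')).2.1
          rw [h2, v_mul _ (Ideal.map_ne_bot_of_ne_bot hp2) h3, hv, v_zero _ _ h3]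
          intro h4
          obtain ⟨p', hp', hp'Q⟩ := (hQ1.prod_le).mp h4
          rw [Ideal.map_le_iff_le_comap, ← Ideal.under_def, hQp] at hp'Q
          obtain ⟨h5, h6, -⟩ := hTp p' (Finset.mem_of_mem_erase hp')
          have h7 : p' = p := (h5.isMaximal h6).eq_of_le hp1.ne_top hp'Q
          exact (Finset.ne_of_mem_erase hp') h7
        -- a conjugate of `Q₀`
        obtain ⟨x₀, hx₀⟩ : ∃ x₀ : P, Q.comap (om (ψ x₀)) = Q₀ := by
          have hne : Nonempty P := by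
            have h1 : Nonempty (M →ₐ[K] N) := by
              apply (Nat.card_pos_iff.mp _).1
              rw [hcard]
              exact Module.finrank_pos
            exact h1.map ψ.symm
          obtain ⟨φ₀⟩ : Nonempty (M →ₐ[K] N) := hne.map ψ
          obtain ⟨Q', hQ', hQ'2⟩ := exists_over φ₀ Q₀
          have hQm : Q ∈ p.primesOver (𝓞 N) := ⟨hQ1, ⟨hQp.symm⟩⟩
          have hQ₀m : Q₀ ∈ p.primesOver (𝓞 M) := ⟨hQ₀, ⟨hQ₀p.symm⟩⟩
          have hQ'3 : Q' ∈ p.primesOver (𝓞 N) := om_mem' φ₀ hQ' (by rw [hQ'2]; exact hQ₀m)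
          obtain ⟨σ, hσ⟩ := Ideal.exists_comap_galRestrict_eq (𝓞 K) K N (𝓞 N) hQm hQ'3
          refine ⟨ψ.symm (σ.toAlgHom.comp φ₀), ?_⟩
          rw [Equiv.apply_symm_apply, comap_comp, hσ, hQ'2]
        have htW := htau p Q hp1 hp2 hQ1 hQp hv
        have ht0 : tau Q ≠ 0 := by
          intro h
          have h1 := congrFun h x₀
          have h2 : tau Q x₀ = 1 := if_pos (by rw [hx₀]; exact hdQ₀)
          rw [h2] at h1
          exact one_ne_zero h1
        have hwt := hW _ htW ht0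
        have hwt2 : wt (tau Q) = v Q D := by
          rw [hD, v_prod _ _ _ (fun x => map0 _ hd0)]
          rw [Finset.sum_congr rfl fun x _ => cnt hp1 hp2 hQ1 hQp hv hd0 hsq (ψ x)]
          rw [← Finset.card_filter]
          unfold wt
          rw [Set.ncard_eq_toFinset_card']
          congr 1
          ext x
          simp only [Set.mem_toFinset, Set.mem_setOf_eq, Finset.mem_filter, Finset.mem_univ,
            true_and]
          change (if 𝔡 ≤ Q.comap (om (ψ x)) then (1 : ZMod 2) else 0) ≠ 0 ↔ _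
          split_ifs with h
          · simp [h]
          · simp [h]
        calc d * v Q (𝔟.map (algebraMap (𝓞 K) (𝓞 N))) ≤ d * 1 := Nat.mul_le_mul_left _ hvb
          _ = d := mul_one d
          _ ≤ v Q D := hwt.trans hwt2.le
      · have : v Q (𝔟.map (algebraMap (𝓞 K) (𝓞 N))) = 0 := Multiset.count_eq_zero.mpr hQ
        rw [this, mul_zero]
        exact Nat.zero_le _
    have hDn : Ideal.absNorm D = Ideal.absNorm 𝔡 ^ Module.finrank K N := by
      have hr : ∀ x : P, Ideal.absNorm (𝔡.map (om (ψ x))) =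
          Ideal.absNorm 𝔡 ^ (Module.finrank K N / Module.finrank K M) := by
        intro x
        obtain ⟨r, hr1, hr2⟩ := norm_map (ψ x) 𝔡
        rw [hr2, ← hr1, Nat.mul_div_cancel _ Module.finrank_pos]
      rw [hD, map_prod, Finset.prod_congr rfl fun x _ => hr x, Finset.prod_const, ← pow_mul]
      congr 1
      have hc : (Finset.univ : Finset P).card = Module.finrank K M := by
        rw [Finset.card_univ, ← Nat.card_eq_fintype_card, Nat.card_congr ψ, hcard]
      rw [hc]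
      obtain ⟨x⟩ : Nonempty P := by
        have h1 : Nonempty (M →ₐ[K] N) := by
          apply (Nat.card_pos_iff.mp _).1
          rw [hcard]
          exact Module.finrank_pos
        exact h1.map ψ.symm
      obtain ⟨r, hr1, -⟩ := norm_map (ψ x) 𝔡
      rw [← hr1, Nat.mul_div_cancel _ Module.finrank_pos]
    have hle := Nat.le_of_dvd (by
      rw [hDn]
      apply pow_pos
      exact Nat.pos_of_ne_zero (by rwa [Ne, Ideal.absNorm_eq_zero_iff]))
      (map_dvd Ideal.absNorm hdvd)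
    rw [map_pow, norm_mapK, hDn, ← pow_mul, mul_comm, pow_mul] at hle
    have hN0 : Module.finrank K N ≠ 0 := Module.finrank_pos.ne'
    exact (Nat.pow_le_pow_iff_left hN0).mp hle
  · intro Q hQ hQd
    by_cases h : ((discr M : ℤ) : 𝓞 M) ∈ Q
    · exact Or.inr h
    · left
      rw [h𝔟]
      apply Finset.dvd_prod_of_mem (fun p : Ideal (𝓞 K) => p)
      rw [hT, Finset.mem_filter, Finset.mem_image]
      refine ⟨⟨Q, ?_, rfl⟩, ?_⟩
      · rw [Multiset.mem_toFinset, Ideal.mem_normalizedFactors_iff hd0]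
        exact ⟨hQ, Ideal.dvd_iff_le.mp hQd⟩
      · intro h1
        apply h
        rw [Ideal.under_def, Ideal.mem_comap, map_intCast] at h1
        exact h1

end

end BB

theorem s_B : S_B := by
  classical
  intro K Ω _ _ _ _ _ P _ W d M _ _ e hW α 𝔡 𝔠 hα hsq hdc hS
  have hAC : IsAlgClosed Ω := IsAlgClosure.isAlgClosed K
  have hnorm : Normal K Ω := IsAlgClosure.normal K Ω
  set N : IntermediateField K Ω := IntermediateField.normalClosure K M Ω with hN
  have hNF : FiniteDimensional K N := normalClosure.is_finiteDimensional K M Ω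
  have hNn : Normal K N := normalClosure.normal K M Ω
  have hNN : NumberField N := NumberField.of_module_finite K N
  have hNG : IsGalois K N := ⟨⟩
  let E : (M →ₐ[K] N) ≃ (M →ₐ[K] Ω) := normalClosure.algHomEquiv K M Ω
  have hE : ∀ (φ : M →ₐ[K] Ω) (x : M), ((E.symm φ x : N) : Ω) = φ x := fun φ x => rfl
  have hcard : Nat.card (M →ₐ[K] N) = Module.finrank K M := by
    rw [Nat.card_congr E, Nat.card_eq_fintype_card, AlgHom.card]
  refine BB.main (N := N) (e.symm.trans E.symm) W d hcard ?_ hW α 𝔡 𝔠 hα hsq hdc ?_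
  · intro Q hQ h
    obtain ⟨n, hn⟩ := BB.normal_dvd M
    rw [← hN, dnF_eq, dnF_eq] at hn
    have h1 : (discr N) ∣ (discr M) ^ n := by
      rw [← Int.natAbs_dvd_natAbs, Int.natAbs_pow]
      exact hn
    obtain ⟨c, hc⟩ := h1
    have h2 : (((discr M : ℤ) : 𝓞 N)) ^ n ∈ Q := by
      have : (((discr M : ℤ) : 𝓞 N)) ^ n = ((discr N : ℤ) : 𝓞 N) * ((c : ℤ) : 𝓞 N) := by
        rw [← Int.cast_pow, hc, Int.cast_mul]
      rw [this]
      exact Ideal.mul_mem_right _ _ h
    exact hQ.mem_of_pow_mem n h2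
  · intro S hSW
    obtain ⟨b, hbN, hb⟩ := hS S hSW
    refine ⟨⟨b, hbN⟩, ?_⟩
    apply Subtype.ext
    have h1 : ((Sprod S (fun x => (e.symm.trans E.symm) x (α : M)) : N) : Ω) =
        Sprod S (fun x => e.symm x (α : M)) := by
      unfold Sprod
      change algebraMap N Ω _ = _
      rw [map_prod]
      refine Finset.prod_congr rfl fun x _ => ?_
      split_ifs
      · exact hE (e.symm x) α
      · exact map_one _
    rw [h1, ← hb]
    rfl

end Pool.Agent.NH85.CE
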