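import Pool.Agent.NH85.CE.Defs
import Pool.Agent.NH85.ML.Ideal
import Pool.Agent.TH10.RP.JG

/-!
# The uniform count of ideals with controlled support (`S_C`)
-/

set_option autoImplicit false

open NumberField Filter Topology

namespace Pool.Agent.NH85.CE

open Pool.Agent.TH444.ML Pool.Agent.NH85.ML Pool.Agent.TH89.J3091 UniqueFactorizationMonoid

/-- the primes which contain `m` -/
theorem C.primes {M : Type} [Field M] [NumberField M] (m : ℕ) (hm : m ≠ 0) :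
    ∃ T : Finset (Ideal (𝓞 M)), (∀ Q : Ideal (𝓞 M), Q.IsPrime → Q ≠ ⊥ → (m : 𝓞 M) ∈ Q → Q ∈ T) ∧
      T.card ≤ m.primeFactors.card * Module.finrank ℚ M := by
  classical
  refine ⟨m.primeFactors.biUnion fun p => if h : p.Prime then
    (above (M := M) p h).1.toFinset else ∅, ?_, ?_⟩
  · intro Q hQ hQ0 hmQ
    rw [Finset.mem_biUnion]
    have hp := pr_prime hQ hQ0
    refine ⟨pr Q, ?_, ?_⟩
    · rw [Nat.mem_primeFactors]
      refine ⟨hp, ?_, hm⟩
      have h1 : ((m : ℤ)) ∈ Ideal.under ℤ Q := by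
        rw [Ideal.under, Ideal.mem_comap]
        simpa using hmQ
      have h2 : Ideal.under ℤ Q = Ideal.span {((pr Q : ℕ) : ℤ)} := by
        rw [pr, Int.ideal_span_absNorm_eq_self]
      rw [h2, Ideal.mem_span_singleton] at h1
      exact_mod_cast h1
    · rw [dif_pos hp, Set.Finite.mem_toFinset]
      exact ⟨hQ, hQ0, rfl⟩
  · refine Finset.card_biUnion_le_card_mul _ _ _ fun p hp => ?_
    have hp' := Nat.prime_of_mem_primeFactors hp
    rw [dif_pos hp', ← Set.ncard_eq_toFinset_card _ (above (M := M) p hp').1]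
    exact (above (M := M) p hp').2

/-- squarefree ideals with given prime divisors -/
theorem C.sqf {M : Type} [Field M] [NumberField M] (T : Finset (Ideal (𝓞 M))) :
    ∃ A : Finset (Ideal (𝓞 M)), (∀ D : Ideal (𝓞 M), Squarefree D →
      (∀ Q : Ideal (𝓞 M), Q.IsPrime → Q ∣ D → Q ∈ T) → D ∈ A) ∧ A.card ≤ 2 ^ T.card := by
  classical
  have hinj : Set.InjOn (fun D : Ideal (𝓞 M) => T.filter (fun Q => Q ∣ D))
      {D | Squarefree D ∧ ∀ Q : Ideal (𝓞 M), Q.IsPrime → Q ∣ D → Q ∈ T} := by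
    rintro D ⟨hD, hDT⟩ D' ⟨hD', hDT'⟩ he
    have h0 : D ≠ ⊥ := hD.ne_zero
    have h0' : D' ≠ ⊥ := hD'.ne_zero
    have key : ∀ Q : Ideal (𝓞 M), Q.IsPrime → (Q ∣ D ↔ Q ∣ D') := by
      intro Q hQ
      constructor
      · intro h
        have : Q ∈ T.filter (fun Q => Q ∣ D) := Finset.mem_filter.2 ⟨hDT Q hQ h, h⟩
        have he' : T.filter (fun Q => Q ∣ D) = T.filter (fun Q => Q ∣ D') := he
        rw [he'] at this
        exact (Finset.mem_filter.1 this).2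
      · intro h
        have : Q ∈ T.filter (fun Q => Q ∣ D') := Finset.mem_filter.2 ⟨hDT' Q hQ h, h⟩
        have he' : T.filter (fun Q => Q ∣ D) = T.filter (fun Q => Q ∣ D') := he
        rw [← he'] at this
        exact (Finset.mem_filter.1 this).2
    have h1 : normalizedFactors D = normalizedFactors D' := by
      refine (Multiset.Nodup.ext ((squarefree_iff_nodup_normalizedFactors h0).1 hD)
        ((squarefree_iff_nodup_normalizedFactors h0').1 hD')).2 fun Q => ?_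
      rw [Ideal.mem_normalizedFactors_iff h0, Ideal.mem_normalizedFactors_iff h0']
      constructor
      · rintro ⟨h2, h3⟩
        exact ⟨h2, Ideal.dvd_iff_le.1 ((key Q h2).1 (Ideal.dvd_iff_le.2 h3))⟩
      · rintro ⟨h2, h3⟩
        exact ⟨h2, Ideal.dvd_iff_le.1 ((key Q h2).2 (Ideal.dvd_iff_le.2 h3))⟩
    rw [← Ideal.prod_normalizedFactors_eq_self h0, h1, Ideal.prod_normalizedFactors_eq_self h0']
  have hmaps : Set.MapsTo (fun D : Ideal (𝓞 M) => T.filter (fun Q => Q ∣ D))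
      {D | Squarefree D ∧ ∀ Q : Ideal (𝓞 M), Q.IsPrime → Q ∣ D → Q ∈ T}
      (T.powerset : Set (Finset (Ideal (𝓞 M)))) := by
    intro D _
    rw [Finset.mem_coe, Finset.mem_powerset]
    exact Finset.filter_subset _ _
  have hfin : {D : Ideal (𝓞 M) | Squarefree D ∧
      ∀ Q : Ideal (𝓞 M), Q.IsPrime → Q ∣ D → Q ∈ T}.Finite :=
    Set.Finite.of_injOn hmaps hinj (Finset.finite_toSet _)
  refine ⟨hfin.toFinset, fun D h1 h2 => hfin.mem_toFinset.2 ⟨h1, h2⟩, ?_⟩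
  rw [← Finset.card_powerset, ← Set.ncard_eq_toFinset_card _ hfin]
  have h3 := Set.ncard_le_ncard_of_injOn _ hmaps hinj (Finset.finite_toSet _)
  rwa [Set.ncard_coe_finset] at h3

theorem s_C : S_C := by
  classical
  intro K _ _ n d ε hd hε
  obtain ⟨C1, hC1, h1⟩ := idealUnifE (Module.finrank ℚ K) (ε / 2) (by positivity)
  set e : ℝ := ε / (2 * ((n : ℝ) + 1)) with he
  have he0 : 0 < e := by positivity
  obtain ⟨C2, hC2, h2⟩ := Pool.Agent.TH10.RP.two_pow_omega e he0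
  have hC20 : 0 < C2 := by linarith
  refine ⟨C1 * C2 ^ n, by positivity, ?_⟩
  intro M _ _ _ hM Y hY
  set δ : ℕ := (discr M).natAbs with hδ
  have hδ0 : δ ≠ 0 := Int.natAbs_ne_zero.2 (discr_ne_zero M)
  have hδ1 : (1 : ℝ) ≤ (δ : ℝ) := by exact_mod_cast Nat.one_le_iff_ne_zero.2 hδ0
  have hδe : ((|discr M| : ℤ) : ℝ) = (δ : ℝ) := by
    rw [hδ, Nat.cast_natAbs]
  set Z : ℝ := Y ^ (1 / (d : ℝ)) with hZ
  have hd0 : (0 : ℝ) < d := by exact_mod_cast hd
  have hZ1 : 1 ≤ Z := Real.one_le_rpow hY (by positivity)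
  obtain ⟨hBfin, hBcard⟩ := h1 K rfl Z hZ1
  set B : Finset (Ideal (𝓞 K)) := hBfin.toFinset with hB
  have hA : ∀ b : Ideal (𝓞 K), ∃ A : Finset (Ideal (𝓞 M)), b ≠ ⊥ →
      (∀ D : Ideal (𝓞 M), Squarefree D → (∀ Q : Ideal (𝓞 M), Q.IsPrime → Q ∣ D →
        ((Ideal.absNorm b * δ : ℕ) : 𝓞 M) ∈ Q) → D ∈ A) ∧
      ((A.card : ℝ) ≤ (C2 * ((Ideal.absNorm b * δ : ℕ) : ℝ) ^ e) ^ n) := by
    intro b
    by_cases hb : b = ⊥
    · exact ⟨∅, fun h => absurd hb h⟩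
    · have hm : Ideal.absNorm b * δ ≠ 0 :=
        mul_ne_zero (by rw [Ne, Ideal.absNorm_eq_zero_iff]; exact hb) hδ0
      obtain ⟨T, hT1, hT2⟩ := C.primes (M := M) _ hm
      obtain ⟨A, hA1, hA2⟩ := C.sqf T
      refine ⟨A, fun _ => ⟨fun D hD hDQ => hA1 D hD fun Q hQ hQD => ?_, ?_⟩⟩
      · refine hT1 Q hQ ?_ (hDQ Q hQ hQD)
        rintro rfl
        apply hD.ne_zero
        have := zero_dvd_iff.1 hQD
        exact this
      · have h3 : A.card ≤ 2 ^ ((Ideal.absNorm b * δ).primeFactors.card * n) := by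
          refine hA2.trans (Nat.pow_le_pow_right (by norm_num) ?_)
          rw [← hM]
          exact hT2
        calc (A.card : ℝ) ≤ (2 : ℝ) ^ ((Ideal.absNorm b * δ).primeFactors.card * n) := by
              exact_mod_cast h3
          _ = ((2 : ℝ) ^ (Ideal.absNorm b * δ).primeFactors.card) ^ n := pow_mul _ _ _
          _ ≤ _ := pow_le_pow_left₀ (by positivity) (h2 _ hm) n
  choose A hA using hA
  have hsub : {𝔡 : Ideal (𝓞 M) | 𝔡 ∈ BdW K M d ∧ (Ideal.absNorm 𝔡 : ℝ) ≤ Y} ⊆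
      ((B.biUnion A : Finset (Ideal (𝓞 M))) : Set (Ideal (𝓞 M))) := by
    rintro D ⟨⟨hD, b, hb0, hbD, hbQ⟩, hDY⟩
    rw [Finset.mem_coe, Finset.mem_biUnion]
    refine ⟨b, ?_, ?_⟩
    · rw [hB, Set.Finite.mem_toFinset]
      refine ⟨hb0, ?_⟩
      have h4 : (Ideal.absNorm b : ℝ) ^ d ≤ Y := by
        refine le_trans ?_ hDY
        exact_mod_cast hbD
      rw [hZ]
      have h5 : (Ideal.absNorm b : ℝ) = ((Ideal.absNorm b : ℝ) ^ d) ^ (1 / (d : ℝ)) := by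
        rw [one_div, Real.pow_rpow_inv_natCast (by positivity) (by omega)]
      rw [h5]
      exact Real.rpow_le_rpow (by positivity) h4 (by positivity)
    · refine (hA b hb0).1 D hD fun Q hQ hQD => ?_
      rcases hbQ Q hQ hQD with h6 | h6
      · rw [Nat.cast_mul]
        refine Ideal.mul_mem_right _ _ ?_
        have h7 : ((Ideal.absNorm b : ℕ) : 𝓞 K) ∈ Q.under (𝓞 K) :=
          Ideal.dvd_iff_le.1 h6 (Ideal.absNorm_mem b)
        rw [Ideal.under, Ideal.mem_comap] at h7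
        simpa using h7
      · rw [Nat.cast_mul]
        refine Ideal.mul_mem_left _ _ ?_
        have h8 : ((δ : ℕ) : 𝓞 M) = ((δ : ℤ) : 𝓞 M) := by push_cast; rfl
        rw [h8, hδ, Int.natCast_natAbs]
        rcases abs_choice (discr M) with h9 | h9
        · rw [h9]; exact h6
        · rw [h9, Int.cast_neg]; exact Q.neg_mem h6
  have hfin : {𝔡 : Ideal (𝓞 M) | 𝔡 ∈ BdW K M d ∧ (Ideal.absNorm 𝔡 : ℝ) ≤ Y}.Finite :=
    (Finset.finite_toSet _).subset hsub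
  refine ⟨hfin, ?_⟩
  have hE : ∀ b ∈ B, ((A b).card : ℝ) ≤ C2 ^ n * ((δ : ℝ) ^ (ε / 2) * Z ^ (ε / 2)) := by
    intro b hb
    rw [hB, Set.Finite.mem_toFinset] at hb
    obtain ⟨hb0, hbZ⟩ := hb
    refine (hA b hb0).2.trans ?_
    rw [mul_pow]
    refine mul_le_mul_of_nonneg_left ?_ (by positivity)
    rw [← Real.rpow_natCast, ← Real.rpow_mul (by positivity), ← Real.mul_rpow (by positivity)
      (by positivity)]
    have hm1 : (1 : ℝ) ≤ (δ : ℝ) * Z := by nlinarith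
    have hle : ((Ideal.absNorm b * δ : ℕ) : ℝ) ≤ (δ : ℝ) * Z := by
      push_cast
      rw [mul_comm]
      exact mul_le_mul_of_nonneg_left hbZ (by positivity)
    have hen : 0 ≤ e * (n : ℝ) := by positivity
    have hen2 : e * (n : ℝ) ≤ ε / 2 := by
      rw [he, div_mul_eq_mul_div, div_le_div_iff₀ (by positivity) (by norm_num)]
      have : (0 : ℝ) ≤ n := by positivity
      nlinarith
    calc ((Ideal.absNorm b * δ : ℕ) : ℝ) ^ (e * (n : ℝ)) ≤ ((δ : ℝ) * Z) ^ (e * (n : ℝ)) :=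
          Real.rpow_le_rpow (by positivity) hle hen
      _ ≤ ((δ : ℝ) * Z) ^ (ε / 2) := Real.rpow_le_rpow_of_exponent_le hm1 hen2
  have hBc : (B.card : ℝ) ≤ C1 * Z ^ (1 + ε / 2) := by
    rw [hB, ← Set.ncard_eq_toFinset_card _ hBfin]
    exact hBcard
  have htot : (Set.ncard {𝔡 : Ideal (𝓞 M) | 𝔡 ∈ BdW K M d ∧ (Ideal.absNorm 𝔡 : ℝ) ≤ Y} : ℝ) ≤
      B.card * (C2 ^ n * ((δ : ℝ) ^ (ε / 2) * Z ^ (ε / 2))) := by
    have h10 : Set.ncard {𝔡 : Ideal (𝓞 M) | 𝔡 ∈ BdW K M d ∧ (Ideal.absNorm 𝔡 : ℝ) ≤ Y} ≤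
        ∑ b ∈ B, (A b).card := by
      refine (Set.ncard_le_ncard hsub (Finset.finite_toSet _)).trans ?_
      rw [Set.ncard_coe_finset]
      exact Finset.card_biUnion_le
    calc _ ≤ ((∑ b ∈ B, (A b).card : ℕ) : ℝ) := by exact_mod_cast h10
      _ = ∑ b ∈ B, ((A b).card : ℝ) := by push_cast; rfl
      _ ≤ ∑ _b ∈ B, (C2 ^ n * ((δ : ℝ) ^ (ε / 2) * Z ^ (ε / 2))) := Finset.sum_le_sum hE
      _ = _ := by rw [Finset.sum_const, nsmul_eq_mul]
  refine htot.trans ?_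
  rw [hδe]
  have hZpow : Z ^ (1 + ε / 2) * Z ^ (ε / 2) ≤ Y ^ (1 / (d : ℝ) + ε) := by
    rw [← Real.rpow_add (by linarith), hZ, ← Real.rpow_mul (by linarith)]
    refine Real.rpow_le_rpow_of_exponent_le hY ?_
    have h11 : 1 / (d : ℝ) * (1 + ε / 2 + ε / 2) = 1 / (d : ℝ) + 1 / (d : ℝ) * ε := by ring
    rw [h11]
    have h12 : 1 / (d : ℝ) ≤ 1 := by
      rw [div_le_one hd0]
      exact_mod_cast hd
    nlinarith
  have hδpow : (δ : ℝ) ^ (ε / 2) ≤ (δ : ℝ) ^ ε :=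
    Real.rpow_le_rpow_of_exponent_le hδ1 (by linarith)
  calc (B.card : ℝ) * (C2 ^ n * ((δ : ℝ) ^ (ε / 2) * Z ^ (ε / 2)))
      ≤ (C1 * Z ^ (1 + ε / 2)) * (C2 ^ n * ((δ : ℝ) ^ (ε / 2) * Z ^ (ε / 2))) :=
        mul_le_mul_of_nonneg_right hBc (by positivity)
    _ = C1 * C2 ^ n * ((δ : ℝ) ^ (ε / 2)) * (Z ^ (1 + ε / 2) * Z ^ (ε / 2)) := by ring
    _ ≤ C1 * C2 ^ n * ((δ : ℝ) ^ ε) * Y ^ (1 / (d : ℝ) + ε) := by
        refine mul_le_mul ?_ hZpow (by positivity) (by positivity)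
        exact mul_le_mul_of_nonneg_left hδpow (by positivity)
end Pool.Agent.NH85.CE
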