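import Pool.Agent.NH85.CE.Defs
import Pool.Agent.TH713.J3096
import Pool.Agent.TH89.J3091

set_option autoImplicit false

open NumberField Filter Topology

namespace Pool.Agent.NH85.CE

open Pool.Agent.TH713.J3096 Ideal

namespace SE

section sieve

variable {M : Type} [Field M] [NumberField M]

theorem N_pos {I : Ideal (𝓞 M)} (h : I ≠ ⊥) : (1 : ℝ) ≤ absNorm I := by
  have : absNorm I ≠ 0 := fun h1 => h (Ideal.absNorm_eq_zero_iff.mp h1)
  exact_mod_cast Nat.one_le_iff_ne_zero.2 this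

theorem dens_univ_pos : ∃ κ : ℝ, 0 < κ ∧ Dens (Set.univ : Set (Ideal (𝓞 M))) κ := by
  refine ⟨_, NumberField.dedekindZeta_residue_pos M,
    (NumberField.Ideal.tendsto_norm_le_div_atTop₀ M).congr ?_⟩
  intro Z
  congr 2
  unfold cnt
  rw [← Nat.card_coe_set_eq]
  refine Nat.card_congr
    { toFun := fun x => ⟨x.1.1, trivial, nonZeroDivisors.ne_zero x.1.2, x.2⟩
      invFun := fun y => ⟨⟨y.1, mem_nonZeroDivisors_of_ne_zero y.2.2.1⟩, y.2.2.2⟩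
      left_inv := fun x => rfl
      right_inv := fun y => rfl }

theorem cnt_mono {A B : Set (Ideal (𝓞 M))} (h : A ⊆ B) (Z : ℝ) : cnt A Z ≤ cnt B Z :=
  Set.ncard_le_ncard (fun _ hI => ⟨h hI.1, hI.2⟩) (fin B Z)

theorem cnt_mono' (A : Set (Ideal (𝓞 M))) {Z Z' : ℝ} (h : Z ≤ Z') : cnt A Z ≤ cnt A Z' :=
  Set.ncard_le_ncard (fun _ hI => ⟨hI.1, hI.2.1, hI.2.2.trans h⟩) (fin A Z')

/-- a crude bound -/
theorem crude : ∃ C : ℝ, 0 < C ∧ ∀ t : ℝ, 0 ≤ t → (cnt (Set.univ : Set (Ideal (𝓞 M))) t : ℝ) ≤ C * t := by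
  obtain ⟨κ, hκ, h⟩ := dens_univ_pos (M := M)
  have h1 : ∀ᶠ Z : ℝ in atTop, (cnt (Set.univ : Set (Ideal (𝓞 M))) Z : ℝ) / Z < κ + 1 :=
    h.eventually (gt_mem_nhds (by linarith))
  obtain ⟨Z0, hZ0⟩ := Filter.eventually_atTop.mp (h1.and (eventually_ge_atTop 1))
  refine ⟨κ + 1 + cnt (Set.univ : Set (Ideal (𝓞 M))) Z0, by positivity, ?_⟩
  intro t ht
  rcases lt_or_ge t 1 with h2 | h2
  · have : cnt (Set.univ : Set (Ideal (𝓞 M))) t = 0 := by
      unfold cnt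
      rw [Set.ncard_eq_zero (fin _ _), Set.eq_empty_iff_forall_notMem]
      rintro I ⟨-, h3, h4⟩
      have := N_pos h3
      linarith
    rw [this]
    simp only [Nat.cast_zero]
    positivity
  · rcases le_total Z0 t with h3 | h3
    · obtain ⟨h4, -⟩ := hZ0 t h3
      rw [div_lt_iff₀ (by linarith)] at h4
      have : (0 : ℝ) ≤ (cnt (Set.univ : Set (Ideal (𝓞 M))) Z0 : ℝ) * t := by positivity
      nlinarith
    · have h4 : (cnt (Set.univ : Set (Ideal (𝓞 M))) t : ℝ) ≤ cnt (Set.univ : Set (Ideal (𝓞 M))) Z0 := by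
        exact_mod_cast cnt_mono' _ h3
      have h5 : (0 : ℝ) ≤ (cnt (Set.univ : Set (Ideal (𝓞 M))) Z0 : ℝ) := Nat.cast_nonneg _
      nlinarith

omit [NumberField M] in
theorem inv_one {G : Set (Ideal (𝓞 M))} {P : Ideal (𝓞 M)} (h : IsUnit P) : Inv G P := by
  intro I _
  rw [Ideal.isUnit_iff] at h
  rw [h, ← Ideal.one_eq_top, one_mul]

omit [NumberField M] in
theorem inv_mul {G : Set (Ideal (𝓞 M))} {P Q : Ideal (𝓞 M)} (hP : Inv G P) (hQ : Inv G Q)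
    (hQ0 : Q ≠ ⊥) : Inv G (P * Q) := by
  intro I hI
  rw [mul_assoc, hP _ (mul_ne_zero hQ0 hI), hQ I hI]

theorem inv_of {G : Set (Ideal (𝓞 M))} (W : Finset (Ideal (𝓞 M)))
    (hG : ∀ P : Ideal (𝓞 M), P.IsPrime → P ≠ ⊥ → P ∉ W → Inv G P) (m : Ideal (𝓞 M)) :
    m ≠ ⊥ → (∀ P : Ideal (𝓞 M), P.IsPrime → P ∣ m → P ∉ W) → Inv G m := by
  classical
  refine UniqueFactorizationMonoid.induction_on_prime m ?_ ?_ ?_
  · intro h
    exact absurd rfl h
  · intro x hx _ _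
    exact inv_one hx
  · intro a p ha hp ih _ h2
    exact inv_mul (hG p (Ideal.isPrime_of_prime hp) hp.ne_zero
      (h2 p (Ideal.isPrime_of_prime hp) (dvd_mul_right p a)))
      (ih ha (fun P hP hPa => h2 P hP (hPa.mul_left p))) ha

/-- the set of the nonzero ideals without prime divisors of norm `≤ y` and without divisors in `𝓑` -/
def Fr (𝓑 : Set (Ideal (𝓞 M))) (y : ℕ) : Set (Ideal (𝓞 M)) :=
  {I | I ≠ ⊥ ∧ (∀ Q : Ideal (𝓞 M), Q.IsPrime → Q ∣ I → y < absNorm Q) ∧ ∀ m ∈ 𝓑, ¬ m ∣ I}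

theorem fin_primes (y : ℕ) : {Q : Ideal (𝓞 M) | Q.IsPrime ∧ Q ≠ ⊥ ∧ absNorm Q ≤ y}.Finite := by
  refine (Ideal.finite_setOfPred_absNorm_le (S := 𝓞 M) y).subset ?_
  rintro I ⟨-, -, h3⟩
  exact h3

open Classical in
theorem sieve_main (𝓑 : Set (Ideal (𝓞 M))) (hb : ∀ m ∈ 𝓑, m ≠ ⊥ ∧ m ≠ ⊤)
    (hS : Summable (𝓑.indicator fun m => (1 : ℝ) / absNorm m)) (y0 : ℕ) :
    ∃ c : ℝ, 0 < c ∧ ∀ᶠ Z : ℝ in atTop, c * Z ≤ cnt (Fr 𝓑 y0) Z := by
  obtain ⟨κ, hκ, hu⟩ := dens_univ_pos (M := M)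
  obtain ⟨C, hC, hcr⟩ := crude (M := M)
  have hf0 : ∀ m : Ideal (𝓞 M), 0 ≤ (𝓑.indicator fun m => (1 : ℝ) / absNorm m) m := by
    intro m
    exact Set.indicator_nonneg (fun _ _ => by positivity) m
  set f : Ideal (𝓞 M) → ℝ := 𝓑.indicator fun m => (1 : ℝ) / absNorm m with hf
  rw [summable_iff_vanishing_norm] at hS
  obtain ⟨s, hs⟩ := hS (1 / 4) (by norm_num)
  set y : ℕ := max y0 (∑ m ∈ s, absNorm m) with hy
  set W : Finset (Ideal (𝓞 M)) := (fin_primes (M := M) y).toFinset with hW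
  have hWmem : ∀ P, P ∈ W ↔ P.IsPrime ∧ P ≠ ⊥ ∧ absNorm P ≤ y := by
    intro P
    rw [hW, Set.Finite.mem_toFinset]
    rfl
  obtain ⟨G, -, hG1, hG2, hG3⟩ := step1 (Set.univ : Set (Ideal (𝓞 M))) κ hu (fun _ => True)
    (fun P _ _ _ I _ => by simp) W (fun P hP => by
      rw [hWmem] at hP
      exact ⟨hP.1, hP.2.1, trivial⟩)
  have hG2' : ∀ P : Ideal (𝓞 M), P.IsPrime → P ≠ ⊥ → P ∉ W → Inv G P :=
    fun P h1 h2 h3 => hG2 P h1 h2 trivial h3
  set δ : ℝ := κ * ∏ P ∈ W, (1 - 1 / (absNorm P : ℝ)) with hδ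
  have hδ0 : 0 < δ := by
    refine mul_pos hκ (Finset.prod_pos ?_)
    intro P hP
    rw [hWmem] at hP
    have h1 : (2 : ℝ) ≤ absNorm P := by exact_mod_cast two_le M P hP.1 hP.2.1
    have h2 : 1 / (absNorm P : ℝ) ≤ 1 / 2 := one_div_le_one_div_of_le (by norm_num) h1
    linarith
  -- the bad ideals without prime divisors in `W`
  set 𝓑' : Set (Ideal (𝓞 M)) := {m | m ∈ 𝓑 ∧ ∀ P : Ideal (𝓞 M), P.IsPrime → P ∣ m → P ∉ W} with h𝓑'
  have hdisj : ∀ m ∈ 𝓑', m ∉ s := by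
    rintro m ⟨hm1, hm2⟩ hms
    obtain ⟨hm0, hmt⟩ := hb m hm1
    obtain ⟨P, hP1, hP2⟩ : ∃ P : Ideal (𝓞 M), P.IsPrime ∧ P ∣ m := by
      obtain ⟨P, hP, hPm⟩ := Ideal.exists_le_maximal m hmt
      exact ⟨P, hP.isPrime, Ideal.dvd_iff_le.2 hPm⟩
    apply hm2 P hP1 hP2
    rw [hWmem]
    refine ⟨hP1, ?_, ?_⟩
    · rintro rfl
      exact hm0 (zero_dvd_iff.1 (show (0 : Ideal (𝓞 M)) ∣ m from hP2))
    · have h1 : absNorm P ≤ absNorm m := by
        refine Nat.le_of_dvd (Nat.pos_of_ne_zero ?_) (map_dvd absNorm hP2)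
        rw [Ne, absNorm_eq_zero_iff]
        exact hm0
      have h2 : absNorm m ≤ ∑ m ∈ s, absNorm m :=
        Finset.single_le_sum (f := fun m => absNorm m) (fun _ _ => Nat.zero_le _) hms
      exact h1.trans (h2.trans (le_max_right _ _))
  obtain ⟨s2, hs2⟩ := hS (δ / (8 * C)) (by positivity)
  set B1 : Finset (Ideal (𝓞 M)) := s2.filter (fun m => m ∈ 𝓑') with hB1
  have hB1sum : ∑ m ∈ B1, (1 : ℝ) / absNorm m ≤ 1 / 4 := by
    have h1 := hs B1 (by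
      rw [Finset.disjoint_left]
      intro m hm
      exact hdisj m (Finset.mem_filter.1 hm).2)
    have h2 : ∑ m ∈ B1, (1 : ℝ) / absNorm m = ∑ m ∈ B1, f m := by
      apply Finset.sum_congr rfl
      intro m hm
      rw [hf, Set.indicator_of_mem (Finset.mem_filter.1 hm).2.1]
    rw [h2]
    exact (le_abs_self _).trans h1.le
  -- limits
  have hlim : Tendsto (fun Z : ℝ => (∑ m ∈ B1, (cnt (mulS m G) Z : ℝ) / Z)) atTop
      (𝓝 (∑ m ∈ B1, δ / absNorm m)) := by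
    apply tendsto_finsetSum
    intro m hm
    exact dens_mulS m (hb m (Finset.mem_filter.1 hm).2.1).1 hG1
  have hlimle : ∑ m ∈ B1, δ / (absNorm m : ℝ) ≤ δ / 4 := by
    have : ∑ m ∈ B1, δ / (absNorm m : ℝ) = δ * ∑ m ∈ B1, (1 : ℝ) / absNorm m := by
      rw [Finset.mul_sum]
      apply Finset.sum_congr rfl
      intro m _
      ring
    rw [this]
    nlinarith
  have e1 : ∀ᶠ Z : ℝ in atTop, (∑ m ∈ B1, (cnt (mulS m G) Z : ℝ) / Z) < δ / 4 + δ / 8 :=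
    hlim.eventually (gt_mem_nhds (by linarith))
  have e2 : ∀ᶠ Z : ℝ in atTop, δ * (7 / 8) < (cnt G Z : ℝ) / Z :=
    hG1.eventually (lt_mem_nhds (by linarith))
  refine ⟨δ / 4, by positivity, ?_⟩
  filter_upwards [e1, e2, eventually_ge_atTop 1] with Z h1 h2 hZ
  have hZ0 : 0 < Z := by linarith
  rw [← Finset.sum_div, div_lt_iff₀ hZ0] at h1
  rw [lt_div_iff₀ hZ0] at h2
  -- the bad ideals of norm `≤ Z`
  have hfinB : {m : Ideal (𝓞 M) | m ∈ 𝓑' ∧ m ≠ ⊥ ∧ (absNorm m : ℝ) ≤ Z}.Finite := fin 𝓑' Z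
  set Bz : Finset (Ideal (𝓞 M)) := hfinB.toFinset with hBz
  have hBzmem : ∀ m, m ∈ Bz ↔ m ∈ 𝓑' ∧ m ≠ ⊥ ∧ (absNorm m : ℝ) ≤ Z := by
    intro m
    rw [hBz, Set.Finite.mem_toFinset]
    rfl
  have hsub : {I : Ideal (𝓞 M) | I ∈ G ∧ I ≠ ⊥ ∧ (absNorm I : ℝ) ≤ Z} ⊆
      {I : Ideal (𝓞 M) | I ∈ Fr 𝓑 y0 ∧ I ≠ ⊥ ∧ (absNorm I : ℝ) ≤ Z} ∪
      ⋃ m ∈ Bz, {I : Ideal (𝓞 M) | I ∈ mulS m G ∧ I ≠ ⊥ ∧ (absNorm I : ℝ) ≤ Z} := by
    rintro I ⟨hI1, hI2, hI3⟩
    by_cases hI : ∃ m ∈ 𝓑, m ∣ I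
    · right
      obtain ⟨m, hm, J, rfl⟩ := hI
      have hm0 : m ≠ ⊥ := (hb m hm).1
      have hJ0 : J ≠ ⊥ := by
        rintro rfl
        exact hI2 (mul_zero m)
      have hmB : m ∈ 𝓑' := by
        refine ⟨hm, ?_⟩
        intro P hP hPm hPW
        exact hG3 _ hI1 hI2 P hPW (hPm.mul_right J)
      have hmN : (absNorm m : ℝ) ≤ Z := by
        rw [map_mul, Nat.cast_mul] at hI3
        have h3 := N_pos hJ0
        have h4 := N_pos hm0
        nlinarith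
      rw [Set.mem_iUnion₂]
      refine ⟨m, (hBzmem m).2 ⟨hmB, hm0, hmN⟩, ⟨J, ?_, hJ0, rfl⟩, hI2, hI3⟩
      exact (inv_of W hG2' m hm0 hmB.2 J hJ0).1 hI1
    · left
      refine ⟨⟨hI2, ?_, ?_⟩, hI2, hI3⟩
      · intro Q hQ hQI
        by_contra h3
        push Not at h3
        refine hG3 I hI1 hI2 Q ?_ hQI
        rw [hWmem]
        refine ⟨hQ, ?_, h3.trans (le_max_left _ _)⟩
        rintro rfl
        exact hI2 (zero_dvd_iff.1 (show (0 : Ideal (𝓞 M)) ∣ I from hQI))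
      · intro m hm hmI
        exact hI ⟨m, hm, hmI⟩
  have hcount : (cnt G Z : ℝ) ≤ cnt (Fr 𝓑 y0) Z + ∑ m ∈ Bz, (cnt (mulS m G) Z : ℝ) := by
    have h3 : cnt G Z ≤ cnt (Fr 𝓑 y0) Z + ∑ m ∈ Bz, cnt (mulS m G) Z := by
      refine (Set.ncard_le_ncard hsub ?_).trans ?_
      · exact (fin _ _).union (Set.Finite.biUnion (Finset.finite_toSet Bz) (fun m _ => fin _ _))
      · refine (Set.ncard_union_le _ _).trans ?_
        refine Nat.add_le_add le_rfl ?_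
        exact Finset.set_ncard_biUnion_le Bz _
    exact_mod_cast h3
  have hsplit : ∑ m ∈ Bz, (cnt (mulS m G) Z : ℝ) ≤
      ∑ m ∈ B1, (cnt (mulS m G) Z : ℝ) + C * Z * (δ / (8 * C)) := by
    have h3 : ∑ m ∈ Bz, (cnt (mulS m G) Z : ℝ) =
        ∑ m ∈ Bz.filter (fun m => m ∈ s2), (cnt (mulS m G) Z : ℝ) +
        ∑ m ∈ Bz.filter (fun m => m ∉ s2), (cnt (mulS m G) Z : ℝ) :=
      (Finset.sum_filter_add_sum_filter_not Bz (fun m => m ∈ s2) _).symm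
    rw [h3]
    refine add_le_add ?_ ?_
    · apply Finset.sum_le_sum_of_subset_of_nonneg
      · intro m hm
        rw [Finset.mem_filter] at hm ⊢
        exact ⟨hm.2, ((hBzmem m).1 hm.1).1⟩
      · intro m _ _
        positivity
    · have h4 : ∀ m ∈ Bz.filter (fun m => m ∉ s2), (cnt (mulS m G) Z : ℝ) ≤ C * Z * f m := by
        intro m hm
        rw [Finset.mem_filter, hBzmem] at hm
        have hm0 := hm.1.2.1
        have hN := N_pos hm0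
        rw [cnt_mulS m hm0, hf, Set.indicator_of_mem hm.1.1.1]
        have h5 : (cnt G (Z / absNorm m) : ℝ) ≤ cnt (Set.univ : Set (Ideal (𝓞 M))) (Z / absNorm m) := by
          exact_mod_cast cnt_mono (Set.subset_univ G) _
        refine h5.trans ((hcr _ (by positivity)).trans (le_of_eq ?_))
        ring
      refine (Finset.sum_le_sum h4).trans ?_
      rw [← Finset.mul_sum]
      refine mul_le_mul_of_nonneg_left ?_ (by positivity)
      have h5 := hs2 (Bz.filter (fun m => m ∉ s2)) (by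
        rw [Finset.disjoint_left]
        intro m hm
        exact (Finset.mem_filter.1 hm).2)
      exact (le_abs_self _).trans h5.le
  have h6 : C * Z * (δ / (8 * C)) = δ / 8 * Z := by
    field_simp
  rw [h6] at hsplit
  nlinarith

end sieve

section bad

open Pool.Agent.TH89.J3091 (pr pr_prime pr_le above)

variable (K F : Type) [Field K] [NumberField K] [Field F] [NumberField F] [Algebra K F]

/-- the bad ideals -/
def Bd : Set (Ideal (𝓞 F)) :=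
  {m | (m.IsPrime ∧ m ≠ ⊥ ∧ absNorm m ≠ absNorm (m.under (𝓞 K))) ∨
    ∃ Q Q' : Ideal (𝓞 F), Q.IsPrime ∧ Q ≠ ⊥ ∧ Q'.IsPrime ∧ Q' ≠ ⊥ ∧
      Q.under (𝓞 K) = Q'.under (𝓞 K) ∧ m = Q * Q'}

theorem bd_ne {m : Ideal (𝓞 F)} (hm : m ∈ Bd K F) : m ≠ ⊥ ∧ m ≠ ⊤ := by
  rcases hm with ⟨h1, h2, -⟩ | ⟨Q, Q', h1, h2, h3, h4, -, rfl⟩
  · exact ⟨h2, h1.ne_top⟩
  · refine ⟨mul_ne_zero h2 h4, ?_⟩
    intro h
    apply h1.ne_top
    have h6 : Q * Q' ≤ Q := Ideal.mul_le_left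
    rw [h] at h6
    exact top_le_iff.1 h6

/-- the primes above a rational prime -/
def Ab (l : ℕ) : Set (Ideal (𝓞 F)) := {P | P.IsPrime ∧ P ≠ ⊥ ∧ pr P = l}

/-- the primes above a rational prime and their products by twos -/
def Sb (l : ℕ) : Set (Ideal (𝓞 F)) := Ab F l ∪ Set.image2 (fun a b => a * b) (Ab F l) (Ab F l)

theorem Sb_card {l : ℕ} (hl : l.Prime) : (Sb F l).Finite ∧
    (Sb F l).ncard ≤ Module.finrank ℚ F + Module.finrank ℚ F ^ 2 := by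
  obtain ⟨h1, h2⟩ := above (M := F) l hl
  have h1' : (Ab F l).Finite := h1
  have h2' : (Ab F l).ncard ≤ Module.finrank ℚ F := h2
  refine ⟨h1'.union (h1'.image2 _ h1'), ?_⟩
  refine (Set.ncard_union_le _ _).trans ?_
  refine Nat.add_le_add h2' ?_
  have h3 : Set.image2 (fun a b => a * b) (Ab F l) (Ab F l) =
      (fun x : Ideal (𝓞 F) × Ideal (𝓞 F) => x.1 * x.2) '' ((Ab F l) ×ˢ (Ab F l)) :=
    (Set.image_prod _).symm
  rw [h3]
  refine (Set.ncard_image_le (h1'.prod h1')).trans ?_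
  rw [Set.ncard_prod, sq]
  exact Nat.mul_le_mul h2' h2'

theorem pr_under (Q : Ideal (𝓞 F)) : pr (Q.under (𝓞 K)) = pr Q := by
  unfold pr
  rw [Ideal.under_under]

theorem bd_mem {m : Ideal (𝓞 F)} (hm : m ∈ Bd K F) :
    ∃ l : ℕ, l.Prime ∧ m ∈ Sb F l ∧ l ^ 2 ≤ absNorm m := by
  rcases hm with ⟨h1, h2, h3⟩ | ⟨Q, Q', h1, h2, h3, h4, h5, rfl⟩
  · refine ⟨pr m, pr_prime h1 h2, Or.inl ⟨h1, h2, rfl⟩, ?_⟩
    have hp0 : m.under (𝓞 K) ≠ ⊥ := Ideal.under_ne_bot (𝓞 K) h2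
    have hp : (m.under (𝓞 K)).IsPrime := inferInstance
    have e1 : absNorm m = absNorm (m.under (𝓞 K)) ^ inertiaDeg' (m.under (𝓞 K)) m :=
      absNorm_eq_pow_inertiaDeg'_of_liesOver m (m.under (𝓞 K)) hp hp0
    have hf0 : inertiaDeg' (m.under (𝓞 K)) m ≠ 0 := by
      have : (m.under (𝓞 K)).IsMaximal := hp.isMaximal hp0
      exact inertiaDeg'_ne_zero _ _
    have hf1 : inertiaDeg' (m.under (𝓞 K)) m ≠ 1 := by
      intro h
      rw [h, pow_one] at e1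
      exact h3 e1
    have hf2 : 2 ≤ inertiaDeg' (m.under (𝓞 K)) m := by omega
    have e2 : pr m ≤ absNorm (m.under (𝓞 K)) := by
      rw [← pr_under K F]
      exact pr_le hp0
    rw [e1]
    calc pr m ^ 2 ≤ absNorm (m.under (𝓞 K)) ^ 2 := Nat.pow_le_pow_left e2 2
      _ ≤ absNorm (m.under (𝓞 K)) ^ inertiaDeg' (m.under (𝓞 K)) m := by
        apply Nat.pow_le_pow_right _ hf2
        have := two_le K (m.under (𝓞 K)) hp hp0
        omega
  · have h6 : pr Q = pr Q' := by rw [← pr_under K F Q, ← pr_under K F Q', h5]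
    refine ⟨pr Q, pr_prime h1 h2, Or.inr ⟨Q, ⟨h1, h2, rfl⟩, Q', ⟨h3, h4, h6.symm⟩, rfl⟩, ?_⟩
    rw [map_mul, sq]
    exact Nat.mul_le_mul (pr_le h2) (h6 ▸ pr_le h4)

open Classical in
theorem bd_summable : Summable ((Bd K F).indicator fun m => (1 : ℝ) / absNorm m) := by
  choose! l hl1 hl2 hl3 using fun m (hm : m ∈ Bd K F) => bd_mem K F hm
  set D : ℕ := Module.finrank ℚ F + Module.finrank ℚ F ^ 2 with hD
  have hsum : Summable (fun n : ℕ => (1 : ℝ) / (n : ℝ) ^ 2) :=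
    Real.summable_one_div_nat_pow.2 (by norm_num)
  refine summable_of_sum_le (c := D * ∑' n : ℕ, (1 : ℝ) / (n : ℝ) ^ 2) ?_ ?_
  · intro m
    exact Set.indicator_nonneg (fun _ _ => by positivity) m
  · intro u
    rw [Finset.sum_indicator_eq_sum_filter]
    have h1 : ∀ m ∈ u.filter (fun m => m ∈ Bd K F), (1 : ℝ) / absNorm m ≤ 1 / (l m : ℝ) ^ 2 := by
      intro m hm
      rw [Finset.mem_filter] at hm
      have h2 := (hl1 m hm.2).pos
      apply one_div_le_one_div_of_le (by positivity)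
      exact_mod_cast hl3 m hm.2
    refine (Finset.sum_le_sum h1).trans ?_
    rw [Finset.sum_comp (fun n : ℕ => (1 : ℝ) / (n : ℝ) ^ 2) l]
    have h2 : ∀ n ∈ (u.filter (fun m => m ∈ Bd K F)).image l,
        ((u.filter (fun m => m ∈ Bd K F)).filter (fun a => l a = n)).card • ((1 : ℝ) / (n : ℝ) ^ 2) ≤
          D * ((1 : ℝ) / (n : ℝ) ^ 2) := by
      intro n hn
      rw [Finset.mem_image] at hn
      obtain ⟨m, hm, rfl⟩ := hn
      rw [Finset.mem_filter] at hm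
      rw [nsmul_eq_mul]
      refine mul_le_mul_of_nonneg_right ?_ (by positivity)
      obtain ⟨h3, h4⟩ := Sb_card F (hl1 m hm.2)
      have h5 : ((u.filter (fun m => m ∈ Bd K F)).filter (fun a => l a = l m)).card ≤
          (Sb F (l m)).ncard := by
        rw [← Set.ncard_coe_finset]
        apply Set.ncard_le_ncard _ h3
        intro a ha
        rw [Finset.mem_coe, Finset.mem_filter, Finset.mem_filter] at ha
        rw [← ha.2]
        exact hl2 a ha.1.2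
      exact_mod_cast h5.trans h4
    refine (Finset.sum_le_sum h2).trans ?_
    rw [← Finset.mul_sum]
    refine mul_le_mul_of_nonneg_left ?_ (by positivity)
    exact hsum.sum_le_tsum _ (fun _ _ => by positivity)

theorem fr_good (T : Finset (Ideal (𝓞 K))) :
    Fr (Bd K F) (∑ p ∈ T, absNorm (p.map (algebraMap (𝓞 K) (𝓞 F)))) ⊆ Good K F T := by
  rintro I ⟨hI0, hI1, hI2⟩
  have ne : ∀ Q : Ideal (𝓞 F), Q ∣ I → Q ≠ ⊥ := by
    rintro Q hQ rfl
    exact hI0 (zero_dvd_iff.1 (show (0 : Ideal (𝓞 F)) ∣ I from hQ))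
  refine ⟨?_, ?_⟩
  · intro x hx
    by_contra hu
    rw [Ideal.isUnit_iff] at hu
    obtain ⟨Q, hQ, hQx⟩ := Ideal.exists_le_maximal x hu
    have h1 : Q ∣ x := Ideal.dvd_iff_le.2 hQx
    have h2 : Q ∣ I := h1.trans ((dvd_mul_right x x).trans hx)
    exact hI2 (Q * Q) (Or.inr ⟨Q, Q, hQ.isPrime, ne Q h2, hQ.isPrime, ne Q h2, rfl, rfl⟩)
      ((mul_dvd_mul h1 h1).trans hx)
  · intro Q hQ hQI
    have hQ0 := ne Q hQI
    refine ⟨?_, ?_, ?_⟩
    · by_contra h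
      exact hI2 Q (Or.inl ⟨hQ, hQ0, h⟩) hQI
    · intro hT
      have h1 := hI1 Q hQ hQI
      have hp0 : Q.under (𝓞 K) ≠ ⊥ := Ideal.under_ne_bot (𝓞 K) hQ0
      have h2 : (Q.under (𝓞 K)).map (algebraMap (𝓞 K) (𝓞 F)) ≠ ⊥ := by
        rw [Ne, Ideal.map_eq_bot_iff_of_injective (FaithfulSMul.algebraMap_injective (𝓞 K) (𝓞 F))]
        exact hp0
      have h3 : Q ∣ (Q.under (𝓞 K)).map (algebraMap (𝓞 K) (𝓞 F)) :=
        Ideal.dvd_iff_le.2 Ideal.map_comap_le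
      have h4 : absNorm Q ≤ absNorm ((Q.under (𝓞 K)).map (algebraMap (𝓞 K) (𝓞 F))) := by
        refine Nat.le_of_dvd (Nat.pos_of_ne_zero ?_) (map_dvd absNorm h3)
        rw [Ne, absNorm_eq_zero_iff]
        exact h2
      have h5 := Finset.single_le_sum
        (f := fun p : Ideal (𝓞 K) => absNorm (p.map (algebraMap (𝓞 K) (𝓞 F))))
        (fun _ _ => Nat.zero_le _) hT
      omega
    · intro Q' hQ' hQ'I hu
      by_contra hne
      have hQ'0 := ne Q' hQ'I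
      apply hI2 (Q * Q') (Or.inr ⟨Q, Q', hQ, hQ0, hQ', hQ'0, hu.symm, rfl⟩)
      obtain ⟨J, rfl⟩ := hQI
      apply mul_dvd_mul_left
      rcases (prime_of Q' hQ' hQ'0).dvd_or_dvd hQ'I with h3 | h3
      · exact absurd h3 (not_dvd Q' Q hQ' hQ'0 hQ hQ0 hne)
      · exact h3

end bad

end SE

open SE in
theorem s_E : S_E := by
  intro K F _ _ _ _ _ T
  obtain ⟨c, hc, h⟩ := sieve_main (Bd K F) (fun m hm => bd_ne K F hm) (bd_summable K F)
    (∑ p ∈ T, absNorm (p.map (algebraMap (𝓞 K) (𝓞 F))))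
  refine ⟨c, hc, ?_⟩
  filter_upwards [h] with Z hZ
  refine hZ.trans ?_
  have h1 : cnt (Good K F T) Z = Set.ncard {𝔡 : Ideal (𝓞 F) | 𝔡 ∈ Good K F T ∧
      (Ideal.absNorm 𝔡 : ℝ) ≤ Z} := by
    unfold cnt
    congr 1
    ext I
    simp only [Set.mem_ofPred_eq]
    constructor
    · rintro ⟨h1, -, h3⟩
      exact ⟨h1, h3⟩
    · rintro ⟨h1, h3⟩
      exact ⟨h1, h1.1.ne_zero, h3⟩
  rw [← h1]
  exact_mod_cast cnt_mono (fr_good K F T) Z

end Pool.Agent.NH85.CE
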