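import Pool.Agent.NH85.CE.Defs
import Pool.Agent.NH85.ML.Wr

/-!
# (F) an equivariant family gives an extension with group `W ⋊ H`
-/

set_option autoImplicit false

open IntermediateField Pool.Agent.TH365.J3099

namespace Pool.Agent.NH85.CE.FF

open Pool.Agent.TH444.ML Pool.Agent.NH85.ML

/-! ### embeddings as an orbit -/

section orbit

variable {K Ω : Type} [Field K] [CharZero K] [Field Ω] [Algebra K Ω] [IsAlgClosure K Ω]

theorem galX_of_orbit {X : Type} (L : IntermediateField K Ω) [FiniteDimensional K L]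
    (θ : (Ω ≃ₐ[K] Ω) →* Equiv.Perm X) (p : X) (hp : ∀ σ, σ ∈ L.fixingSubgroup ↔ θ σ p = p)
    (ht : ∀ x, ∃ σ, θ σ p = x) (H : Subgroup (Equiv.Perm X)) (hH : ∀ π, π ∈ H ↔ ∃ σ, θ σ = π) :
    L ∈ GalX K Ω H ∧ Module.finrank K L = Nat.card X := by
  have i1 : IsAlgClosed Ω := IsAlgClosure.isAlgClosed K
  have i2 : Normal K Ω := IsAlgClosure.normal K Ω
  choose s hs using exists_act L
  have hiff : ∀ σ τ, act L σ L.val = act L τ L.val ↔ θ σ p = θ τ p := by
    intro σ τ
    rw [act_val_eq_iff, hp, map_mul, map_inv, Equiv.Perm.mul_apply, Equiv.Perm.inv_eq_iff_eq]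
  let f : (L →ₐ[K] Ω) → X := fun φ => θ (s φ) p
  have hf : ∀ σ, f (act L σ L.val) = θ σ p := fun σ => (hiff _ _).1 (hs _)
  have hf2 : ∀ σ φ, f (act L σ φ) = θ σ (f φ) := by
    intro σ φ
    have h1 : act L σ φ = act L (σ * s φ) L.val := by
      rw [map_mul, Equiv.Perm.mul_apply, hs]
    rw [h1, hf, map_mul, Equiv.Perm.mul_apply]
  have hinj : Function.Injective f := by
    intro φ ψ h
    have h1 := (hiff (s φ) (s ψ)).2 h
    rwa [hs, hs] at h1
  have hsurj : Function.Surjective f := by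
    intro x
    obtain ⟨σ, rfl⟩ := ht x
    exact ⟨act L σ L.val, hf σ⟩
  let e : (L →ₐ[K] Ω) ≃ X := Equiv.ofBijective f ⟨hinj, hsurj⟩
  refine ⟨⟨inferInstance, e, fun π => ?_⟩, ?_⟩
  · rw [hH]
    constructor
    · rintro ⟨σ, rfl⟩
      exact ⟨σ, fun φ => hf2 σ φ⟩
    · rintro ⟨σ, hσ⟩
      refine ⟨σ, ?_⟩
      ext1 x
      obtain ⟨φ, rfl⟩ := hsurj x
      exact (hf2 σ φ).symm.trans (hσ φ)
  · rw [← card_emb, Nat.card_congr e]

omit [CharZero K] [IsAlgClosure K Ω] in
theorem mem_fix_adjoin (s : Ω) (σ : Ω ≃ₐ[K] Ω) :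
    σ ∈ (IntermediateField.adjoin K {s}).fixingSubgroup ↔ σ s = s := by
  constructor
  · intro h
    rw [IntermediateField.mem_fixingSubgroup_iff] at h
    exact h s (IntermediateField.mem_adjoin_simple_self K s)
  · intro h
    have h1 : IntermediateField.adjoin K {s} ≤ fixedField (Subgroup.zpowers σ) := by
      rw [IntermediateField.adjoin_simple_le_iff, mem_fixedField_iff]
      intro τ hτ
      have h2 : Subgroup.zpowers σ ≤ MulAction.stabilizer (Ω ≃ₐ[K] Ω) s := by
        rw [Subgroup.zpowers_le]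
        exact h
      exact h2 hτ
    exact (le_iff_le _ _).1 h1 (Subgroup.mem_zpowers σ)

end orbit

/-! ### signs and products -/

section prod

variable {P : Type} [Fintype P]

/-- the sign `(-1) ^ a` -/
def sg (R : Type) [Ring R] (a : ZMod 2) : R := if a = 0 then 1 else -1

theorem sg_add {R : Type} [Ring R] (a b : ZMod 2) : sg R (a + b) = sg R a * sg R b := by
  have key : ∀ a : ZMod 2, a = 0 ∨ a = 1 := by decide
  have h11 : (1 : ZMod 2) + 1 = 0 := by decide
  have h10 : (1 : ZMod 2) ≠ 0 := by decide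
  rcases key a with rfl | rfl <;> rcases key b with rfl | rfl <;> simp [sg, h11, h10]

theorem sg_zero {R : Type} [Ring R] : sg R 0 = 1 := by simp [sg]

theorem sg_sum {R ι : Type} [CommRing R] (s : Finset ι) (a : ι → ZMod 2) :
    sg R (∑ i ∈ s, a i) = ∏ i ∈ s, sg R (a i) := by
  classical
  induction s using Finset.induction_on with
  | empty => simp [sg]
  | insert i s hi ih => rw [Finset.sum_insert hi, Finset.prod_insert hi, sg_add, ih]

theorem sg_eq_one {R : Type} [Ring R] [CharZero R] [Nontrivial R] (a : ZMod 2) :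
    sg R a = 1 ↔ a = 0 := by
  unfold sg
  split_ifs with h
  · simp [h]
  · constructor
    · intro h1
      exfalso
      have h2 : (2 : R) = 0 := by
        calc (2 : R) = 1 + 1 := by norm_num
          _ = -1 + 1 := by rw [h1]
          _ = 0 := by simp
      exact two_ne_zero h2
    · intro h1
      exact absurd h1 h

theorem sg_inj {R : Type} [Ring R] [CharZero R] [Nontrivial R] (a b : ZMod 2)
    (h : sg R a = sg R b) : a = b := by
  have h1 : sg R (a + b) = 1 := by
    rw [sg_add, h, ← sg_add]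
    have : b + b = 0 := by
      have key : ∀ b : ZMod 2, b + b = 0 := by decide
      exact key b
    rw [this, sg_zero]
  rw [sg_eq_one] at h1
  have key : ∀ a b : ZMod 2, a + b = 0 → a = b := by decide
  exact key a b h1

theorem map_Aprod {R R' : Type} [CommRing R] [CommRing R'] (f : R →+* R')
    (W : Submodule (ZMod 2) (P → ZMod 2)) (β : (P → ZMod 2) → R) (x : P) :
    f (Aprod W β x) = Aprod W (fun u => f (β u)) x := by
  unfold Aprod
  rw [map_prod]
  refine Finset.prod_congr rfl fun u _ => ?_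
  split_ifs <;> simp

theorem Aprod_sq {R : Type} [CommMonoid R]
    (W : Submodule (ZMod 2) (P → ZMod 2)) (β : (P → ZMod 2) → R) (x : P) :
    Aprod W β x ^ 2 = Aprod W (fun u => β u ^ 2) x := by
  unfold Aprod
  rw [← Finset.prod_pow]
  refine Finset.prod_congr rfl fun u _ => ?_
  split_ifs <;> simp

theorem Aprod_congr {R : Type} [CommMonoid R]
    (W : Submodule (ZMod 2) (P → ZMod 2)) (β β' : (P → ZMod 2) → R) (x : P)
    (h : ∀ u ∈ W, β u = β' u) : Aprod W β x = Aprod W β' x := by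
  unfold Aprod
  refine Finset.prod_congr rfl fun u _ => ?_
  split_ifs with h1
  · exact h u h1.1
  · rfl

theorem Aprod_mul {R : Type} [CommMonoid R]
    (W : Submodule (ZMod 2) (P → ZMod 2)) (β β' : (P → ZMod 2) → R) (x : P) :
    Aprod W (fun u => β u * β' u) x = Aprod W β x * Aprod W β' x := by
  unfold Aprod
  rw [← Finset.prod_mul_distrib]
  refine Finset.prod_congr rfl fun u _ => ?_
  split_ifs <;> simp

theorem Aprod_ne {R : Type} [CommRing R] [IsDomain R]
    (W : Submodule (ZMod 2) (P → ZMod 2)) (β : (P → ZMod 2) → R) (x : P)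
    (h : ∀ u ∈ W, β u ≠ 0) : Aprod W β x ≠ 0 := by
  unfold Aprod
  rw [Finset.prod_ne_zero_iff]
  intro u _
  split_ifs with h1
  · exact h u h1.1
  · exact one_ne_zero

omit [Fintype P] in
theorem trn_trn (h g : Equiv.Perm P) (w : P → ZMod 2) : trn h (trn g w) = trn (h * g) w := by
  funext x
  simp [trn, mul_inv_rev]

omit [Fintype P] in
theorem trn_one (w : P → ZMod 2) : trn (1 : Equiv.Perm P) w = w := by
  funext x
  simp [trn]

/-- translation as a bijection -/
def trnE (h : Equiv.Perm P) : (P → ZMod 2) ≃ (P → ZMod 2) where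
  toFun w := trn h w
  invFun w := trn h⁻¹ w
  left_inv w := by
    show trn h⁻¹ (trn h w) = w
    rw [trn_trn, inv_mul_cancel, trn_one]
  right_inv w := by
    show trn h (trn h⁻¹ w) = w
    rw [trn_trn, mul_inv_cancel, trn_one]

theorem Aprod_trn {R : Type} [CommMonoid R]
    (W : Submodule (ZMod 2) (P → ZMod 2)) (β : (P → ZMod 2) → R) (h : Equiv.Perm P)
    (hW : ∀ w, trn h w ∈ W ↔ w ∈ W) (x : P) :
    Aprod W (fun u => β (trn h u)) x = Aprod W β (h x) := by
  classical
  unfold Aprod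
  refine Fintype.prod_equiv (trnE h) _ _ fun u => ?_
  have h1 : trn h u (h x) = u x := by
    rw [trn, inv_app]
  show _ = if trn h u ∈ W ∧ trn h u (h x) ≠ 0 then β (trn h u) else 1
  rw [h1, hW]

theorem Sprod_sq {R : Type} [CommMonoid R] (S : P → ZMod 2) (a : P → R) :
    Sprod S a ^ 2 = Sprod S (fun x => a x ^ 2) := by
  unfold Sprod
  rw [← Finset.prod_pow]
  refine Finset.prod_congr rfl fun u _ => ?_
  split_ifs <;> simp

theorem map_Sprod {R R' : Type} [CommRing R] [CommRing R'] (f : R →+* R')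
    (S : P → ZMod 2) (a : P → R) : f (Sprod S a) = Sprod S (fun x => f (a x)) := by
  unfold Sprod
  rw [map_prod]
  refine Finset.prod_congr rfl fun u _ => ?_
  split_ifs <;> simp

theorem Sprod_sg {R : Type} [CommRing R] (S f : P → ZMod 2) (a : P → R) :
    Sprod S (fun x => sg R (f x) * a x) = sg R (∑ x, S x * f x) * Sprod S a := by
  unfold Sprod
  rw [sg_sum, ← Finset.prod_mul_distrib]
  refine Finset.prod_congr rfl fun u _ => ?_
  have key : ∀ a : ZMod 2, a = 0 ∨ a = 1 := by decide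
  have h10 : (1 : ZMod 2) ≠ 0 := by decide
  rcases key (S u) with h | h
  · simp [h, sg_zero]
  · simp [h]

open Classical in
/-- the sum of the words with `ε = true` -/
noncomputable def wsum (W : Submodule (ZMod 2) (P → ZMod 2)) (ε : (P → ZMod 2) → Prop) :
    P → ZMod 2 :=
  ∑ v : P → ZMod 2, if v ∈ W ∧ ε v then v else 0

theorem wsum_mem (W : Submodule (ZMod 2) (P → ZMod 2)) (ε : (P → ZMod 2) → Prop) :
    wsum W ε ∈ W := by
  unfold wsum
  refine W.sum_mem fun v _ => ?_
  split_ifs with h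
  · exact h.1
  · exact W.zero_mem

open Classical in
theorem sg_wsum {R : Type} [CommRing R] (W : Submodule (ZMod 2) (P → ZMod 2))
    (ε : (P → ZMod 2) → Prop) (y : P) :
    sg R (wsum W ε y) = Aprod W (fun v => if ε v then (-1 : R) else 1) y := by
  unfold wsum Aprod
  rw [Finset.sum_apply, sg_sum]
  refine Finset.prod_congr rfl fun v _ => ?_
  by_cases h1 : v ∈ W
  · by_cases h2 : ε v
    · by_cases h3 : v y = 0
      · simp [h1, h2, h3, sg]
      · simp [h1, h2, h3, sg]
    · simp [h1, h2, sg]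
  · simp [h1, sg]

end prod

theorem zmod2 (a : ZMod 2) : a = 0 ∨ a = 1 := by
  have key : ∀ a : ZMod 2, a = 0 ∨ a = 1 := by decide
  exact key a

/-! ### the cocycle and the extension -/

section main

variable {P : Type} [Fintype P]

/-- the permutation `(x, b) ↦ (h x, b + f (h x))` -/
def cP (h : Equiv.Perm P) (f : P → ZMod 2) : Equiv.Perm (P × Bool) where
  toFun x := (h x.1, xor x.2 (decide (f (h x.1) ≠ 0)))
  invFun y := (h⁻¹ y.1, xor y.2 (decide (f y.1 ≠ 0)))
  left_inv x := by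
    have key : ∀ (b c : Bool), xor (xor b c) c = b := by decide
    simp only [inv_app, key]
  right_inv y := by
    have key : ∀ (b c : Bool), xor (xor b c) c = b := by decide
    simp only [app_inv, key]

omit [Fintype P] in
theorem cP_apply (h : Equiv.Perm P) (f : P → ZMod 2) (x : P × Bool) :
    cP h f x = (h x.1, xor x.2 (decide (f (h x.1) ≠ 0))) := rfl

theorem main : S_F := by
  intro K Ω _ _ _ _ _ N _ _ P _ ρ hρ ht W hW hW0 β hβ0 hβ hsq x₀ M hM s hs
  classical
  have i1 : IsAlgClosed Ω := IsAlgClosure.isAlgClosed K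
  have i2 : Normal K Ω := IsAlgClosure.normal K Ω
  have i3 : Algebra.IsAlgebraic K Ω := IsAlgClosure.isAlgebraic
  have i4 : Algebra.IsSeparable K Ω := inferInstance
  have i5 : IsGalois K Ω := ⟨⟩
  have i6 : CharZero Ω := charZero_of_injective_algebraMap (algebraMap K Ω).injective
  -- restriction
  obtain ⟨r, hr⟩ : ∃ r : (Ω ≃ₐ[K] Ω) →* (N ≃ₐ[K] N), ∀ σ (m : N), ((r σ m : N) : Ω) = σ m :=
    ⟨AlgEquiv.restrictNormalHom (F := K) (K₁ := Ω) N,
      fun σ m => AlgEquiv.restrictNormalHom_apply N σ m⟩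
  have hr1 : r = AlgEquiv.restrictNormalHom (F := K) (K₁ := Ω) N := by
    ext σ m
    rw [hr]
    exact (AlgEquiv.restrictNormalHom_apply N σ m).symm
  have hrs : Function.Surjective r := by
    rw [hr1]
    exact AlgEquiv.restrictNormalHom_surjective Ω
  have hrk : ∀ σ, σ ∈ N.fixingSubgroup ↔ r σ = 1 := by
    intro σ
    rw [← restrictNormalHom_ker N, MonoidHom.mem_ker, hr1]
  have hstab : ∀ (γ : N ≃ₐ[K] N) (w : P → ZMod 2), trn (ρ γ) w ∈ W ↔ w ∈ W := by
    intro γ w
    constructor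
    · intro h
      have h1 := hW (ρ γ⁻¹) ⟨_, rfl⟩ _ h
      rwa [trn_trn, ← map_mul, inv_mul_cancel, map_one, trn_one] at h1
    · exact hW (ρ γ) ⟨_, rfl⟩ w
  -- the elements `A x`
  have hA : ∀ (γ : N ≃ₐ[K] N) (x : P), γ (Aprod W β x) = Aprod W β (ρ γ x) := by
    intro γ x
    rw [← Aprod_trn W β (ρ γ) (hstab γ) x]
    have h1 := map_Aprod (γ : N →+* N) W β x
    refine h1.trans (Aprod_congr W _ _ x fun u hu => ?_)
    exact hβ γ u hu
  -- square roots
  have hex : ∀ u : P → ZMod 2, ∃ t : Ω, t ^ 2 = ((β u : N) : Ω) := fun u =>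
    IsAlgClosed.exists_pow_nat_eq _ two_pos
  choose R hR using hex
  obtain ⟨ρr, hρr⟩ : ∃ ρr : P → Ω, ∀ x, ρr x = Aprod W R x := ⟨_, fun x => rfl⟩
  have hR0 : ∀ u ∈ W, R u ≠ 0 := by
    intro u hu h
    have h1 := hR u
    rw [h] at h1
    have h2 : ((β u : N) : Ω) = 0 := by rw [← h1]; simp
    exact hβ0 u hu (Subtype.ext h2)
  have hr0 : ∀ x, ρr x ≠ 0 := fun x => by
    rw [hρr]
    exact Aprod_ne W R x hR0
  have hr2 : ∀ x, ρr x ^ 2 = ((Aprod W β x : N) : Ω) := by
    intro x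
    rw [hρr, Aprod_sq]
    have h1 := map_Aprod (algebraMap N Ω) W β x
    refine Eq.trans ?_ h1.symm
    exact Aprod_congr W _ _ x fun u hu => hR u
  have hcoc : ∀ σ : Ω ≃ₐ[K] Ω, ∃ f ∈ W, ∀ x, σ (ρr x) = sg Ω (f (ρ (r σ) x)) * ρr (ρ (r σ) x) := by
    intro σ
    refine ⟨wsum W (fun v => σ (R (trn (ρ (r σ))⁻¹ v)) ≠ R v), wsum_mem W _, fun x => ?_⟩
    rw [sg_wsum, hρr, hρr, ← Aprod_mul, ← Aprod_trn W _ (ρ (r σ)) (hstab (r σ)) x]
    have h1 := map_Aprod (σ : Ω →+* Ω) W R x
    refine h1.trans (Aprod_congr W _ _ x fun u hu => ?_)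
    have h2 : (σ (R u)) ^ 2 = (R (trn (ρ (r σ)) u)) ^ 2 := by
      rw [← map_pow, hR, hR, ← hβ _ u hu, hr]
    have h3 : trn (ρ (r σ))⁻¹ (trn (ρ (r σ)) u) = u := by
      rw [trn_trn, inv_mul_cancel, trn_one]
    show σ (R u) = _
    rw [h3]
    rcases sq_eq_sq_iff_eq_or_eq_neg.1 h2 with h4 | h4
    · rw [if_neg (not_not.2 h4), one_mul, h4]
    · by_cases h5 : σ (R u) = R (trn (ρ (r σ)) u)
      · rw [if_neg (not_not.2 h5), one_mul, h5]
      · rw [if_pos h5, h4]
        ring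
  choose f hfW hf using hcoc
  have huniq : ∀ (a b : ZMod 2) (x : P), sg Ω a * ρr x = sg Ω b * ρr x → a = b := by
    intro a b x h
    exact sg_inj a b (mul_right_cancel₀ (hr0 x) h)
  have hf1 : ∀ (σ τ : Ω ≃ₐ[K] Ω) (x : P),
      f (σ * τ) (ρ (r (σ * τ)) x) = f τ (ρ (r τ) x) + f σ (ρ (r σ) (ρ (r τ) x)) := by
    intro σ τ x
    have e1 : ρ (r (σ * τ)) x = ρ (r σ) (ρ (r τ) x) := by
      rw [map_mul, map_mul, Equiv.Perm.mul_apply]
    apply huniq _ _ (ρ (r (σ * τ)) x)
    rw [← hf, AlgEquiv.mul_apply, hf τ, map_mul, hf σ, e1, sg_add, ← mul_assoc]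
    congr 2
    unfold sg
    split_ifs <;> simp
  have hf0 : f 1 = 0 := by
    funext x
    have h1 := hf 1 x
    rw [map_one, map_one, Equiv.Perm.one_apply, AlgEquiv.one_apply] at h1
    have h2 : sg Ω (f 1 x) = 1 := by
      have h3 : sg Ω (f 1 x) * ρr x = 1 * ρr x := by rw [← h1, one_mul]
      exact mul_right_cancel₀ (hr0 x) h3
    exact (sg_eq_one _).1 h2
  -- the homomorphisms
  let θM : (Ω ≃ₐ[K] Ω) →* Equiv.Perm P := ρ.comp r
  have key : ∀ (b : Bool) (p q : ZMod 2),
      xor (xor b (decide (p ≠ 0))) (decide (q ≠ 0)) = xor b (decide (p + q ≠ 0)) := by decide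
  let θ : (Ω ≃ₐ[K] Ω) →* Equiv.Perm (P × Bool) :=
    { toFun := fun σ => cP (ρ (r σ)) (f σ)
      map_one' := by
        ext1 x
        rw [cP_apply, map_one, map_one, hf0]
        simp
      map_mul' := fun σ τ => by
        ext1 x
        rw [Equiv.Perm.mul_apply, cP_apply, cP_apply, cP_apply, hf1]
        simp only [key]
        rw [map_mul, map_mul, Equiv.Perm.mul_apply] }
  have hθ : ∀ σ x, θ σ x = (ρ (r σ) x.1, xor x.2 (decide (f σ (ρ (r σ) x.1) ≠ 0))) :=
    fun σ x => rfl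
  -- the field `M`
  have hMfix : ∀ σ, σ ∈ M.fixingSubgroup ↔ θM σ x₀ = x₀ := by
    intro σ
    have h1 : σ ∈ M.fixingSubgroup ↔ r σ ∈ (fixedField (stb ρ x₀)).fixingSubgroup := by
      rw [IntermediateField.mem_fixingSubgroup_iff, IntermediateField.mem_fixingSubgroup_iff, hM]
      constructor
      · intro h x hx
        apply Subtype.ext
        rw [hr]
        exact h _ ((IntermediateField.mem_lift x).2 hx)
      · rintro h _ ⟨x, hx, rfl⟩
        have h2 := congrArg (fun y : N => (y : Ω)) (h x hx)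
        change ((r σ x : N) : Ω) = (x : Ω) at h2
        rw [hr] at h2
        exact h2
    rw [h1, fixingSubgroup_fixedField]
    exact Iff.rfl
  have hMN : M ≤ N := by
    rw [hM]
    exact IntermediateField.lift_le _
  have hMfd : FiniteDimensional K M := by
    have h1 : FiniteDimensional K N := inferInstance
    exact FiniteDimensional.of_injective (IntermediateField.inclusion hMN).toLinearMap
      (IntermediateField.inclusion hMN).injective
  obtain ⟨gM, cM⟩ := galX_of_orbit M θM x₀ hMfix (fun x => by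
    obtain ⟨γ, hγ⟩ := ht x₀ x
    obtain ⟨σ, rfl⟩ := hrs γ
    exact ⟨σ, hγ⟩) ρ.range (fun π => by
    constructor
    · rintro ⟨γ, rfl⟩
      obtain ⟨σ, rfl⟩ := hrs γ
      exact ⟨σ, rfl⟩
    · rintro ⟨σ, rfl⟩
      exact ⟨r σ, rfl⟩)
  have hAM : ((Aprod W β x₀ : N) : Ω) ∈ M := by
    rw [hM, IntermediateField.mem_lift, mem_fixedField_iff]
    intro γ hγ
    have h1 : ρ γ x₀ = x₀ := hγ
    rw [hA, h1]
  -- surjectivity
  let T : Submodule (ZMod 2) (P → ZMod 2) :=
    { carrier := {w | ∃ τ, r τ = 1 ∧ f τ = w}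
      zero_mem' := ⟨1, map_one r, hf0⟩
      add_mem' := by
        rintro _ _ ⟨τ, h1, rfl⟩ ⟨τ', h1', rfl⟩
        refine ⟨τ * τ', by rw [map_mul, h1, h1', one_mul], ?_⟩
        funext x
        have h2 := hf1 τ τ' x
        rw [map_mul, h1, h1', one_mul, map_one] at h2
        simp only [Equiv.Perm.one_apply] at h2
        rw [h2, Pi.add_apply, add_comm]
      smul_mem' := by
        rintro a _ ⟨τ, h1, rfl⟩
        rcases zmod2 a with rfl | rfl
        · rw [zero_smul]
          exact ⟨1, map_one r, hf0⟩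
        · rw [one_smul]
          exact ⟨τ, h1, rfl⟩ }
  have hT : ∀ w ∈ W, ∃ τ, r τ = 1 ∧ f τ = w := by
    intro w hw
    by_contra hcon
    have hwT : w ∉ T := hcon
    obtain ⟨g, hg, hgT⟩ := Submodule.exists_le_ker_of_notMem hwT
    have hgs : ∀ v : P → ZMod 2, g v = ∑ x, g (fun j => if x = j then 1 else 0) * v x := by
      intro v
      rw [LinearMap.pi_apply_eq_sum_univ g v]
      refine Finset.sum_congr rfl fun x _ => ?_
      rw [smul_eq_mul, mul_comm]
    obtain ⟨S, hS⟩ : ∃ S : P → ZMod 2, ∀ x, S x = g (fun j => if x = j then 1 else 0) :=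
      ⟨_, fun x => rfl⟩
    have hgS : ∀ v : P → ZMod 2, g v = ∑ x, S x * v x := by
      intro v
      rw [hgs]
      exact Finset.sum_congr rfl fun x _ => by rw [hS]
    have hmem : Sprod S ρr ∈ N := by
      rw [← InfiniteGalois.fixedField_fixingSubgroup N, mem_fixedField_iff]
      intro τ hτ
      rw [hrk] at hτ
      have h1 := map_Sprod (τ : Ω →+* Ω) S ρr
      refine h1.trans ?_
      have h2 : (fun x => (τ : Ω →+* Ω) (ρr x)) = fun x => sg Ω (f τ x) * ρr x := by
        funext x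
        have h3 := hf τ x
        rw [hτ, map_one, Equiv.Perm.one_apply] at h3
        exact h3
      rw [h2, Sprod_sg, ← hgS]
      have h4 : g (f τ) = 0 := hgT ⟨τ, hτ, rfl⟩
      rw [h4, sg_zero, one_mul]
    have hsqr : IsSquare (Sprod S (Aprod W β)) := by
      refine ⟨⟨Sprod S ρr, hmem⟩, ?_⟩
      apply Subtype.ext
      have h1 := map_Sprod (algebraMap N Ω) S (Aprod W β)
      refine h1.trans ?_
      show _ = Sprod S ρr * Sprod S ρr
      rw [← sq, Sprod_sq]
      congr 1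
      funext x
      exact (hr2 x).symm
    exact hg ((hgS w).trans (hsq S hsqr w hw))
  have hrange : ∀ π, π ∈ CodeG ρ.range W hW ↔ ∃ σ, θ σ = π := by
    intro π
    constructor
    · rintro ⟨_, ⟨γ, rfl⟩, w, hw, hπ⟩
      obtain ⟨σ, rfl⟩ := hrs γ
      obtain ⟨τ, hτ1, hτ2⟩ := hT (w - f σ) (W.sub_mem hw (hfW σ))
      refine ⟨τ * σ, ?_⟩
      ext1 x
      rw [hπ, hθ, hf1]
      have e1 : ρ (r (τ * σ)) = ρ (r σ) := by rw [map_mul, hτ1, one_mul]
      have e2 : ρ (r τ) = 1 := by rw [hτ1, map_one]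
      rw [e1, e2, Equiv.Perm.one_apply, hτ2, Pi.sub_apply, add_sub_cancel]
    · rintro ⟨σ, rfl⟩
      exact ⟨ρ (r σ), ⟨_, rfl⟩, f σ, hfW σ, fun x => rfl⟩
  -- transitivity
  have hsurjW : ∀ x : P, ∃ w ∈ W, w x ≠ 0 := by
    obtain ⟨w, hw, hw0⟩ := (Submodule.ne_bot_iff W).1 hW0
    obtain ⟨y, hy⟩ : ∃ y, w y ≠ 0 := by
      by_contra hcon
      push Not at hcon
      exact hw0 (funext hcon)
    intro x
    obtain ⟨γ, hγ⟩ := ht y x
    refine ⟨trn (ρ γ) w, (hstab γ w).2 hw, ?_⟩
    rw [← hγ, trn, inv_app]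
    exact hy
  have htr : ∀ x : P × Bool, ∃ σ, θ σ (x₀, false) = x := by
    rintro ⟨x, b⟩
    obtain ⟨γ, hγ⟩ := ht x₀ x
    obtain ⟨w, hw, hwx⟩ := hsurjW x
    have hb : ∃ v ∈ W, decide (v x ≠ 0) = b := by
      cases b
      · exact ⟨0, W.zero_mem, by simp⟩
      · exact ⟨w, hw, by simp [hwx]⟩
    obtain ⟨v, hv, hvb⟩ := hb
    have hmem : cP (ρ γ) v ∈ CodeG ρ.range W hW := ⟨ρ γ, ⟨_, rfl⟩, v, hv, fun x => rfl⟩
    obtain ⟨σ, hσ⟩ := (hrange _).1 hmem
    refine ⟨σ, ?_⟩
    rw [hσ, cP_apply]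
    simp only [hγ, Bool.false_xor]
    rw [hvb]
  -- the field `L`
  have hsr : ∀ σ : Ω ≃ₐ[K] Ω, σ s = s ↔ σ (ρr x₀) = ρr x₀ := by
    intro σ
    have h1 : s ^ 2 = ρr x₀ ^ 2 := by rw [hs, hr2]
    rcases sq_eq_sq_iff_eq_or_eq_neg.1 h1 with h | h
    · rw [h]
    · rw [h, map_neg, neg_inj]
  have hLfix : ∀ σ, σ ∈ (M ⊔ IntermediateField.adjoin K {s}).fixingSubgroup ↔
      θ σ (x₀, false) = (x₀, false) := by
    intro σ
    rw [fixingSubgroup_sup, Subgroup.mem_inf, mem_fix_adjoin, hMfix, hsr, hf, hθ, Prod.ext_iff]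
    show ρ (r σ) x₀ = x₀ ∧ _ ↔ ρ (r σ) x₀ = x₀ ∧ _
    refine and_congr_right fun h => ?_
    simp only [h, Bool.false_xor]
    rw [decide_eq_false_iff_not, not_not]
    constructor
    · intro h1
      have h3 : sg Ω (f σ x₀) * ρr x₀ = 1 * ρr x₀ := by rw [h1, one_mul]
      exact (sg_eq_one _).1 (mul_right_cancel₀ (hr0 x₀) h3)
    · intro h1
      rw [h1, sg_zero, one_mul]
  have hsfd : FiniteDimensional K (IntermediateField.adjoin K {s}) :=
    IntermediateField.adjoin.finiteDimensional (Algebra.IsAlgebraic.isAlgebraic s).isIntegral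
  have hLfd : FiniteDimensional K (M ⊔ IntermediateField.adjoin K {s} : IntermediateField K Ω) :=
    inferInstance
  obtain ⟨gL, cL⟩ := galX_of_orbit (M ⊔ IntermediateField.adjoin K {s}) θ (x₀, false) hLfix htr
    (CodeG ρ.range W hW) hrange
  have hdeg : Module.finrank K (M ⊔ IntermediateField.adjoin K {s} : IntermediateField K Ω) =
      2 * Module.finrank K M := by
    rw [cL, cM, Nat.card_prod, mul_comm]
    simp
  refine ⟨gM, hAM, ?_, gL, hdeg⟩
  intro hsM
  have h1 : M ⊔ IntermediateField.adjoin K {s} = M := by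
    rw [sup_eq_left, IntermediateField.adjoin_simple_le_iff]
    exact hsM
  rw [h1] at hdeg
  have h2 : 0 < Module.finrank K M := Module.finrank_pos
  omega

end main

end Pool.Agent.NH85.CE.FF

namespace Pool.Agent.NH85.CE

/-- an equivariant family gives an extension with group `W ⋊ H` -/
theorem s_F : S_F := FF.main

end Pool.Agent.NH85.CE
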