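import Pool.Agent.NH85.CE.Defs
import Pool.Agent.TH9.J3098
import Pool.Agent.TH857.J3095

/-!
# An auxiliary equivariant family
-/

set_option autoImplicit false

open NumberField Filter Topology IntermediateField

namespace Pool.Agent.NH85.CE

open Pool.Agent.TH9.J3098 (v v_prod v_zero)

namespace GG

section gal

variable {K N : Type} [Field K] [NumberField K] [Field N] [NumberField N] [Algebra K N]

/-- the action on the integers -/
noncomputable abbrev g (σ : N ≃ₐ[K] N) : 𝓞 N ≃ₐ[𝓞 K] 𝓞 N := galRestrict (𝓞 K) K N (𝓞 N) σ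

theorem g_mul (σ τ : N ≃ₐ[K] N) (x : 𝓞 N) : g (σ * τ) x = g σ (g τ x) := by
  unfold g
  rw [map_mul, AlgEquiv.mul_apply]

theorem comap_one (Q : Ideal (𝓞 N)) : Q.comap (g (1 : N ≃ₐ[K] N)) = Q := by
  ext x
  rw [Ideal.mem_comap]
  unfold g
  rw [map_one, AlgEquiv.one_apply]

theorem under_comap (σ : N ≃ₐ[K] N) (Q : Ideal (𝓞 N)) :
    (Q.comap (g σ)).under (𝓞 K) = Q.under (𝓞 K) := by
  ext x
  simp only [Ideal.under_def, Ideal.mem_comap]
  rw [AlgEquiv.commutes]

theorem mem_comap {σ : N ≃ₐ[K] N} {p : Ideal (𝓞 K)} {Q : Ideal (𝓞 N)}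
    (hQ : Q ∈ p.primesOver (𝓞 N)) : Q.comap (g σ) ∈ p.primesOver (𝓞 N) := by
  have hQ1 : Q.IsPrime := hQ.1
  have hQ2 : Q.LiesOver p := hQ.2
  refine ⟨Ideal.comap_isPrime _ _, ⟨?_⟩⟩
  rw [under_comap]
  exact hQ2.over

theorem free [IsGalois K N] {p : Ideal (𝓞 K)}
    (hp : Set.ncard (p.primesOver (𝓞 N)) = Module.finrank K N) {Q : Ideal (𝓞 N)}
    (hQ : Q ∈ p.primesOver (𝓞 N)) {σ : N ≃ₐ[K] N} (h : Q.comap (g σ) = Q) : σ = 1 := by
  let Φ : (N ≃ₐ[K] N) → p.primesOver (𝓞 N) := fun σ => ⟨Q.comap (g σ), mem_comap hQ⟩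
  have hsurj : Function.Surjective Φ := by
    rintro ⟨Q', hQ'⟩
    obtain ⟨σ, hσ⟩ := Ideal.exists_comap_galRestrict_eq (𝓞 K) K N (𝓞 N) hQ hQ'
    exact ⟨σ, Subtype.ext hσ⟩
  have hb : Function.Bijective Φ := by
    refine hsurj.bijective_of_nat_card_le ?_
    rw [Nat.card_coe_set_eq, hp, IsGalois.card_aut_eq_finrank]
  apply hb.1
  apply Subtype.ext
  change Q.comap (g σ) = Q.comap (g 1)
  rw [h, comap_one]

end gal

theorem exists_elt {R : Type} [CommRing R] [IsDedekindDomain R] (s : Finset (Ideal R))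
    (hs : ∀ Q ∈ s, Q.IsPrime ∧ Q ≠ ⊥) {Q₀ : Ideal R} (h0 : Q₀ ∈ s) :
    ∃ a : R, a ∈ Q₀ ∧ a ∉ Q₀ ^ 2 ∧ ∀ Q ∈ s, Q ≠ Q₀ → a ∉ Q := by
  classical
  obtain ⟨y, hy1, hy2⟩ := Ideal.exists_mem_pow_notMem_pow_succ Q₀ (hs Q₀ h0).2 (hs Q₀ h0).1.ne_top 1
  obtain ⟨a, ha⟩ := IsDedekindDomain.exists_forall_sub_mem_ideal (s := s) (fun Q => Q) (fun _ => 2)
    (fun Q hQ => Ideal.prime_of_isPrime (hs Q hQ).2 (hs Q hQ).1) (fun _ _ _ _ h => h)
    (fun Q => if Q.1 = Q₀ then y else 1)
  rw [pow_one] at hy1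
  refine ⟨a, ?_, ?_, ?_⟩
  · have h1 := ha Q₀ h0
    rw [if_pos rfl] at h1
    have h2 := Ideal.pow_le_self two_ne_zero h1
    have h3 := Q₀.add_mem h2 hy1
    rwa [sub_add_cancel] at h3
  · intro h
    have h1 := ha Q₀ h0
    rw [if_pos rfl] at h1
    apply hy2
    have h3 := (Q₀ ^ 2).sub_mem h h1
    rwa [sub_sub_cancel] at h3
  · intro Q hQ hne h
    have h1 := ha Q hQ
    rw [if_neg hne] at h1
    have h2 := Ideal.pow_le_self two_ne_zero h1
    have h3 := Q.sub_mem h h2
    rw [sub_sub_cancel] at h3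
    exact (hs Q hQ).1.ne_top ((Ideal.eq_top_iff_one Q).2 h3)

theorem exists_primes (K N : Type) [Field K] [NumberField K] [Field N] [NumberField N]
    [Algebra K N] [IsGalois K N] (ι : Type) [Finite ι] (T : Finset (Ideal (𝓞 K)))
    (hSS : ¬ Summable (fun p : {p : Ideal (𝓞 K) // p.IsPrime ∧ p ≠ ⊥ ∧
      Set.ncard (p.primesOver (𝓞 N)) = Module.finrank K N} => (1 : ℝ) / Ideal.absNorm p.1)) :
    ∃ p : ι → Ideal (𝓞 K), Function.Injective p ∧ ∀ i, (p i).IsPrime ∧ p i ≠ ⊥ ∧
      Set.ncard ((p i).primesOver (𝓞 N)) = Module.finrank K N ∧ p i ∉ T := by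
  classical
  set A : Set (Ideal (𝓞 K)) := {p | p.IsPrime ∧ p ≠ ⊥ ∧
    Set.ncard (p.primesOver (𝓞 N)) = Module.finrank K N} with hA
  have hinf : A.Infinite := by
    intro hf
    apply hSS
    have : Finite {p : Ideal (𝓞 K) // p.IsPrime ∧ p ≠ ⊥ ∧
      Set.ncard (p.primesOver (𝓞 N)) = Module.finrank K N} := hf.to_subtype
    exact summable_of_hasFiniteSupport (Set.toFinite _)
  have hinf2 : (A \ (T : Set (Ideal (𝓞 K)))).Infinite := hinf.sdiff T.finite_toSet
  have : Infinite ↥(A \ (T : Set (Ideal (𝓞 K)))) := hinf2.to_subtype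
  let e := Infinite.natEmbedding ↥(A \ (T : Set (Ideal (𝓞 K))))
  obtain ⟨n, ⟨f⟩⟩ := Finite.exists_equiv_fin ι
  refine ⟨fun i => (e (f i).val : ↥(A \ (T : Set (Ideal (𝓞 K))))).1, ?_, fun i => ?_⟩
  · intro i j h
    have h1 := e.injective (Subtype.ext h)
    exact f.injective (Fin.ext h1)
  · have h1 := (e (f i).val : ↥(A \ (T : Set (Ideal (𝓞 K))))).2
    exact ⟨h1.1.1, h1.1.2.1, h1.1.2.2, fun h => h1.2 (Finset.mem_coe.2 h)⟩

theorem trn_mul {P : Type} (h h' : Equiv.Perm P) (w : P → ZMod 2) :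
    trn (h * h') w = trn h (trn h' w) := by
  funext x
  simp only [trn, mul_inv_rev, Equiv.Perm.mul_apply]

theorem trn_one {P : Type} (w : P → ZMod 2) : trn (1 : Equiv.Perm P) w = w := by
  funext x
  simp [trn]

theorem trn_inj {P : Type} (h : Equiv.Perm P) {w w' : P → ZMod 2} (e : trn h w = trn h w') :
    w = w' := by
  have := congrArg (trn h⁻¹) e
  rwa [← trn_mul, ← trn_mul, inv_mul_cancel, trn_one, trn_one] at this

end GG

open GG in
/-- **An auxiliary equivariant family.** -/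
theorem s_G_of (hSS : ∀ (K M : Type) [Field K] [NumberField K] [Field M] [NumberField M]
      [Algebra K M] [IsGalois K M],
    ¬ Summable (fun p : {p : Ideal (𝓞 K) // p.IsPrime ∧ p ≠ ⊥ ∧
      Set.ncard (p.primesOver (𝓞 M)) = Module.finrank K M} => (1 : ℝ) / Ideal.absNorm p.1)) :
    S_G := by
  classical
  intro K N _ _ _ _ _ _ P _ ρ W _ T
  let _ : Fintype (N ≃ₐ[K] N) := Fintype.ofFinite _
  obtain ⟨p, hpinj, hp⟩ := exists_primes K N (P → ZMod 2) T (hSS K N)
  have hfr : 0 < Module.finrank K N := Module.finrank_pos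
  have hne : ∀ w, ((p w).primesOver (𝓞 N)).Nonempty := by
    intro w
    apply Set.nonempty_of_ncard_ne_zero
    rw [(hp w).2.2.1]
    exact hfr.ne'
  choose Q hQ using hne
  have hfin : ∀ w, ((p w).primesOver (𝓞 N)).Finite := by
    intro w
    apply Set.finite_of_ncard_ne_zero
    rw [(hp w).2.2.1]
    exact hfr.ne'
  have hunder : ∀ w Q', Q' ∈ (p w).primesOver (𝓞 N) → Q'.under (𝓞 K) = p w := by
    intro w Q' h
    have h2 : Q'.LiesOver (p w) := h.2
    exact h2.over.symm
  set s : Finset (Ideal (𝓞 N)) := Finset.univ.biUnion fun w => (hfin w).toFinset with hs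
  have hmem : ∀ Q', Q' ∈ s ↔ ∃ w, Q' ∈ (p w).primesOver (𝓞 N) := by
    intro Q'
    simp [hs]
  have hsp : ∀ Q' ∈ s, Q'.IsPrime ∧ Q' ≠ ⊥ := by
    intro Q' h
    obtain ⟨w, hw⟩ := (hmem Q').1 h
    refine ⟨hw.1, ?_⟩
    rintro rfl
    have h1 := hunder w _ hw
    apply (hp w).2.1
    rw [← h1, Ideal.under_def]
    exact Ideal.comap_bot_of_injective _ (FaithfulSMul.algebraMap_injective (𝓞 K) (𝓞 N))
  have hel : ∀ w, ∃ a : 𝓞 N, a ∈ Q w ∧ a ∉ Q w ^ 2 ∧ ∀ Q' ∈ s, Q' ≠ Q w → a ∉ Q' := fun w =>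
    exists_elt s hsp ((hmem _).2 ⟨w, hQ w⟩)
  choose a ha1 ha2 ha3 using hel
  have ha0 : ∀ w, a w ≠ 0 := fun w h => ha2 w (by rw [h]; exact Ideal.zero_mem _)
  set fac : (P → ZMod 2) → (P → ZMod 2) × (N ≃ₐ[K] N) → 𝓞 N := fun u x =>
    if trn (ρ x.2) x.1 = u then g x.2 (a x.1) else 1 with hfac
  set β : (P → ZMod 2) → 𝓞 N := fun u => ∏ x, fac u x with hβ
  have hfac0 : ∀ u x, fac u x ≠ 0 := by
    intro u x
    simp only [hfac]
    split_ifs
    · intro h
      apply ha0 x.1
      exact (g x.2).injective (by rw [h, map_zero])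
    · exact one_ne_zero
  refine ⟨β, Q, fun u _ => ?_, fun γ u _ => ?_, fun u _ => ⟨(hQ u).1, ?_, ?_, fun u' _ => ?_⟩⟩
  · exact Finset.prod_ne_zero_iff.2 fun x _ => hfac0 u x
  · have h1 : g γ (β u) = β (trn (ρ γ) u) := by
      simp only [hβ]
      rw [map_prod]
      have h2 : ∀ x : (P → ZMod 2) × (N ≃ₐ[K] N),
          g γ (fac u x) = fac (trn (ρ γ) u) (x.1, γ * x.2) := by
        intro x
        simp only [hfac]
        have h3 : trn (ρ (γ * x.2)) x.1 = trn (ρ γ) u ↔ trn (ρ x.2) x.1 = u := by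
          rw [map_mul, trn_mul]
          exact ⟨fun h => trn_inj _ h, fun h => by rw [h]⟩
        by_cases h : trn (ρ x.2) x.1 = u
        · rw [if_pos h, if_pos (h3.2 h), g_mul]
        · rw [if_neg h, if_neg fun h' => h (h3.1 h'), map_one]
      rw [Finset.prod_congr rfl fun x _ => h2 x]
      exact Equiv.prod_comp ((Equiv.refl (P → ZMod 2)).prodCongr (Equiv.mulLeft γ))
        (fac (trn (ρ γ) u))
    rw [← h1]
    exact (algebraMap_galRestrict_apply (𝓞 K) γ (β u)).symm
  · exact (hsp _ ((hmem _).2 ⟨u, hQ u⟩)).2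
  · rw [hunder u _ (hQ u)]
    exact (hp u).2.2.2
  · have hQp : (Q u).IsPrime := (hQ u).1
    have hval : v (Q u) (Ideal.span {β u'}) = if u = u' then 1 else 0 := by
      have h1 : Ideal.span {β u'} = ∏ x, Ideal.span {fac u' x} := by
        rw [Ideal.prod_span_singleton]
      rw [h1, v_prod (Q u) Finset.univ (fun x => Ideal.span {fac u' x}) fun x => by
        rw [Ne, Ideal.span_singleton_eq_bot]
        exact hfac0 u' x]
      rw [Finset.sum_eq_single (u, (1 : N ≃ₐ[K] N))]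
      · simp only [hfac]
        rw [map_one, trn_one]
        split_ifs with h
        · have e1 : g (1 : N ≃ₐ[K] N) (a u) = a u := by
            unfold g
            rw [map_one, AlgEquiv.one_apply]
          rw [e1]
          unfold Pool.Agent.TH9.J3098.v
          convert Ideal.count_normalizedFactors_eq (p := Q u) (x := Ideal.span {a u}) (n := 1) ?_ ?_
          · rw [pow_one, Ideal.span_singleton_le_iff_mem]
            exact ha1 u
          · rw [Ideal.span_singleton_le_iff_mem]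
            exact ha2 u
        · apply v_zero
          · rw [Ne, Ideal.span_singleton_eq_bot]
            exact one_ne_zero
          · rw [Ideal.span_singleton_le_iff_mem]
            exact fun h => hQp.ne_top ((Ideal.eq_top_iff_one _).2 h)
      · rintro ⟨w, γ⟩ - hne
        apply v_zero
        · rw [Ne, Ideal.span_singleton_eq_bot]
          exact hfac0 _ _
        · rw [Ideal.span_singleton_le_iff_mem]
          simp only [hfac]
          split_ifs with h
          · intro h2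
            have h3 : a w ∈ (Q u).comap (g γ) := Ideal.mem_comap.2 h2
            have h4 : (Q u).comap (g γ) ∈ (p u).primesOver (𝓞 N) := mem_comap (hQ u)
            have h5 : (Q u).comap (g γ) = Q w := by
              by_contra hcon
              exact ha3 w _ ((hmem _).2 ⟨u, h4⟩) hcon h3
            have h6 : u = w := by
              apply hpinj
              rw [← hunder u _ h4, h5, hunder w _ (hQ w)]
            subst h6
            have h7 := free (hp u).2.2.1 (hQ u) h5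
            exact hne (by rw [h7])
          · exact fun h => hQp.ne_top ((Ideal.eq_top_iff_one _).2 h)
      · intro h
        exact absurd (Finset.mem_univ _) h
    rw [hval]
    by_cases h : u = u'
    · rw [if_pos h]
      exact ⟨fun _ => h.symm, fun _ => odd_one⟩
    · rw [if_neg h]
      constructor
      · intro h1
        exact absurd h1 (by decide)
      · intro h1
        exact absurd h1.symm h

/-- **An auxiliary equivariant family and primes which detect its members.** -/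
theorem s_G : S_G := s_G_of fun K M _ _ _ _ _ _ => Pool.Agent.TH857.J3095.splitSum K M

end Pool.Agent.NH85.CE
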