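import Pool.Agent.NH85.CE.Defs
import Pool.Agent.NH85.ML.SqBad
import Pool.Agent.TH9.J3098

/-!
# The family determines the good ideal (helper60, job of helper85, MP_af4c59_nt)
-/

set_option autoImplicit false

open NumberField

namespace Pool.Agent.NH85.CE.CI

open scoped Pointwise

variable {K N : Type} [Field K] [NumberField K] [Field N] [NumberField N] [Algebra K N]
  [IsGalois K N]

/-- the decomposition group is contained in the stabilizer -/
theorem dec_le (S : Subgroup (N ≃ₐ[K] N)) (PP : Ideal (𝓞 N)) [hPP : PP.IsPrime]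
    (hp : PP.under (𝓞 K) ≠ ⊥) (hram : Ideal.ramificationIdx' (PP.under (𝓞 K)) PP = 1)
    (hq : Ideal.absNorm (PP.under (𝓞 (IntermediateField.fixedField S : IntermediateField K N))) =
      Ideal.absNorm (PP.under (𝓞 K))) (σ : N ≃ₐ[K] N) (hσ : σ • PP = PP) : σ ∈ S := by
  classical
  obtain ⟨F, hF⟩ : ∃ F : IntermediateField K N, F = IntermediateField.fixedField S := ⟨_, rfl⟩
  rw [← hF] at hq
  have hSF : IsGaloisGroup S F N := by
    rw [hF]
    exact IsGaloisGroup.subgroup (N ≃ₐ[K] N) K N S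
  have hSF' : IsGaloisGroup S (𝓞 F) (𝓞 N) := .of_isFractionRing S (𝓞 F) (𝓞 N) F N
  obtain ⟨p, hpd⟩ : ∃ p, p = PP.under (𝓞 K) := ⟨_, rfl⟩
  obtain ⟨q, hqd⟩ : ∃ q, q = PP.under (𝓞 F) := ⟨_, rfl⟩
  have hPPp : PP.LiesOver p := ⟨hpd⟩
  have hPPq : PP.LiesOver q := ⟨hqd⟩
  have hqp : q.LiesOver p := Ideal.LiesOver.tower_bot PP q p
  have hqP : q.IsPrime := Ideal.isPrime_of_liesOver PP q
  have hpP : p.IsPrime := Ideal.isPrime_of_liesOver PP p
  rw [← hpd] at hp hram hq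
  rw [← hqd] at hq
  have hpM : p.IsMaximal := hpP.isMaximal hp
  have hfin : Finite (𝓞 K ⧸ p) := Ring.HasFiniteQuotients.finiteQuotient hp
  have hq0 : q ≠ ⊥ := Ideal.ne_bot_of_liesOver_of_ne_bot hp q
  have hqM : q.IsMaximal := hqP.isMaximal hq0
  have hfinq : Finite (𝓞 F ⧸ q) := Ring.HasFiniteQuotients.finiteQuotient hq0
  have h1 := Ideal.card_stabilizer_eq_card_inertia_mul_finrank (G := N ≃ₐ[K] N) p PP
  have h2 := Ideal.card_stabilizer_eq_card_inertia_mul_finrank (G := S) q PP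
  have h3 : Nat.card (PP.inertia (N ≃ₐ[K] N)) = 1 := by
    rw [Ideal.card_inertia_eq_ramificationIdxIn p PP,
      Ideal.ramificationIdxIn_eq_ramificationIdx p PP (N ≃ₐ[K] N),
      ← Ideal.ramificationIdx'_eq_ramificationIdx p PP hp, hram]
  have h4 : q.inertiaDeg (𝓞 K) = 1 := by
    have h5 := Ideal.absNorm_pow_inertiaDeg (R := 𝓞 K) p q
    rw [hq] at h5
    have h6 : 1 < p.absNorm := by
      have h7 : p.absNorm ≠ 0 := by
        rw [Ne, Ideal.absNorm_eq_zero_iff]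
        exact hp
      have h8 : p.absNorm ≠ 1 := by
        rw [Ne, Ideal.absNorm_eq_one_iff]
        exact hpP.ne_top
      omega
    exact Nat.pow_right_injective h6 (by simpa using h5)
  have h5 := Ideal.inertiaDeg_tower (R := 𝓞 K) q PP
  rw [h4, one_mul] at h5
  rw [h3, one_mul, h5] at h1
  have h6 : 0 < Nat.card (PP.inertia S) := Nat.card_pos
  let f : MulAction.stabilizer S PP → MulAction.stabilizer (N ≃ₐ[K] N) PP := fun s =>
    ⟨((s : S) : N ≃ₐ[K] N), s.2⟩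
  have hf : Function.Injective f := by
    intro s t hst
    have h7 : ((f s : MulAction.stabilizer (N ≃ₐ[K] N) PP) : N ≃ₐ[K] N) =
        ((f t : MulAction.stabilizer (N ≃ₐ[K] N) PP) : N ≃ₐ[K] N) := by rw [hst]
    exact Subtype.ext (Subtype.ext h7)
  have hle : Nat.card (MulAction.stabilizer (N ≃ₐ[K] N) PP) ≤ Nat.card (MulAction.stabilizer S PP) := by
    rw [h1]
    exact (Nat.le_mul_of_pos_left _ h6).trans_eq h2.symm
  have hbij := hf.bijective_of_nat_card_le hle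
  obtain ⟨s, hs⟩ := hbij.2 ⟨σ, hσ⟩
  have h8 : ((s : S) : N ≃ₐ[K] N) = σ := congrArg Subtype.val hs
  rw [← h8]
  exact (s : S).2

/-- primes over the same prime of the fixed field -/
theorem trans_F (S : Subgroup (N ≃ₐ[K] N)) (P Q : Ideal (𝓞 N)) [hP : P.IsPrime] [hQ : Q.IsPrime]
    (h : P.under (𝓞 (IntermediateField.fixedField S : IntermediateField K N)) =
      Q.under (𝓞 (IntermediateField.fixedField S : IntermediateField K N))) :
    ∃ s ∈ S, s • P = Q := by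
  obtain ⟨F, hF⟩ : ∃ F : IntermediateField K N, F = IntermediateField.fixedField S := ⟨_, rfl⟩
  rw [← hF] at h
  have hSF : IsGaloisGroup S F N := by
    rw [hF]
    exact IsGaloisGroup.subgroup (N ≃ₐ[K] N) K N S
  have hSF' : IsGaloisGroup S (𝓞 F) (𝓞 N) := .of_isFractionRing S (𝓞 F) (𝓞 N) F N
  have h1 : P.LiesOver (P.under (𝓞 F)) := ⟨rfl⟩
  have h2 : Q.LiesOver (P.under (𝓞 F)) := ⟨h⟩
  obtain ⟨s, hs⟩ := Ideal.exists_smul_eq_of_isGaloisGroup (P.under (𝓞 F)) P Q S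
  exact ⟨s, s.2, hs⟩

/-- elements of the stabilizer fix the prime below -/
theorem under_F (S : Subgroup (N ≃ₐ[K] N)) (P : Ideal (𝓞 N)) (s : N ≃ₐ[K] N) (hs : s ∈ S) :
    (s • P).under (𝓞 (IntermediateField.fixedField S : IntermediateField K N)) =
      P.under (𝓞 (IntermediateField.fixedField S : IntermediateField K N)) := by
  ext x
  rw [Ideal.under_def, Ideal.under_def, Ideal.mem_comap, Ideal.mem_comap,
    Ideal.mem_pointwise_smul_iff_inv_smul_mem]
  have h1 : s⁻¹ • (algebraMap (𝓞 (IntermediateField.fixedField S : IntermediateField K N)) (𝓞 N) x) =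
      algebraMap (𝓞 (IntermediateField.fixedField S : IntermediateField K N)) (𝓞 N) x := by
    apply RingOfIntegers.ext
    have h2 := (x : (IntermediateField.fixedField S : IntermediateField K N)).2 ⟨s⁻¹, S.inv_mem hs⟩
    exact h2
  rw [h1]

end Pool.Agent.NH85.CE.CI

namespace Pool.Agent.NH85.CE.CI

open scoped Pointwise
open Pool.Agent.NH85.ML.SB (om coe_om om_inj om_alg under_om om_mem om_mem' exists_over)
open Pool.Agent.TH9.J3098 (v v_mul v_prod v_sqf v_zero)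
open UniqueFactorizationMonoid

variable {K N : Type} [Field K] [NumberField K] [Field N] [NumberField N] [Algebra K N]

/-- the valuations of the conjugates of `b` -/
theorem val_b {F : Type} [Field F] [NumberField F] [Algebra K F] (φ : F →ₐ[K] N)
    (T : Finset (Ideal (𝓞 K))) {𝔡 𝔞 : Ideal (𝓞 F)} (b : 𝓞 F) (ha : 𝔞 ≠ ⊥)
    (haT : ∀ Q : Ideal (𝓞 F), Q.IsPrime → Q ∣ 𝔞 → Q.under (𝓞 K) ∈ T) (hd : Squarefree 𝔡)
    (hb : Ideal.span {b} = 𝔡 * 𝔞) (P : Ideal (𝓞 N)) [hP : P.IsPrime]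
    (hp : P.under (𝓞 K) ≠ ⊥) (hpT : P.under (𝓞 K) ∉ T)
    (hram : Ideal.ramificationIdx' (P.under (𝓞 K)) P = 1) [Decidable (P.comap (om φ) ∣ 𝔡)] :
    v P (Ideal.span {om φ b}) = if P.comap (om φ) ∣ 𝔡 then 1 else 0 := by
  have hd0 : 𝔡 ≠ ⊥ := hd.ne_zero
  have hmap0 : ∀ (I : Ideal (𝓞 F)), I ≠ ⊥ → I.map (om φ) ≠ ⊥ := by
    intro I hI h
    apply hI
    rwa [Ideal.map_eq_bot_iff_of_injective (om_inj φ)] at h
  have h1 : Ideal.span {om φ b} = 𝔡.map (om φ) * 𝔞.map (om φ) := by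
    rw [← Ideal.map_mul, ← hb, Ideal.map_span, Set.image_singleton]
  obtain ⟨q, hq⟩ : ∃ q, q = P.comap (om φ) := ⟨_, rfl⟩
  have hqP : q.IsPrime := hq ▸ Ideal.comap_isPrime _ _
  have hqu : q.under (𝓞 K) = P.under (𝓞 K) := by rw [hq, under_om]
  have h2 : v P (𝔞.map (om φ)) = 0 := by
    refine v_zero _ _ (hmap0 _ ha) fun h => hpT ?_
    rw [Ideal.map_le_iff_le_comap, ← hq] at h
    rw [← hqu]
    exact haT q hqP (Ideal.dvd_iff_le.mpr h)
  have hP0 : P ≠ ⊥ := by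
    rintro rfl
    apply hp
    exact Ideal.comap_bot_of_injective _ (FaithfulSMul.algebraMap_injective (𝓞 K) (𝓞 N))
  have hpN0 : (P.under (𝓞 K)).map (algebraMap (𝓞 K) (𝓞 N)) ≠ ⊥ := Ideal.map_ne_bot_of_ne_bot hp
  have hvp : v P ((P.under (𝓞 K)).map (algebraMap (𝓞 K) (𝓞 N))) = 1 := by
    unfold v
    rw [← hram, Ideal.IsDedekindDomain.ramificationIdx'_eq_normalizedFactors_count hpN0 hP hP0]
  have hq0 : q ≠ ⊥ := by
    rintro rfl
    apply hp
    rw [← hqu]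
    exact Ideal.comap_bot_of_injective _ (FaithfulSMul.algebraMap_injective (𝓞 K) (𝓞 F))
  have hvq : v P (q.map (om φ)) = 1 := by
    have h3 : q ∣ (P.under (𝓞 K)).map (algebraMap (𝓞 K) (𝓞 F)) := by
      rw [Ideal.dvd_iff_le, Ideal.map_le_iff_le_comap, ← hqu]
    obtain ⟨J, hJ⟩ := h3
    have h4 : (P.under (𝓞 K)).map (algebraMap (𝓞 K) (𝓞 N)) = q.map (om φ) * J.map (om φ) := by
      rw [← Ideal.map_mul, ← hJ, Ideal.map_map]
      congr 1
      ext x
      rw [RingHom.comp_apply, om_alg]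
    have h5 : J.map (om φ) ≠ ⊥ := by
      intro h
      apply hpN0
      rw [h4, h, Ideal.mul_bot]
    rw [h4, v_mul _ (hmap0 _ hq0) h5] at hvp
    have h6 : v P (q.map (om φ)) ≠ 0 := by
      unfold v
      rw [Multiset.count_ne_zero]
      refine (Ideal.mem_normalizedFactors_iff (hmap0 _ hq0)).mpr ⟨hP, ?_⟩
      rw [Ideal.map_le_iff_le_comap, ← hq]
    omega
  rw [h1, v_mul _ (hmap0 _ hd0) (hmap0 _ ha), h2, add_zero]
  by_cases hqd : P.comap (om φ) ∣ 𝔡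
  · rw [if_pos hqd]
    rw [← hq] at hqd
    obtain ⟨𝔢, h𝔢⟩ := hqd
    have he0 : 𝔢 ≠ ⊥ := by
      rintro rfl
      apply hd0
      rw [h𝔢, Ideal.mul_bot]
    rw [h𝔢, Ideal.map_mul, v_mul _ (hmap0 _ hq0) (hmap0 _ he0), hvq, v_zero _ _ (hmap0 _ he0)]
    intro h
    rw [Ideal.map_le_iff_le_comap, ← hq] at h
    obtain ⟨𝔣, h𝔣⟩ := Ideal.dvd_iff_le.mpr h
    have h7 : IsUnit q := hd q ⟨𝔣, by rw [h𝔢, h𝔣, mul_assoc]⟩
    rw [Ideal.isUnit_iff] at h7
    exact hqP.ne_top h7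
  · rw [if_neg hqd]
    refine v_zero _ _ (hmap0 _ hd0) fun h => hqd ?_
    rw [Ideal.map_le_iff_le_comap] at h
    exact Ideal.dvd_iff_le.mpr h

variable [IsGalois K N]

/-- the embeddings of the fixed field -/
noncomputable def ph (S : Subgroup (N ≃ₐ[K] N)) (γ : N ≃ₐ[K] N) :
    (IntermediateField.fixedField S : IntermediateField K N) →ₐ[K] N :=
  γ.toAlgHom.comp (IntermediateField.fixedField S : IntermediateField K N).val

theorem comap_ph (S : Subgroup (N ≃ₐ[K] N)) (γ : N ≃ₐ[K] N) (P : Ideal (𝓞 N)) :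
    P.comap (om (ph S γ)) =
      (γ⁻¹ • P).under (𝓞 (IntermediateField.fixedField S : IntermediateField K N)) := by
  ext x
  rw [Ideal.under_def, Ideal.mem_comap, Ideal.mem_comap,
    Ideal.mem_pointwise_smul_iff_inv_smul_mem, inv_inv]
  have h1 : om (ph S γ) x = γ • (algebraMap
      (𝓞 (IntermediateField.fixedField S : IntermediateField K N)) (𝓞 N) x) := by
    apply RingOfIntegers.ext
    rfl
  rw [h1]

theorem under_smul (γ : N ≃ₐ[K] N) (P : Ideal (𝓞 N)) :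
    (γ • P).under (𝓞 K) = P.under (𝓞 K) := by
  ext x
  rw [Ideal.under_def, Ideal.under_def, Ideal.mem_comap, Ideal.mem_comap,
    Ideal.mem_pointwise_smul_iff_inv_smul_mem]
  have h1 : γ⁻¹ • (algebraMap (𝓞 K) (𝓞 N) x) = algebraMap (𝓞 K) (𝓞 N) x := by
    apply RingOfIntegers.ext
    exact (γ⁻¹).commutes (x : K)
  rw [h1]

theorem under_under (F : IntermediateField K N) (P : Ideal (𝓞 N)) :
    (P.under (𝓞 F)).under (𝓞 K) = P.under (𝓞 K) := by
  rw [Ideal.under_under]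

/-- the primes which divide a good ideal -/
theorem good_iff (S : Subgroup (N ≃ₐ[K] N)) (T : Finset (Ideal (𝓞 K)))
    (hun : ∀ p : Ideal (𝓞 K), p.IsPrime → p ≠ ⊥ → p ∉ T → ∀ Q ∈ p.primesOver (𝓞 N),
      Ideal.ramificationIdx' p Q = 1)
    {𝔡 : Ideal (𝓞 (IntermediateField.fixedField S : IntermediateField K N))}
    (hd : 𝔡 ∈ Good K _ T) (P : Ideal (𝓞 N)) [hP : P.IsPrime] (hp : P.under (𝓞 K) ≠ ⊥)
    (h : N ≃ₐ[K] N)
    (hh : (h⁻¹ • P).under (𝓞 (IntermediateField.fixedField S : IntermediateField K N)) ∣ 𝔡)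
    (γ : N ≃ₐ[K] N) :
    (γ⁻¹ • P).under (𝓞 (IntermediateField.fixedField S : IntermediateField K N)) ∣ 𝔡 ↔
      h⁻¹ * γ ∈ S := by
  have hprime : ∀ γ : N ≃ₐ[K] N, (γ • P).IsPrime := fun γ => inferInstance
  have huP : ∀ γ : N ≃ₐ[K] N, ((γ • P).under
      (𝓞 (IntermediateField.fixedField S : IntermediateField K N))).IsPrime := fun γ =>
    Ideal.comap_isPrime _ _
  have huu : ∀ γ : N ≃ₐ[K] N, ((γ • P).under
      (𝓞 (IntermediateField.fixedField S : IntermediateField K N))).under (𝓞 K) =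
        P.under (𝓞 K) := by
    intro γ
    rw [under_under, under_smul]
  constructor
  · intro hγ
    obtain ⟨h1, h2, h3⟩ := hd.2 _ (huP h⁻¹) hh
    have h4 := h3 _ (huP γ⁻¹) hγ (by rw [huu, huu])
    obtain ⟨s, hs, hs'⟩ := trans_F S (γ⁻¹ • P) (h⁻¹ • P) h4
    have h5 : (h⁻¹ * γ * s⁻¹) • (h⁻¹ • P) = h⁻¹ • P := by
      have h6 : h⁻¹ * γ * s⁻¹ * s * γ⁻¹ = h⁻¹ := by group
      conv_lhs => rw [← hs', smul_smul, smul_smul, h6]
    have h7 := dec_le S (h⁻¹ • P) (by rw [under_smul]; exact hp) ?_ ?_ _ h5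
    · have h8 := S.mul_mem h7 hs
      rwa [inv_mul_cancel_right] at h8
    · rw [under_smul]
      refine hun _ (Ideal.comap_isPrime _ _) hp ?_ _ ⟨inferInstance, ⟨?_⟩⟩
      · rwa [huu] at h2
      · rw [under_smul]
    · rw [h1, under_under]
  · intro hγ
    have h1 : γ⁻¹ • P = (h⁻¹ * γ)⁻¹ • (h⁻¹ • P) := by
      rw [smul_smul]
      congr 1
      group
    rw [h1, under_F S _ _ (S.inv_mem hγ)]
    exact hh

end Pool.Agent.NH85.CE.CI

namespace Pool.Agent.NH85.CE.CI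

open scoped Pointwise
open Pool.Agent.NH85.ML.SB (om coe_om om_inj om_alg under_om om_mem om_mem' exists_over)
open Pool.Agent.TH9.J3098 (v v_mul v_prod v_sqf v_zero)
open UniqueFactorizationMonoid

theorem trn_mul {P : Type} (a b : Equiv.Perm P) (w : P → ZMod 2) :
    trn (a * b) w = trn a (trn b w) := by
  funext x
  simp only [trn, mul_inv_rev, Equiv.Perm.mul_apply]

variable {K N : Type} [Field K] [NumberField K] [Field N] [NumberField N] [Algebra K N]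
  [IsGalois K N] {X : Type} [Fintype X] (ρ : (N ≃ₐ[K] N) →* Equiv.Perm X)

theorem trn_iff (w : X → ZMod 2) (h γ : N ≃ₐ[K] N) :
    h⁻¹ * γ ∈ stbW ρ w ↔ trn (ρ γ) w = trn (ρ h) w := by
  have h1 : γ = h * (h⁻¹ * γ) := by group
  constructor
  · intro h2
    have h3 : trn (ρ (h⁻¹ * γ)) w = w := h2
    rw [h1, map_mul, trn_mul, h3]
  · intro h2
    show trn (ρ (h⁻¹ * γ)) w = w
    rw [map_mul, trn_mul, h2, ← trn_mul, ← map_mul, inv_mul_cancel, map_one]
    rfl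

open Classical in
/-- the factor of the word `u` -/
noncomputable def fac (W : Submodule (ZMod 2) (X → ZMod 2)) (w : X → ZMod 2)
    (b : 𝓞 (IntermediateField.fixedField (stbW ρ w) : IntermediateField K N)) (x : X)
    (u : X → ZMod 2) : 𝓞 N :=
  if u ∈ W ∧ u x ≠ 0 then
    (if h : ∃ γ : N ≃ₐ[K] N, trn (ρ γ) w = u then om (ph (stbW ρ w) h.choose) b else 1) else 1

open Classical in
/-- the product of the conjugates as an integer -/
noncomputable def Ai (W : Submodule (ZMod 2) (X → ZMod 2)) (w : X → ZMod 2)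
    (b : 𝓞 (IntermediateField.fixedField (stbW ρ w) : IntermediateField K N)) (x : X) : 𝓞 N :=
  ∏ u : X → ZMod 2, fac ρ W w b x u

theorem coe_Ai (W : Submodule (ZMod 2) (X → ZMod 2)) (w : X → ZMod 2)
    (b : 𝓞 (IntermediateField.fixedField (stbW ρ w) : IntermediateField K N)) (x : X) :
    ((Ai ρ W w b x : 𝓞 N) : N) = Aprod W (vf ρ w ((b : (IntermediateField.fixedField (stbW ρ w) :
        IntermediateField K N)) : N)) x := by
  classical
  unfold Ai Aprod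
  change algebraMap (𝓞 N) N _ = _
  rw [map_prod]
  refine Finset.prod_congr rfl fun u _ => ?_
  unfold fac vf
  by_cases h1 : u ∈ W ∧ u x ≠ 0
  · rw [if_pos h1, if_pos h1]
    by_cases h2 : ∃ γ : N ≃ₐ[K] N, trn (ρ γ) w = u
    · rw [dif_pos h2, dif_pos h2]
      rfl
    · rw [dif_neg h2, dif_neg h2, map_one]
  · rw [if_neg h1, if_neg h1, map_one]

theorem v_one (P : Ideal (𝓞 N)) : v P (Ideal.span {(1 : 𝓞 N)}) = 0 := by
  unfold v
  rw [Ideal.span_singleton_one, ← Ideal.one_eq_top, normalizedFactors_one, Multiset.count_zero]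

variable (W : Submodule (ZMod 2) (X → ZMod 2)) (w : X → ZMod 2) (hW : Stable ρ.range W)
  (hw : w ∈ W) (T : Finset (Ideal (𝓞 K)))
  (hun : ∀ p : Ideal (𝓞 K), p.IsPrime → p ≠ ⊥ → p ∉ T → ∀ Q ∈ p.primesOver (𝓞 N),
      Ideal.ramificationIdx' p Q = 1)
  (𝔞 : Ideal (𝓞 (IntermediateField.fixedField (stbW ρ w) : IntermediateField K N))) (ha : 𝔞 ≠ ⊥)
  (haT : ∀ Q : Ideal (𝓞 (IntermediateField.fixedField (stbW ρ w) : IntermediateField K N)),
    Q.IsPrime → Q ∣ 𝔞 → Q.under (𝓞 K) ∈ T)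

include ha in
theorem fac_ne (𝔡 : Ideal (𝓞 (IntermediateField.fixedField (stbW ρ w) : IntermediateField K N)))
    (b : 𝓞 (IntermediateField.fixedField (stbW ρ w) : IntermediateField K N))
    (hd : 𝔡 ∈ Good K _ T) (hb : Ideal.span {b} = 𝔡 * 𝔞) (x : X) (u : X → ZMod 2) :
    fac ρ W w b x u ≠ 0 := by
  classical
  have hd0 : 𝔡 ≠ ⊥ := hd.1.ne_zero
  have hb0 : b ≠ 0 := by
    rintro rfl
    have h1 : 𝔡 * 𝔞 ≠ 0 := mul_ne_zero hd0 ha
    rw [← hb] at h1
    exact h1 (by simp)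
  unfold fac
  split_ifs with h1 h2
  · intro h3
    apply hb0
    apply om_inj (ph (stbW ρ w) h2.choose)
    rw [h3, map_zero]
  · exact one_ne_zero
  · exact one_ne_zero

include hun ha haT in
theorem v_fac (𝔡 : Ideal (𝓞 (IntermediateField.fixedField (stbW ρ w) : IntermediateField K N)))
    (b : 𝓞 (IntermediateField.fixedField (stbW ρ w) : IntermediateField K N))
    (hd : 𝔡 ∈ Good K _ T) (hb : Ideal.span {b} = 𝔡 * 𝔞) (P : Ideal (𝓞 N)) [hP : P.IsPrime]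
    (hp : P.under (𝓞 K) ≠ ⊥) (hpT : P.under (𝓞 K) ∉ T) (x : X) (u : X → ZMod 2) :
    (v P (Ideal.span {fac ρ W w b x u}) = 0 ∧ ((u ∈ W ∧ u x ≠ 0) → ∀ γ : N ≃ₐ[K] N,
      trn (ρ γ) w = u → ∃ δ : N ≃ₐ[K] N, trn (ρ δ) w = u ∧ ¬ (δ⁻¹ • P).under
        (𝓞 (IntermediateField.fixedField (stbW ρ w) : IntermediateField K N)) ∣ 𝔡)) ∨
    (v P (Ideal.span {fac ρ W w b x u}) = 1 ∧ (u ∈ W ∧ u x ≠ 0) ∧ ∃ δ : N ≃ₐ[K] N,
      trn (ρ δ) w = u ∧ (δ⁻¹ • P).under
        (𝓞 (IntermediateField.fixedField (stbW ρ w) : IntermediateField K N)) ∣ 𝔡) := by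
  classical
  have hram : Ideal.ramificationIdx' (P.under (𝓞 K)) P = 1 :=
    hun _ (Ideal.comap_isPrime _ _) hp hpT _ ⟨hP, ⟨rfl⟩⟩
  by_cases h1 : u ∈ W ∧ u x ≠ 0
  · by_cases h2 : ∃ γ : N ≃ₐ[K] N, trn (ρ γ) w = u
    · have h3 : fac ρ W w b x u = om (ph (stbW ρ w) h2.choose) b := by
        unfold fac
        rw [if_pos h1, dif_pos h2]
      have h4 := val_b (ph (stbW ρ w) h2.choose) T b ha haT hd.1 hb P hp hpT hram
      rw [comap_ph] at h4
      rw [h3, h4]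
      by_cases h5 : (h2.choose⁻¹ • P).under
          (𝓞 (IntermediateField.fixedField (stbW ρ w) : IntermediateField K N)) ∣ 𝔡
      · right
        rw [if_pos h5]
        exact ⟨rfl, h1, h2.choose, h2.choose_spec, h5⟩
      · left
        rw [if_neg h5]
        exact ⟨rfl, fun _ γ _ => ⟨h2.choose, h2.choose_spec, h5⟩⟩
    · left
      have h3 : fac ρ W w b x u = 1 := by
        unfold fac
        rw [if_pos h1, dif_neg h2]
      rw [h3, v_one]
      exact ⟨rfl, fun _ γ hγ => absurd ⟨γ, hγ⟩ h2⟩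
  · left
    have h3 : fac ρ W w b x u = 1 := by
      unfold fac
      rw [if_neg h1]
    rw [h3, v_one]
    exact ⟨rfl, fun h => absurd h h1⟩

open Classical in
include ha in
theorem v_Ai (𝔡 : Ideal (𝓞 (IntermediateField.fixedField (stbW ρ w) : IntermediateField K N)))
    (b : 𝓞 (IntermediateField.fixedField (stbW ρ w) : IntermediateField K N))
    (hd : 𝔡 ∈ Good K _ T) (hb : Ideal.span {b} = 𝔡 * 𝔞) (P : Ideal (𝓞 N)) (x : X) :
    Ideal.span {Ai ρ W w b x} ≠ ⊥ ∧ v P (Ideal.span {Ai ρ W w b x}) =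
      ∑ u : X → ZMod 2, v P (Ideal.span {fac ρ W w b x u}) := by
  have h1 : Ideal.span {Ai ρ W w b x} = ∏ u : X → ZMod 2, Ideal.span {fac ρ W w b x u} := by
    rw [Ideal.prod_span_singleton]
    rfl
  have h2 : ∀ u : X → ZMod 2, Ideal.span {fac ρ W w b x u} ≠ ⊥ := by
    intro u
    rw [Ne, Ideal.span_singleton_eq_bot]
    exact fac_ne ρ W w T 𝔞 ha 𝔡 b hd hb x u
  rw [h1]
  refine ⟨?_, v_prod _ _ _ h2⟩
  rw [← Ideal.zero_eq_bot, Finset.prod_ne_zero_iff]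
  intro u _
  exact h2 u

include hW hw hun ha haT in
/-- the valuation of the product, first case -/
theorem v_one_case
    (𝔡 : Ideal (𝓞 (IntermediateField.fixedField (stbW ρ w) : IntermediateField K N)))
    (b : 𝓞 (IntermediateField.fixedField (stbW ρ w) : IntermediateField K N))
    (hd : 𝔡 ∈ Good K _ T) (hb : Ideal.span {b} = 𝔡 * 𝔞) (P : Ideal (𝓞 N)) [hP : P.IsPrime]
    (hp : P.under (𝓞 K) ≠ ⊥) (hpT : P.under (𝓞 K) ∉ T) (h : N ≃ₐ[K] N)
    (hh : (h⁻¹ • P).under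
      (𝓞 (IntermediateField.fixedField (stbW ρ w) : IntermediateField K N)) ∣ 𝔡) (x : X) :
    v P (Ideal.span {Ai ρ W w b x}) = if trn (ρ h) w x ≠ 0 then 1 else 0 := by
  classical
  rw [(v_Ai ρ W w T 𝔞 ha 𝔡 b hd hb P x).2, Finset.sum_eq_single (trn (ρ h) w)]
  · rcases v_fac ρ W w T hun 𝔞 ha haT 𝔡 b hd hb P hp hpT x (trn (ρ h) w) with
      ⟨h1, h2⟩ | ⟨h1, h2, h3⟩
    · rw [h1]
      by_cases h3 : trn (ρ h) w x ≠ 0
      · obtain ⟨δ, h4, h5⟩ := h2 ⟨hW _ ⟨h, rfl⟩ _ hw, h3⟩ h rfl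
        exact absurd ((good_iff _ T hun hd P hp h hh δ).2 ((trn_iff ρ w h δ).2 h4)) h5
      · rw [if_neg h3]
    · rw [h1, if_pos h2.2]
  · intro u _ hu
    rcases v_fac ρ W w T hun 𝔞 ha haT 𝔡 b hd hb P hp hpT x u with ⟨h1, h2⟩ | ⟨h1, h2, δ, h3, h4⟩
    · exact h1
    · have h5 := (good_iff _ T hun hd P hp h hh δ).1 h4
      rw [trn_iff, h3] at h5
      exact absurd h5 hu
  · intro h1
    exact absurd (Finset.mem_univ _) h1

include hun ha haT in
/-- the valuation of the product, second case -/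
theorem v_zero_case
    (𝔡 : Ideal (𝓞 (IntermediateField.fixedField (stbW ρ w) : IntermediateField K N)))
    (b : 𝓞 (IntermediateField.fixedField (stbW ρ w) : IntermediateField K N))
    (hd : 𝔡 ∈ Good K _ T) (hb : Ideal.span {b} = 𝔡 * 𝔞) (P : Ideal (𝓞 N)) [hP : P.IsPrime]
    (hp : P.under (𝓞 K) ≠ ⊥) (hpT : P.under (𝓞 K) ∉ T)
    (hh : ∀ h : N ≃ₐ[K] N, ¬ (h⁻¹ • P).under
      (𝓞 (IntermediateField.fixedField (stbW ρ w) : IntermediateField K N)) ∣ 𝔡) (x : X) :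
    v P (Ideal.span {Ai ρ W w b x}) = 0 := by
  classical
  rw [(v_Ai ρ W w T 𝔞 ha 𝔡 b hd hb P x).2]
  refine Finset.sum_eq_zero fun u _ => ?_
  rcases v_fac ρ W w T hun 𝔞 ha haT 𝔡 b hd hb P hp hpT x u with ⟨h1, h2⟩ | ⟨h1, h2, δ, h3, h4⟩
  · exact h1
  · exact absurd h4 (hh δ)

include hW hw hun ha haT in
/-- the prime divisors of the first ideal divide the second one -/
theorem dvd_of (hw0 : w ≠ 0)
    (𝔡 𝔡' : Ideal (𝓞 (IntermediateField.fixedField (stbW ρ w) : IntermediateField K N)))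
    (b b' : 𝓞 (IntermediateField.fixedField (stbW ρ w) : IntermediateField K N))
    (hd : 𝔡 ∈ Good K _ T) (hd' : 𝔡' ∈ Good K _ T) (hb : Ideal.span {b} = 𝔡 * 𝔞)
    (hb' : Ideal.span {b'} = 𝔡' * 𝔞)
    (hsq : ∀ x : X, IsSquare (Aprod W (vf ρ w ((b : (IntermediateField.fixedField (stbW ρ w) :
        IntermediateField K N)) : N)) x *
      Aprod W (vf ρ w ((b' : (IntermediateField.fixedField (stbW ρ w) :
        IntermediateField K N)) : N)) x))
    (q : Ideal (𝓞 (IntermediateField.fixedField (stbW ρ w) : IntermediateField K N)))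
    (hq : q.IsPrime) (hqd : q ∣ 𝔡) : q ∣ 𝔡' := by
  classical
  have hd0 : 𝔡 ≠ ⊥ := hd.1.ne_zero
  have hq0 : q ≠ ⊥ := by
    rintro rfl
    exact hd0 (zero_dvd_iff.1 hqd)
  obtain ⟨P, hP, hPq⟩ := exists_over (ph (stbW ρ w) 1) q
  rw [comap_ph, inv_one, one_smul] at hPq
  have hPK : P.under (𝓞 K) = q.under (𝓞 K) := by rw [← hPq, under_under]
  have hp0 : P.under (𝓞 K) ≠ ⊥ := by
    rw [hPK]
    intro h
    exact hq0 (Ideal.eq_bot_of_comap_eq_bot h)
  have hpT : P.under (𝓞 K) ∉ T := by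
    rw [hPK]
    exact (hd.2 q hq hqd).2.1
  have h1 : ∀ x, v P (Ideal.span {Ai ρ W w b x}) = if w x ≠ 0 then 1 else 0 := by
    intro x
    have h2 := v_one_case ρ W w hW hw T hun 𝔞 ha haT 𝔡 b hd hb P hp0 hpT 1
      (by rw [inv_one, one_smul, hPq]; exact hqd) x
    rw [map_one] at h2
    exact h2
  have hev : ∀ x, Even (v P (Ideal.span {Ai ρ W w b x}) + v P (Ideal.span {Ai ρ W w b' x})) := by
    intro x
    obtain ⟨r, hr⟩ := hsq x
    rw [← coe_Ai, ← coe_Ai] at hr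
    have hri : IsIntegral ℤ r := by
      have h3 : IsIntegral ℤ (r ^ 2) := by
        rw [pow_two, ← hr]
        exact (Ai ρ W w b x).2.mul (Ai ρ W w b' x).2
      exact IsIntegral.of_pow (by norm_num) h3
    obtain ⟨β, hβ⟩ : ∃ β : 𝓞 N, (β : N) = r := ⟨⟨r, hri⟩, rfl⟩
    have h4 : Ai ρ W w b x * Ai ρ W w b' x = β * β := by
      apply RingOfIntegers.coe_injective
      have hβ' : algebraMap (𝓞 N) N β = r := hβ
      rw [map_mul, map_mul, hβ']
      exact hr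
    have h5 := (v_Ai ρ W w T 𝔞 ha 𝔡 b hd hb P x).1
    have h6 := (v_Ai ρ W w T 𝔞 ha 𝔡' b' hd' hb' P x).1
    have h7 : Ideal.span {Ai ρ W w b x} * Ideal.span {Ai ρ W w b' x} =
        Ideal.span {β} * Ideal.span {β} := by
      rw [Ideal.span_singleton_mul_span_singleton, Ideal.span_singleton_mul_span_singleton, h4]
    have h8 : Ideal.span {β} ≠ ⊥ := by
      intro h9
      rw [h9, Ideal.mul_bot] at h7
      exact mul_ne_zero h5 h6 h7
    exact ⟨v P (Ideal.span {β}), by rw [← v_mul P h5 h6, h7, v_mul P h8 h8]⟩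
  by_cases hh : ∃ h : N ≃ₐ[K] N, (h⁻¹ • P).under
      (𝓞 (IntermediateField.fixedField (stbW ρ w) : IntermediateField K N)) ∣ 𝔡'
  · obtain ⟨h, hh⟩ := hh
    have h2 : ∀ x, v P (Ideal.span {Ai ρ W w b' x}) = if trn (ρ h) w x ≠ 0 then 1 else 0 :=
      v_one_case ρ W w hW hw T hun 𝔞 ha haT 𝔡' b' hd' hb' P hp0 hpT h hh
    have h3 : trn (ρ h) w = w := by
      funext x
      have h4 := hev x
      rw [h1, h2] at h4
      have key : ∀ c d : ZMod 2,
          Even ((if c ≠ 0 then 1 else 0 : ℕ) + if d ≠ 0 then 1 else 0) → d = c := by decide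
      exact key _ _ h4
    have h4 : h⁻¹ ∈ stbW ρ w := (stbW ρ w).inv_mem h3
    rw [under_F (stbW ρ w) P h⁻¹ h4, hPq] at hh
    exact hh
  · push Not at hh
    exfalso
    apply hw0
    funext x
    have h2 := hev x
    rw [h1, v_zero_case ρ W w T hun 𝔞 ha haT 𝔡' b' hd' hb' P hp0 hpT hh x] at h2
    by_contra h3
    have h4 : w x ≠ 0 := h3
    rw [if_pos h4] at h2
    exact absurd h2 (by decide)

/-- squarefree ideals with the same prime divisors -/
theorem dvd_sqf {R : Type} [CommRing R] [IsDedekindDomain R] (I J : Ideal R) (hI : Squarefree I)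
    (hJ : J ≠ ⊥) (h : ∀ q : Ideal R, q.IsPrime → q ∣ I → q ∣ J) : I ∣ J := by
  classical
  have hI0 : I ≠ ⊥ := hI.ne_zero
  rw [dvd_iff_normalizedFactors_le_normalizedFactors hI0 hJ,
    Multiset.le_iff_subset ((squarefree_iff_nodup_normalizedFactors hI0).1 hI)]
  intro q hq
  rw [Ideal.mem_normalizedFactors_iff hI0] at hq
  rw [Ideal.mem_normalizedFactors_iff hJ]
  exact ⟨hq.1, Ideal.dvd_iff_le.1 (h q hq.1 (Ideal.dvd_iff_le.2 hq.2))⟩

end Pool.Agent.NH85.CE.CI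

namespace Pool.Agent.NH85.CE

theorem s_I : S_I := by
  intro K N _ _ _ _ _ _ X _ ρ W hW w hw hw0 T hun 𝔞 𝔡 𝔡' b b' ha haT hd hd' hb hb' hsq
  have h1 := CI.dvd_of ρ W w hW hw T hun 𝔞 ha haT hw0 𝔡 𝔡' b b' hd hd' hb hb' hsq
  have h2 := CI.dvd_of ρ W w hW hw T hun 𝔞 ha haT hw0 𝔡' 𝔡 b' b hd' hd hb' hb
    (fun x => by rw [mul_comm]; exact hsq x)
  exact dvd_antisymm (CI.dvd_sqf _ _ hd.1 hd'.1.ne_zero h1) (CI.dvd_sqf _ _ hd'.1 hd.1.ne_zero h2)

end Pool.Agent.NH85.CE
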