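import Pool.Agent.NH85.CE.Defs

/-!
# The norm of the product of the conjugates (job 351, helper6)
-/

set_option autoImplicit false

open NumberField

namespace Pool.Agent.NH85.CE

namespace JJ

/-- the absolute value of the norm is invariant under automorphisms -/
theorem norm_conj {K N : Type} [Field K] [NumberField K] [Field N] [NumberField N] [Algebra K N]
    (γ : N ≃ₐ[K] N) (x : N) : Algebra.norm ℚ (γ x) = Algebra.norm ℚ x :=
  Algebra.norm_eq_of_algEquiv (γ.restrictScalars ℚ) x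

/-- the absolute norm of an integer of a subfield, in terms of the norm of the big field -/
theorem norm_sub {K N : Type} [Field K] [NumberField K] [Field N] [NumberField N] [Algebra K N]
    (F : IntermediateField K N) (b : 𝓞 F) :
    |Algebra.norm ℚ (((b : 𝓞 F) : F) : N)| =
      ((Ideal.absNorm (Ideal.span {b}) : ℕ) : ℚ) ^ Module.finrank F N := by
  have h1 : Algebra.norm ℚ (((b : 𝓞 F) : F) : N) =
      (Algebra.norm ℚ ((b : 𝓞 F) : F)) ^ Module.finrank F N := by
    have h2 := Algebra.norm_norm (R := ℚ) (S := F) (A := N) (a := (((b : 𝓞 F) : F) : N))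
    have h3 : Algebra.norm F ((((b : 𝓞 F) : F) : N)) = ((b : 𝓞 F) : F) ^ Module.finrank F N :=
      Algebra.norm_algebraMap (S := N) ((b : 𝓞 F) : F)
    rw [← h2, h3, map_pow]
  rw [h1, abs_pow, ← Algebra.coe_norm_int, Ideal.absNorm_span_singleton]
  congr 1
  rw [Nat.cast_natAbs, Int.cast_abs]

theorem count_fib {Γ X : Type} [Finite Γ] [Finite X] (f : Γ → X) (S : Set X) (m : ℕ)
    (h : ∀ x ∈ S, Set.ncard {γ | f γ = x} = m) :
    Set.ncard {γ | f γ ∈ S} = m * Set.ncard S := by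
  classical
  have := Fintype.ofFinite Γ
  have := Fintype.ofFinite X
  have e1 : Set.ncard {γ | f γ ∈ S} = (Finset.univ.filter (fun γ => f γ ∈ S)).card := by
    rw [Set.ncard_eq_toFinset_card']
    congr 1
    ext γ
    simp
  have e2 : Set.ncard S = (Finset.univ.filter (fun x => x ∈ S)).card := by
    rw [Set.ncard_eq_toFinset_card']
    congr 1
    ext γ
    simp
  rw [e1, e2, Finset.card_eq_sum_card_fiberwise (f := f)
    (t := Finset.univ.filter (fun x => x ∈ S)) (fun γ hγ => by simpa using hγ),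
    Finset.sum_congr rfl (g := fun _ => m), Finset.sum_const, smul_eq_mul, mul_comm]
  intro x hx
  have hx' : x ∈ S := by simpa using hx
  rw [← h x hx', Set.ncard_eq_toFinset_card']
  congr 1
  ext γ
  simp only [Finset.mem_filter, Finset.mem_univ, true_and, Set.mem_ofPred_eq, Set.mem_toFinset]
  constructor
  · rintro ⟨_, h2⟩
    exact h2
  · intro h2
    exact ⟨h2 ▸ hx', h2⟩

theorem trn_mul {P : Type} (h k : Equiv.Perm P) (w : P → ZMod 2) :
    trn (h * k) w = trn h (trn k w) := by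
  funext x
  simp only [trn]
  rw [mul_inv_rev, Equiv.Perm.mul_apply]

theorem count {Γ P : Type} [Group Γ] [Finite Γ] [Finite P] (ρ : Γ →* Equiv.Perm P)
    (ht : ∀ x y : P, ∃ γ, ρ γ x = y) (w : P → ZMod 2) (x₀ : P) :
    Nat.card (stbW ρ w) * Set.ncard {u : P → ZMod 2 | (∃ γ, trn (ρ γ) w = u) ∧ u x₀ ≠ 0} =
      Nat.card (stb ρ x₀) * wt w := by
  have h1 := count_fib (fun γ : Γ => trn (ρ γ) w)
    {u : P → ZMod 2 | (∃ γ, trn (ρ γ) w = u) ∧ u x₀ ≠ 0} (Nat.card (stbW ρ w)) (by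
      rintro u ⟨⟨c, rfl⟩, _⟩
      rw [← Nat.card_coe_set_eq]
      refine (Nat.card_congr (Equiv.ofBijective
        (fun γ : stbW ρ w => (⟨c * γ, ?_⟩ : {γ // trn (ρ γ) w = trn (ρ c) w})) ⟨?_, ?_⟩)).symm
      · show trn (ρ (c * γ)) w = trn (ρ c) w
        have h2 : trn (ρ (γ : Γ)) w = w := γ.2
        rw [map_mul, trn_mul, h2]
      · intro γ δ h
        have h2 := congrArg Subtype.val h
        exact Subtype.ext (mul_left_cancel h2)
      · rintro ⟨δ, hδ⟩
        have hδ' : trn (ρ δ) w = trn (ρ c) w := hδ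
        refine ⟨⟨c⁻¹ * δ, ?_⟩, Subtype.ext (mul_inv_cancel_left c δ)⟩
        show trn (ρ (c⁻¹ * δ)) w = w
        rw [map_mul, trn_mul, hδ', ← trn_mul, ← map_mul, inv_mul_cancel, map_one]
        rfl)
  have h2 := count_fib (fun γ : Γ => (ρ γ)⁻¹ x₀) {x : P | w x ≠ 0} (Nat.card (stb ρ x₀)) (by
      intro y _
      obtain ⟨c, hc⟩ := ht x₀ y
      rw [← Nat.card_coe_set_eq]
      refine (Nat.card_congr (Equiv.ofBijective
        (fun γ : stb ρ x₀ => (⟨(γ : Γ) * c⁻¹, ?_⟩ : {γ // (ρ γ)⁻¹ x₀ = y})) ⟨?_, ?_⟩)).symm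
      · show (ρ ((γ : Γ) * c⁻¹))⁻¹ x₀ = y
        have h2 : ρ (γ : Γ) x₀ = x₀ := γ.2
        rw [Equiv.Perm.inv_eq_iff_eq, map_mul, map_inv, Equiv.Perm.mul_apply, ← hc, inv_app, h2]
      · intro γ δ h
        have h2 := congrArg Subtype.val h
        exact Subtype.ext (mul_right_cancel h2)
      · rintro ⟨δ, hδ⟩
        have hδ' : (ρ δ)⁻¹ x₀ = y := hδ
        refine ⟨⟨δ * c, ?_⟩, Subtype.ext (by
          show δ * c * c⁻¹ = δ
          group)⟩
        show ρ (δ * c) x₀ = x₀
        rw [map_mul, Equiv.Perm.mul_apply, hc, ← hδ', app_inv])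
  rw [← h1]
  show _ = Nat.card (stb ρ x₀) * Set.ncard {x | w x ≠ 0}
  rw [← h2]
  congr 1
  ext γ
  constructor
  · rintro ⟨_, h3⟩
    exact h3
  · intro h3
    exact ⟨⟨γ, rfl⟩, h3⟩

end JJ

open JJ

theorem s_J : S_J := by
  intro K N _ _ _ _ _ _ P _ ρ ht W hW w hw x₀ b a hab
  classical
  have hA : |Algebra.norm ℚ (Aprod W (vf ρ w ((b : (IntermediateField.fixedField (stbW ρ w) :
        IntermediateField K N)) : N)) x₀)| =
      |Algebra.norm ℚ ((b : (IntermediateField.fixedField (stbW ρ w) :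
        IntermediateField K N)) : N)| ^
        Set.ncard {u : P → ZMod 2 | (∃ γ, trn (ρ γ) w = u) ∧ u x₀ ≠ 0} := by
    rw [Aprod, map_prod, Finset.abs_prod]
    have h1 : ∀ u : P → ZMod 2, |Algebra.norm ℚ (if u ∈ W ∧ u x₀ ≠ 0 then
        vf ρ w ((b : (IntermediateField.fixedField (stbW ρ w) :
        IntermediateField K N)) : N) u else 1)| =
        if (∃ γ, trn (ρ γ) w = u) ∧ u x₀ ≠ 0 then
          |Algebra.norm ℚ ((b : (IntermediateField.fixedField (stbW ρ w) :
            IntermediateField K N)) : N)| else 1 := by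
      intro u
      by_cases hu : ∃ γ, trn (ρ γ) w = u
      · have huW : u ∈ W := by
          obtain ⟨γ, rfl⟩ := hu
          exact hW _ ⟨γ, rfl⟩ w hw
        by_cases hu0 : u x₀ ≠ 0
        · rw [if_pos ⟨huW, hu0⟩, if_pos ⟨hu, hu0⟩, vf, dif_pos hu, norm_conj]
        · rw [if_neg (fun h => hu0 h.2), if_neg (fun h => hu0 h.2), map_one, abs_one]
      · rw [if_neg (c := _ ∧ _) (fun h => hu h.1), vf, dif_neg hu, ite_self, map_one, abs_one]
    rw [Finset.prod_congr rfl (fun u _ => h1 u), Finset.prod_ite, Finset.prod_const,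
      Finset.prod_const_one, mul_one, Set.ncard_eq_toFinset_card']
    congr 2
    ext u
    simp
  rw [← hab, norm_sub, norm_sub, ← pow_mul, IntermediateField.finrank_fixedField_eq_card,
    IntermediateField.finrank_fixedField_eq_card, count ρ ht w x₀, mul_comm, pow_mul] at hA
  have hpos : Nat.card (stb ρ x₀) ≠ 0 := Nat.card_pos.ne'
  have h2 : (Ideal.absNorm (Ideal.span {a}) : ℕ) ^ Nat.card (stb ρ x₀) =
      (Ideal.absNorm (Ideal.span {b}) ^ wt w) ^ Nat.card (stb ρ x₀) := by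
    exact_mod_cast hA
  exact (Nat.pow_left_injective hpos) h2

end Pool.Agent.NH85.CE
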