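import Pool.Agent.NH85.CE.Tr
import Pool.Agent.NH85.CE.A
import Pool.Agent.NH85.CE.B
import Pool.Agent.NH85.CE.C
import Pool.Agent.NH85.CE.E
import Pool.Agent.NH85.CE.F
import Pool.Agent.NH85.CE.G
import Pool.Agent.NH85.CE.I
import Pool.Agent.NH85.CE.J

/-!
# Base and minimal degree; the weak form without hypotheses; even permutations
-/

set_option autoImplicit false

open NumberField Filter Topology IntermediateField

namespace Pool.Agent.NH85.CE

open Pool.Agent.TH444.ML Pool.Agent.NH85.ML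

/-- a base meets all the conjugates of the support -/
theorem card_le_base_mul {Γ P : Type} [Group Γ] [Finite Γ] [Finite P] [MulAction Γ P]
    [MulAction.IsPretransitive Γ P] (B : Finset P) (hB : ∀ γ : Γ, (∀ x ∈ B, γ • x = x) → γ = 1)
    (γ₀ : Γ) (hγ : γ₀ ≠ 1) (S : Finset P) (hS : ∀ x, γ₀ • x ≠ x → x ∈ S) :
    Nat.card P ≤ B.card * S.card := by
  classical
  have : Fintype Γ := Fintype.ofFinite Γ
  have : Fintype P := Fintype.ofFinite P
  have h1 : (Finset.univ : Finset Γ) ⊆ (B ×ˢ S).biUnion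
      (fun p => Finset.univ.filter (fun γ : Γ => γ • p.2 = p.1)) := by
    intro γ _
    rw [Finset.mem_biUnion]
    have h2 : γ * γ₀ * γ⁻¹ ≠ 1 := by
      intro h
      apply hγ
      have : γ₀ = γ⁻¹ * (γ * γ₀ * γ⁻¹) * γ := by group
      rw [this, h]
      group
    have h3 : ∃ b ∈ B, (γ * γ₀ * γ⁻¹) • b ≠ b := by
      by_contra hcon
      push Not at hcon
      exact h2 (hB _ hcon)
    obtain ⟨b, hb, hb1⟩ := h3
    refine ⟨(b, γ⁻¹ • b), ?_, ?_⟩
    · rw [Finset.mem_product]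
      refine ⟨hb, hS _ ?_⟩
      intro h4
      apply hb1
      rw [mul_smul, mul_smul, h4, smul_inv_smul]
    · rw [Finset.mem_filter]
      exact ⟨Finset.mem_univ _, smul_inv_smul γ b⟩
  have h2 : ∀ p ∈ B ×ˢ S, (Finset.univ.filter (fun γ : Γ => γ • p.2 = p.1)).card * Nat.card P ≤
      Nat.card Γ := by
    rintro ⟨b, s⟩ -
    obtain ⟨γ₁, hγ₁⟩ := MulAction.exists_smul_eq Γ s b
    have h3 : (Finset.univ.filter (fun γ : Γ => γ • s = b)).card ≤
        Nat.card (MulAction.stabilizer Γ s) := by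
      rw [Nat.card_eq_fintype_card, ← Finset.card_univ]
      refine Finset.card_le_card_of_injOn (fun γ => if h : γ • s = b then
        (⟨γ₁⁻¹ * γ, by rw [MulAction.mem_stabilizer_iff, mul_smul, h, ← hγ₁, inv_smul_smul]⟩ :
          MulAction.stabilizer Γ s) else 1) (fun _ _ => Finset.mem_univ _) ?_
      intro x hx y hy hxy
      have hx' : x • s = b := (Finset.mem_filter.1 (Finset.mem_coe.1 hx)).2
      have hy' : y • s = b := (Finset.mem_filter.1 (Finset.mem_coe.1 hy)).2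
      simp only [dif_pos hx', dif_pos hy', Subtype.mk.injEq, mul_right_inj] at hxy
      exact hxy
    have h4 : Nat.card P * Nat.card (MulAction.stabilizer Γ s) = Nat.card Γ := by
      have h5 := MulAction.card_orbit_mul_card_stabilizer_eq_card_group Γ s
      rw [← Nat.card_eq_fintype_card, ← Nat.card_eq_fintype_card, ← Nat.card_eq_fintype_card] at h5
      rw [← h5]
      congr 1
      rw [MulAction.orbit_eq_univ]
      exact (Nat.card_univ).symm
    calc _ ≤ Nat.card (MulAction.stabilizer Γ s) * Nat.card P := Nat.mul_le_mul_right _ h3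
      _ = Nat.card Γ := by rw [mul_comm, h4]
  have h3 : Nat.card Γ * Nat.card P ≤ (B.card * S.card) * Nat.card Γ := by
    calc Nat.card Γ * Nat.card P = (Finset.univ : Finset Γ).card * Nat.card P := by
          rw [Finset.card_univ, Nat.card_eq_fintype_card]
      _ ≤ ((B ×ˢ S).biUnion
          (fun p => Finset.univ.filter (fun γ : Γ => γ • p.2 = p.1))).card * Nat.card P :=
          Nat.mul_le_mul_right _ (Finset.card_le_card h1)
      _ ≤ (∑ p ∈ B ×ˢ S, (Finset.univ.filter (fun γ : Γ => γ • p.2 = p.1)).card) * Nat.card P :=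
          Nat.mul_le_mul_right _ Finset.card_biUnion_le
      _ = ∑ p ∈ B ×ˢ S, (Finset.univ.filter (fun γ : Γ => γ • p.2 = p.1)).card * Nat.card P := by
          rw [Finset.sum_mul]
      _ ≤ ∑ p ∈ B ×ˢ S, Nat.card Γ := Finset.sum_le_sum h2
      _ = _ := by rw [Finset.sum_const, Finset.card_product, smul_eq_mul]
  have hpos : 0 < Nat.card Γ := Nat.card_pos
  refine Nat.le_of_mul_le_mul_left ?_ hpos
  rw [mul_comm (Nat.card Γ) (B.card * S.card)]
  exact h3

/-- the two bounds, no hypothesis -/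
theorem weak_code' {m : ℕ} {H : Subgroup (Equiv.Perm (Fin m))}
    {W : Submodule (ZMod 2) (Fin m → ZMod 2)} {d : ℕ} {G : Subgroup (Equiv.Perm (Fin d))}
    (K : Type) [Field K] [NumberField K] (htr : ∀ x y : Fin m, ∃ h ∈ H, h x = y)
    (hW : Stable H W) (f : Fin d ≃ Fin m × Bool)
    (hf : ∀ π : Equiv.Perm (Fin d), π ∈ G ↔ f.permCongr π ∈ CodeG H W hW)
    (δ : ℕ) (hδ : 1 ≤ δ) (hδ3 : δ ≤ 3) (w : Fin m → ZMod 2) (hw : w ∈ W) (hwδ : wt w = δ)
    (hmin : ∀ w ∈ W, w ≠ 0 → δ ≤ wt w) (A : ℝ) (hAδ : A ≤ 2 / (δ : ℝ) - 1 / 2)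
    (hne : (GalX K (AlgebraicClosure K) H).Nonempty)
    (hup : ∀ ε : ℝ, 0 < ε → Upper K (AlgebraicClosure K) H (A + ε)) :
    (∃ c : ℝ, 0 < c ∧ ∃ X₀ : ℝ, ∀ X : ℝ, X₀ ≤ X →
      c * X ^ (1 / (δ : ℝ)) ≤ Set.ncard (Cnt K G X)) ∧
    (∀ ε : ℝ, 0 < ε → ∃ C : ℝ, 0 < C ∧ ∃ X₀ : ℝ, ∀ X : ℝ, X₀ ≤ X →
      (Set.ncard (Cnt K G X) : ℝ) < C * X ^ (1 / (δ : ℝ) + ε)) ∧
    (GalX K (AlgebraicClosure K) G).Nonempty ∧
    ∀ ε : ℝ, 0 < ε → Upper K (AlgebraicClosure K) G (1 / (δ : ℝ) + ε) :=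
  weak_code s_A s_B s_C s_E s_F s_G s_I s_J K htr hW f hf δ hδ hδ3 w hw hwδ hmin A hAδ hne hup

end Pool.Agent.NH85.CE
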