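import Pool.Agent.NH85.ML.Out

/-!
# Malle's conjecture for the groups `W ⋊ H ≤ C₂ ≀ H`, `W` a binary code : definitions

(helper85, MP_af4c59_nt.)  `K` is a number field, `Ω` its algebraic closure, `P` a finite set, `H` a
transitive group of permutations of `P`, `W ≤ 𝔽₂ ^ P` a code (a subspace) stable under `H`.
-/

set_option autoImplicit false

open NumberField Filter Topology IntermediateField

namespace Pool.Agent.NH85.CE

open Pool.Agent.TH444.ML Pool.Agent.NH85.ML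

theorem inv_app {P : Type} (h : Equiv.Perm P) (x : P) : h⁻¹ (h x) = x := h.symm_apply_apply x

theorem app_inv {P : Type} (h : Equiv.Perm P) (x : P) : h (h⁻¹ x) = x := h.apply_symm_apply x

/-- the translate `h w` of a word: `(h w)(x) = w (h⁻¹ x)` -/
def trn {P : Type} (h : Equiv.Perm P) (w : P → ZMod 2) : P → ZMod 2 := fun x => w (h⁻¹ x)

/-- the code `W` is stable under `H` -/
def Stable {P : Type} (H : Subgroup (Equiv.Perm P)) (W : Submodule (ZMod 2) (P → ZMod 2)) : Prop :=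
  ∀ h ∈ H, ∀ w ∈ W, trn h w ∈ W

/-- the group `W ⋊ H` in its action on `P × {0, 1}`; `(w, h)` is `(x, b) ↦ (h x, b + w (h x))` -/
def CodeG {P : Type} (H : Subgroup (Equiv.Perm P)) (W : Submodule (ZMod 2) (P → ZMod 2))
    (hW : Stable H W) : Subgroup (Equiv.Perm (P × Bool)) where
  carrier := {π | ∃ h ∈ H, ∃ w ∈ W, ∀ x : P × Bool,
    π x = (h x.1, xor x.2 (decide (w (h x.1) ≠ 0)))}
  one_mem' := ⟨1, H.one_mem, 0, W.zero_mem, fun x => by simp⟩
  mul_mem' := by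
    rintro π ρ ⟨h, hh, w, hw, h1⟩ ⟨h', hh', w', hw', h2⟩
    refine ⟨h * h', H.mul_mem hh hh', trn h w' + w, W.add_mem (hW h hh w' hw') hw, fun x => ?_⟩
    rw [Equiv.Perm.mul_apply, h2, h1]
    have key : ∀ (b : Bool) (p q : ZMod 2),
        xor (xor b (decide (p ≠ 0))) (decide (q ≠ 0)) = xor b (decide (p + q ≠ 0)) := by decide
    simp only [Equiv.Perm.mul_apply, Pi.add_apply, trn, inv_app, key]
  inv_mem' := by
    rintro π ⟨h, hh, w, hw, h1⟩
    refine ⟨h⁻¹, H.inv_mem hh, trn h⁻¹ w, hW _ (H.inv_mem hh) w hw, fun x => ?_⟩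
    have h2 := h1 (h⁻¹ x.1, xor x.2 (decide (w x.1 ≠ 0)))
    have key : ∀ (b c : Bool), xor (xor b c) c = b := by decide
    have e1 : trn h⁻¹ w (h⁻¹ x.1) = w x.1 := by rw [trn, inv_inv, app_inv]
    rw [app_inv, key] at h2
    rw [Equiv.Perm.inv_eq_iff_eq, e1]
    exact h2.symm

/-- the weight of a word -/
noncomputable def wt {P : Type} (w : P → ZMod 2) : ℕ := Set.ncard {x | w x ≠ 0}

/-- the product of the `a x` over the `x` with `S x ≠ 0` -/
def Sprod {P R : Type} [Fintype P] [CommMonoid R] (S : P → ZMod 2) (a : P → R) : R :=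
  ∏ x, if S x ≠ 0 then a x else 1

open Classical in
/-- the product of the `β u` over the words `u ∈ W` with `u x ≠ 0` -/
noncomputable def Aprod {P R : Type} [Fintype P] [CommMonoid R]
    (W : Submodule (ZMod 2) (P → ZMod 2)) (β : (P → ZMod 2) → R) (x : P) : R :=
  ∏ u : P → ZMod 2, if u ∈ W ∧ u x ≠ 0 then β u else 1

/-- (A) structure of the extensions with group `W ⋊ H` -/
def S_A : Prop :=
  ∀ (K Ω : Type) [Field K] [NumberField K] [Field Ω] [Algebra K Ω] [IsAlgClosure K Ω]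
    (P : Type) [Fintype P] (H : Subgroup (Equiv.Perm P))
    (W : Submodule (ZMod 2) (P → ZMod 2)) (hW : Stable H W) (L : IntermediateField K Ω),
    L ∈ GalX K Ω (CodeG H W hW) →
    ∃ (M : IntermediateField K Ω) (e : (M →ₐ[K] Ω) ≃ P), M ∈ GalX K Ω H ∧ M ≤ L ∧
      FiniteDimensional K L ∧ Module.finrank K L = 2 * Module.finrank K M ∧
      ∀ (α : M) (s : Ω), s ^ 2 = (α : Ω) → s ∉ M → L = M ⊔ IntermediateField.adjoin K {s} →
        ∀ S : P → ZMod 2, (∀ w ∈ W, ∑ x, S x * w x = 0) →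
          ∃ b ∈ IntermediateField.normalClosure K M Ω, b ^ 2 = Sprod S (fun x => e.symm x α)

/-- squarefree ideals `𝔡` of `M` such that, outside the primes which divide the discriminant of `M`,
the primes of `K` below the divisors of `𝔡` divide an ideal `𝔟` with `N 𝔟 ^ d ≤ N 𝔡` -/
def BdW (K M : Type) [Field K] [NumberField K] [Field M] [NumberField M] [Algebra K M] (d : ℕ) :
    Set (Ideal (𝓞 M)) :=
  {𝔡 | Squarefree 𝔡 ∧ ∃ 𝔟 : Ideal (𝓞 K), 𝔟 ≠ ⊥ ∧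
    Ideal.absNorm 𝔟 ^ d ≤ Ideal.absNorm 𝔡 ∧
    ∀ Q : Ideal (𝓞 M), Q.IsPrime → Q ∣ 𝔡 → Q.under (𝓞 K) ∣ 𝔟 ∨ ((discr M : ℤ) : 𝓞 M) ∈ Q}

/-- (B) the squarefree part of `α` -/
def S_B : Prop :=
  ∀ (K Ω : Type) [Field K] [NumberField K] [Field Ω] [Algebra K Ω] [IsAlgClosure K Ω]
    (P : Type) [Fintype P] (W : Submodule (ZMod 2) (P → ZMod 2)) (d : ℕ)
    (M : IntermediateField K Ω) [FiniteDimensional K M] [NumberField M] (e : (M →ₐ[K] Ω) ≃ P),
    (∀ w ∈ W, w ≠ 0 → d ≤ wt w) →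
    ∀ (α : 𝓞 M) (𝔡 𝔠 : Ideal (𝓞 M)), α ≠ 0 → Squarefree 𝔡 → Ideal.span {α} = 𝔡 * 𝔠 ^ 2 →
    (∀ S : P → ZMod 2, (∀ w ∈ W, ∑ x, S x * w x = 0) →
      ∃ b ∈ IntermediateField.normalClosure K M Ω, b ^ 2 = Sprod S (fun x => e.symm x (α : M))) →
    𝔡 ∈ BdW K M d

/-- (C) uniform count of these ideals -/
def S_C : Prop :=
  ∀ (K : Type) [Field K] [NumberField K] (n d : ℕ) (ε : ℝ), 1 ≤ d → 0 < ε → ∃ C : ℝ, 0 ≤ C ∧
    ∀ (M : Type) [Field M] [NumberField M] [Algebra K M], Module.finrank ℚ M = n →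
    ∀ Y : ℝ, 1 ≤ Y → {𝔡 : Ideal (𝓞 M) | 𝔡 ∈ BdW K M d ∧ (Ideal.absNorm 𝔡 : ℝ) ≤ Y}.Finite ∧
      (Set.ncard {𝔡 : Ideal (𝓞 M) | 𝔡 ∈ BdW K M d ∧ (Ideal.absNorm 𝔡 : ℝ) ≤ Y} : ℝ) ≤
        C * ((|discr M| : ℤ) : ℝ) ^ ε * Y ^ (1 / (d : ℝ) + ε)

/-- good ideals of `F`: products of distinct primes of degree one over `K`, not above `T`, at most
one above each prime of `K` -/
def Good (K F : Type) [Field K] [NumberField K] [Field F] [NumberField F] [Algebra K F]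
    (T : Finset (Ideal (𝓞 K))) : Set (Ideal (𝓞 F)) :=
  {𝔡 | Squarefree 𝔡 ∧ ∀ Q : Ideal (𝓞 F), Q.IsPrime → Q ∣ 𝔡 →
    Ideal.absNorm Q = Ideal.absNorm (Q.under (𝓞 K)) ∧ Q.under (𝓞 K) ∉ T ∧
    ∀ Q' : Ideal (𝓞 F), Q'.IsPrime → Q' ∣ 𝔡 → Q'.under (𝓞 K) = Q.under (𝓞 K) → Q' = Q}

/-- (E) the good ideals have positive lower density -/
def S_E : Prop :=
  ∀ (K F : Type) [Field K] [NumberField K] [Field F] [NumberField F] [Algebra K F]
    (T : Finset (Ideal (𝓞 K))), ∃ c : ℝ, 0 < c ∧ ∀ᶠ Z : ℝ in atTop,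
      c * Z ≤ Set.ncard {𝔡 : Ideal (𝓞 F) | 𝔡 ∈ Good K F T ∧ (Ideal.absNorm 𝔡 : ℝ) ≤ Z}

/-- the stabilizer of the point `x₀` -/
def stb {Γ P : Type} [Group Γ] (ρ : Γ →* Equiv.Perm P) (x₀ : P) : Subgroup Γ :=
  (MulAction.stabilizer (Equiv.Perm P) x₀).comap ρ

/-- the stabilizer of the word `w` -/
def stbW {Γ P : Type} [Group Γ] (ρ : Γ →* Equiv.Perm P) (w : P → ZMod 2) : Subgroup Γ where
  carrier := {γ | trn (ρ γ) w = w}
  one_mem' := by
    show trn (ρ 1) w = w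
    rw [map_one]
    rfl
  mul_mem' := by
    intro γ δ h1 h2
    have h1' : trn (ρ γ) w = w := h1
    have h2' : trn (ρ δ) w = w := h2
    show trn (ρ (γ * δ)) w = w
    funext x
    have e1 := congrFun h2' ((ρ γ)⁻¹ x)
    have e2 := congrFun h1' x
    simp only [trn] at e1 e2 ⊢
    rw [map_mul, mul_inv_rev, Equiv.Perm.mul_apply, e1, e2]
  inv_mem' := by
    intro γ h1
    have h1' : trn (ρ γ) w = w := h1
    show trn (ρ γ⁻¹) w = w
    funext x
    have e1 := congrFun h1' (ρ γ x)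
    simp only [trn] at e1 ⊢
    rw [map_inv, inv_inv, ← e1, inv_app]

/-- (F) an equivariant family `β` gives an extension with group `W ⋊ H` -/
def S_F : Prop :=
  ∀ (K Ω : Type) [Field K] [NumberField K] [Field Ω] [Algebra K Ω] [IsAlgClosure K Ω]
    (N : IntermediateField K Ω) [FiniteDimensional K N] [IsGalois K N] (P : Type) [Fintype P]
    (ρ : (N ≃ₐ[K] N) →* Equiv.Perm P), Function.Injective ρ → (∀ x y : P, ∃ γ, ρ γ x = y) →
    ∀ (W : Submodule (ZMod 2) (P → ZMod 2)) (hW : Stable ρ.range W), W ≠ ⊥ →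
    ∀ β : (P → ZMod 2) → N, (∀ u ∈ W, β u ≠ 0) →
    (∀ (γ : N ≃ₐ[K] N), ∀ u ∈ W, γ (β u) = β (trn (ρ γ) u)) →
    (∀ S : P → ZMod 2, IsSquare (Sprod S (Aprod W β)) → ∀ w ∈ W, ∑ x, S x * w x = 0) →
    ∀ (x₀ : P) (M : IntermediateField K Ω),
      M = IntermediateField.lift (IntermediateField.fixedField (stb ρ x₀)) →
    ∀ s : Ω, s ^ 2 = ((Aprod W β x₀ : N) : Ω) →
      M ∈ GalX K Ω ρ.range ∧ ((Aprod W β x₀ : N) : Ω) ∈ M ∧ s ∉ M ∧
      M ⊔ IntermediateField.adjoin K {s} ∈ GalX K Ω (CodeG ρ.range W hW) ∧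
      Module.finrank K (M ⊔ IntermediateField.adjoin K {s} : IntermediateField K Ω) =
        2 * Module.finrank K M

open Pool.Agent.TH9.J3098 (v) in
/-- (G) an auxiliary equivariant family and primes which detect its members -/
def S_G : Prop :=
  ∀ (K N : Type) [Field K] [NumberField K] [Field N] [NumberField N] [Algebra K N] [IsGalois K N]
    (P : Type) [Fintype P] (ρ : (N ≃ₐ[K] N) →* Equiv.Perm P)
    (W : Submodule (ZMod 2) (P → ZMod 2)), Stable ρ.range W → ∀ T : Finset (Ideal (𝓞 K)),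
    ∃ (β : (P → ZMod 2) → 𝓞 N) (Q : (P → ZMod 2) → Ideal (𝓞 N)), (∀ u ∈ W, β u ≠ 0) ∧
      (∀ (γ : N ≃ₐ[K] N), ∀ u ∈ W, γ (β u : N) = (β (trn (ρ γ) u) : N)) ∧
      ∀ u ∈ W, (Q u).IsPrime ∧ Q u ≠ ⊥ ∧ (Q u).under (𝓞 K) ∉ T ∧
        ∀ u' ∈ W, Odd (v (Q u) (Ideal.span {β u'})) ↔ u' = u

open Classical in
/-- the equivariant family of the conjugates of an element `b` fixed by the stabilizer of `w` -/
noncomputable def vf {K N P : Type} [Field K] [Field N] [Algebra K N]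
    (ρ : (N ≃ₐ[K] N) →* Equiv.Perm P) (w : P → ZMod 2) (b : N) (u : P → ZMod 2) : N :=
  if h : ∃ γ : N ≃ₐ[K] N, trn (ρ γ) w = u then h.choose b else 1

/-- (I) the family determines the good ideal -/
def S_I : Prop :=
  ∀ (K N : Type) [Field K] [NumberField K] [Field N] [NumberField N] [Algebra K N] [IsGalois K N]
    (P : Type) [Fintype P] (ρ : (N ≃ₐ[K] N) →* Equiv.Perm P)
    (W : Submodule (ZMod 2) (P → ZMod 2)), Stable ρ.range W → ∀ w ∈ W, w ≠ 0 →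
    ∀ T : Finset (Ideal (𝓞 K)),
    (∀ p : Ideal (𝓞 K), p.IsPrime → p ≠ ⊥ → p ∉ T → ∀ Q ∈ p.primesOver (𝓞 N),
      Ideal.ramificationIdx' p Q = 1) →
    ∀ (𝔞 𝔡 𝔡' : Ideal (𝓞 (IntermediateField.fixedField (stbW ρ w) : IntermediateField K N)))
      (b b' : 𝓞 (IntermediateField.fixedField (stbW ρ w) : IntermediateField K N)), 𝔞 ≠ ⊥ →
    (∀ Q, Q.IsPrime → Q ∣ 𝔞 → Q.under (𝓞 K) ∈ T) → 𝔡 ∈ Good K _ T → 𝔡' ∈ Good K _ T →
    Ideal.span {b} = 𝔡 * 𝔞 → Ideal.span {b'} = 𝔡' * 𝔞 →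
    (∀ x : P, IsSquare (Aprod W (vf ρ w ((b : (IntermediateField.fixedField (stbW ρ w) :
        IntermediateField K N)) : N)) x *
      Aprod W (vf ρ w ((b' : (IntermediateField.fixedField (stbW ρ w) :
        IntermediateField K N)) : N)) x)) → 𝔡 = 𝔡'

/-- (J) the norm of the product of conjugates -/
def S_J : Prop :=
  ∀ (K N : Type) [Field K] [NumberField K] [Field N] [NumberField N] [Algebra K N] [IsGalois K N]
    (P : Type) [Fintype P] (ρ : (N ≃ₐ[K] N) →* Equiv.Perm P), (∀ x y : P, ∃ γ, ρ γ x = y) →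
    ∀ (W : Submodule (ZMod 2) (P → ZMod 2)), Stable ρ.range W → ∀ w ∈ W, ∀ x₀ : P,
    ∀ (b : 𝓞 (IntermediateField.fixedField (stbW ρ w) : IntermediateField K N))
      (a : 𝓞 (IntermediateField.fixedField (stb ρ x₀) : IntermediateField K N)),
    ((a : (IntermediateField.fixedField (stb ρ x₀) : IntermediateField K N)) : N) =
      Aprod W (vf ρ w ((b : (IntermediateField.fixedField (stbW ρ w) :
        IntermediateField K N)) : N)) x₀ →
    Ideal.absNorm (Ideal.span {a}) = Ideal.absNorm (Ideal.span {b}) ^ wt w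

end Pool.Agent.NH85.CE
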