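import Pool.Agent.NH85.CE.Idx

/-!
# The even permutations in `C₂ ≀ H`
-/

set_option autoImplicit false

namespace Pool.Agent.NH85.CE

open Pool.Agent.TH444.ML Pool.Agent.NH85.ML

/-- the words of even weight -/
def evenW (m : ℕ) : Submodule (ZMod 2) (Fin m → ZMod 2) where
  carrier := {w | ∑ x, w x = 0}
  zero_mem' := by simp
  add_mem' := by
    intro a b ha hb
    have ha' : ∑ x, a x = 0 := ha
    have hb' : ∑ x, b x = 0 := hb
    show ∑ x, (a + b) x = 0
    simp only [Pi.add_apply, Finset.sum_add_distrib, ha', hb', add_zero]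
  smul_mem' := by
    intro c a ha
    have ha' : ∑ x, a x = 0 := ha
    show ∑ x, (c • a) x = 0
    simp only [Pi.smul_apply, smul_eq_mul, ← Finset.mul_sum, ha', mul_zero]

theorem mem_evenW {m : ℕ} (w : Fin m → ZMod 2) : w ∈ evenW m ↔ ∑ x, w x = 0 := Iff.rfl

theorem sum_eq_card {m : ℕ} (w : Fin m → ZMod 2) :
    ∑ x, w x = ((Finset.univ.filter (fun x => w x ≠ 0)).card : ZMod 2) := by
  have key : ∀ a : ZMod 2, a = if a ≠ 0 then 1 else 0 := by decide
  rw [Finset.sum_congr rfl (fun x _ => key (w x)), Finset.sum_boole]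

theorem stable_evenW {m : ℕ} (H : Subgroup (Equiv.Perm (Fin m))) : Stable H (evenW m) := by
  intro h _ w hw
  rw [mem_evenW] at hw ⊢
  unfold trn
  rw [← hw]
  exact Equiv.sum_comp h⁻¹ w

theorem evenW_min {m : ℕ} (w : Fin m → ZMod 2) (hw : w ∈ evenW m) (hw0 : w ≠ 0) :
    2 ≤ (Finset.univ.filter (fun x => w x ≠ 0)).card := by
  rw [mem_evenW, sum_eq_card] at hw
  rw [ZMod.natCast_eq_zero_iff_even] at hw
  have h1 : (Finset.univ.filter (fun x => w x ≠ 0)).card ≠ 0 := by
    intro h
    rw [Finset.card_eq_zero, Finset.filter_eq_empty_iff] at h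
    apply hw0
    funext x
    have := h (Finset.mem_univ x)
    simpa using this
  obtain ⟨k, hk⟩ := hw
  omega

theorem evenW_two {m : ℕ} (hm : 2 ≤ m) : ∃ w ∈ evenW m, w ≠ 0 ∧
    (Finset.univ.filter (fun x => w x ≠ 0)).card = 2 := by
  let a : Fin m := ⟨0, by omega⟩
  let b : Fin m := ⟨1, by omega⟩
  have hab : a ≠ b := by
    intro h
    have := congrArg Fin.val h
    simp [a, b] at this
  let w : Fin m → ZMod 2 := fun x => if x = a ∨ x = b then 1 else 0
  have hf : Finset.univ.filter (fun x => w x ≠ 0) = {a, b} := by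
    ext x
    simp only [Finset.mem_filter, Finset.mem_univ, true_and, Finset.mem_insert,
      Finset.mem_singleton, w]
    by_cases h : x = a ∨ x = b <;> simp [h]
  have hcard : (Finset.univ.filter (fun x => w x ≠ 0)).card = 2 := by
    rw [hf, Finset.card_pair hab]
  refine ⟨w, ?_, ?_, hcard⟩
  · rw [mem_evenW, sum_eq_card, hcard]
    decide
  · intro h
    rw [h] at hcard
    simp at hcard

/-- the even permutations in `C₂ ≀ H` form the group `W ⋊ H`, `W` the code of the even words -/
theorem even_iff {m : ℕ} {H : Subgroup (Equiv.Perm (Fin m))} (π : Equiv.Perm (Fin m × Bool)) :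
    (Equiv.Perm.sign π = 1 ∧ ∃ h ∈ H, ∀ x, (π x).1 = h x.1) ↔
      π ∈ CodeG H (evenW m) (stable_evenW H) := by
  -- the sign of `(w, h)`
  have hsign : ∀ (h : Equiv.Perm (Fin m)) (w : Fin m → ZMod 2),
      (∀ x : Fin m × Bool, π x = (h x.1, xor x.2 (decide (w (h x.1) ≠ 0)))) →
      (Equiv.Perm.sign π = 1 ↔ w ∈ evenW m) := by
    intro h w hπ
    let τ : Fin m → Equiv.Perm Bool := fun x => if w (h x) ≠ 0 then Equiv.swap false true else 1
    have h1 : π = (Equiv.prodCongrLeft (fun _ : Bool => h)) * (Equiv.prodCongrRight τ) := by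
      ext1 ⟨x, b⟩
      rw [hπ, Equiv.Perm.mul_apply]
      simp only [Equiv.prodCongrRight_apply, Equiv.prodCongrLeft_apply, Prod.mk.injEq, true_and, τ]
      by_cases hx : w (h x) ≠ 0 <;> cases b <;> simp [hx]
    have h2 : Equiv.Perm.sign π = (-1) ^ (Finset.univ.filter (fun x => w x ≠ 0)).card := by
      rw [h1, Equiv.Perm.sign_mul, Equiv.Perm.sign_prodCongrLeft, Equiv.Perm.sign_prodCongrRight]
      rw [Fintype.prod_bool, Int.units_mul_self, one_mul]
      have h3 : ∀ x, Equiv.Perm.sign (τ x) = if w (h x) ≠ 0 then -1 else 1 := by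
        intro x
        by_cases hx : w (h x) ≠ 0
        · simp only [τ, if_pos hx]
          exact Equiv.Perm.sign_swap (by decide)
        · simp only [τ, if_neg hx]
          exact Equiv.Perm.sign_one
      rw [Finset.prod_congr rfl (fun x _ => h3 x),
        Equiv.prod_comp h (fun y => if w y ≠ 0 then (-1 : ℤˣ) else 1), Finset.prod_ite,
        Finset.prod_const, Finset.prod_const_one, mul_one]
    rw [h2, mem_evenW, sum_eq_card, ZMod.natCast_eq_zero_iff_even]
    constructor
    · intro h3
      by_contra h4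
      rw [Nat.not_even_iff_odd] at h4
      rw [h4.neg_one_pow] at h3
      exact absurd h3 (by decide)
    · intro h3
      exact h3.neg_one_pow
  constructor
  · rintro ⟨hs, h, hh, hx⟩
    let w : Fin m → ZMod 2 := fun y => if (π (h⁻¹ y, false)).2 then 1 else 0
    have hπ : ∀ x : Fin m × Bool, π x = (h x.1, xor x.2 (decide (w (h x.1) ≠ 0))) := by
      rintro ⟨x, b⟩
      have e1 : w (h x) = if (π (x, false)).2 then 1 else 0 := by
        change (if (π (h⁻¹ (h x), false)).2 then (1 : ZMod 2) else 0) = _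
        rw [inv_app]
      have e2 : decide (w (h x) ≠ 0) = (π (x, false)).2 := by
        rw [e1]
        cases (π (x, false)).2 <;> decide
      refine Prod.ext (hx _) ?_
      change (π (x, b)).2 = xor b (decide (w (h x) ≠ 0))
      rw [e2]
      cases b
      · simp
      · have h3 : (π (x, true)).2 ≠ (π (x, false)).2 := by
          intro h4
          have h5 : π (x, true) = π (x, false) := Prod.ext (by rw [hx, hx]) h4
          have h6 := π.injective h5
          simp at h6
        have key : ∀ a b : Bool, a ≠ b → a = xor true b := by decide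
        exact key _ _ h3
    exact ⟨h, hh, w, (hsign h w hπ).1 hs, hπ⟩
  · rintro ⟨h, hh, w, hw, hx⟩
    exact ⟨(hsign h w hx).2 hw, h, hh, fun x => by rw [hx]⟩

end Pool.Agent.NH85.CE
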