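import Pool.Agent.NH85.CE.Defs

/-!
# Equivariant families
-/

set_option autoImplicit false

open NumberField Filter Topology IntermediateField

namespace Pool.Agent.NH85.CE

section comb

variable {P : Type}

theorem trn_one (w : P → ZMod 2) : trn 1 w = w := rfl

theorem trn_mul (h k : Equiv.Perm P) (w : P → ZMod 2) : trn (h * k) w = trn h (trn k w) := by
  funext x
  simp only [trn, mul_inv_rev, Equiv.Perm.mul_apply]

theorem trn_app (h : Equiv.Perm P) (w : P → ZMod 2) (x : P) : trn h w (h x) = w x := by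
  simp only [trn, inv_app]

theorem trn_inv_trn (h : Equiv.Perm P) (w : P → ZMod 2) : trn h⁻¹ (trn h w) = w := by
  rw [← trn_mul, inv_mul_cancel, trn_one]

theorem trn_trn_inv (h : Equiv.Perm P) (w : P → ZMod 2) : trn h (trn h⁻¹ w) = w := by
  rw [← trn_mul, mul_inv_cancel, trn_one]

/-- translation as a permutation of the words -/
def trnE (h : Equiv.Perm P) : (P → ZMod 2) ≃ (P → ZMod 2) where
  toFun := trn h
  invFun := trn h⁻¹
  left_inv := trn_inv_trn h
  right_inv := trn_trn_inv h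

theorem stable_iff {H : Subgroup (Equiv.Perm P)} {W : Submodule (ZMod 2) (P → ZMod 2)}
    (hW : Stable H W) {h : Equiv.Perm P} (hh : h ∈ H) (u : P → ZMod 2) : trn h u ∈ W ↔ u ∈ W := by
  constructor
  · intro h1
    have h2 := hW _ (H.inv_mem hh) _ h1
    rwa [trn_inv_trn] at h2
  · exact hW h hh u

end comb

section alg

variable {P : Type} [Fintype P]

open Classical in
theorem Aprod_mul {R : Type} [CommMonoid R] (W : Submodule (ZMod 2) (P → ZMod 2))
    (β β' : (P → ZMod 2) → R) (x : P) :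
    Aprod W (fun u => β u * β' u) x = Aprod W β x * Aprod W β' x := by
  unfold Aprod
  rw [← Finset.prod_mul_distrib]
  refine Finset.prod_congr rfl fun u _ => ?_
  split_ifs
  · rfl
  · rw [one_mul]

open Classical in
theorem Aprod_map {R R' : Type} [CommMonoid R] [CommMonoid R'] (f : R →* R')
    (W : Submodule (ZMod 2) (P → ZMod 2)) (β : (P → ZMod 2) → R) (x : P) :
    f (Aprod W β x) = Aprod W (fun u => f (β u)) x := by
  unfold Aprod
  rw [map_prod]
  refine Finset.prod_congr rfl fun u _ => ?_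
  split_ifs
  · rfl
  · rw [map_one]

open Classical in
theorem Aprod_congr {R : Type} [CommMonoid R] (W : Submodule (ZMod 2) (P → ZMod 2))
    {β β' : (P → ZMod 2) → R} (h : ∀ u ∈ W, β u = β' u) (x : P) :
    Aprod W β x = Aprod W β' x := by
  unfold Aprod
  refine Finset.prod_congr rfl fun u _ => ?_
  split_ifs with h1
  · exact h u h1.1
  · rfl

open Classical in
theorem Aprod_ne_zero {R : Type} [CommRing R] [IsDomain R] (W : Submodule (ZMod 2) (P → ZMod 2))
    {β : (P → ZMod 2) → R} (h : ∀ u ∈ W, β u ≠ 0) (x : P) : Aprod W β x ≠ 0 := by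
  unfold Aprod
  rw [Finset.prod_ne_zero_iff]
  intro u _
  split_ifs with h1
  · exact h u h1.1
  · exact one_ne_zero

open Classical in
/-- the products are permuted -/
theorem Aprod_equiv {R : Type} [CommMonoid R] {H : Subgroup (Equiv.Perm P)}
    (W : Submodule (ZMod 2) (P → ZMod 2)) (hW : Stable H W) (β : (P → ZMod 2) → R)
    (f : R →* R) (h : Equiv.Perm P) (hh : h ∈ H) (hβ : ∀ u ∈ W, f (β u) = β (trn h u)) (x : P) :
    f (Aprod W β x) = Aprod W β (h x) := by
  unfold Aprod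
  rw [map_prod, ← Equiv.prod_comp (trnE h) (fun u => if u ∈ W ∧ u (h x) ≠ 0 then β u else 1)]
  refine Finset.prod_congr rfl fun u _ => ?_
  have e1 : (trnE h u ∈ W ∧ trnE h u (h x) ≠ 0) ↔ (u ∈ W ∧ u x ≠ 0) := by
    change (trn h u ∈ W ∧ trn h u (h x) ≠ 0) ↔ _
    rw [stable_iff hW hh, trn_app]
  by_cases h1 : u ∈ W ∧ u x ≠ 0
  · rw [if_pos h1, if_pos (e1.2 h1)]
    exact hβ u h1.1
  · rw [if_neg h1, if_neg (fun h2 => h1 (e1.1 h2)), map_one]

open Classical in
/-- the product of the products -/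
theorem Sprod_Aprod {R : Type} [CommMonoid R] (W : Submodule (ZMod 2) (P → ZMod 2))
    (β : (P → ZMod 2) → R) (S : P → ZMod 2) :
    Sprod S (Aprod W β) = ∏ u : P → ZMod 2, if u ∈ W then
      β u ^ (Finset.univ.filter (fun x => S x ≠ 0 ∧ u x ≠ 0)).card else 1 := by
  unfold Sprod Aprod
  have e1 : ∀ x, (if S x ≠ 0 then ∏ u : P → ZMod 2, (if u ∈ W ∧ u x ≠ 0 then β u else 1) else 1) =
      ∏ u : P → ZMod 2, if u ∈ W then (if S x ≠ 0 ∧ u x ≠ 0 then β u else 1) else 1 := by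
    intro x
    by_cases h : S x ≠ 0
    · rw [if_pos h]
      refine Finset.prod_congr rfl fun u _ => ?_
      by_cases h1 : u ∈ W <;> by_cases h2 : u x ≠ 0 <;> simp [h, h1, h2]
    · rw [if_neg h]
      symm
      refine Finset.prod_eq_one fun u _ => ?_
      by_cases h1 : u ∈ W <;> simp [h, h1]
  rw [Finset.prod_congr rfl (fun x _ => e1 x), Finset.prod_comm]
  refine Finset.prod_congr rfl fun u _ => ?_
  by_cases h1 : u ∈ W
  · simp only [if_pos h1]
    rw [Finset.prod_ite, Finset.prod_const, Finset.prod_const_one, mul_one]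
  · simp only [if_neg h1, Finset.prod_const_one]

open Classical in
/-- the parity of the number of common points -/
theorem inner_eq (S w : P → ZMod 2) :
    ∑ x, S x * w x = ((Finset.univ.filter (fun x => S x ≠ 0 ∧ w x ≠ 0)).card : ZMod 2) := by
  have key : ∀ a b : ZMod 2, a * b = if a ≠ 0 ∧ b ≠ 0 then 1 else 0 := by decide
  rw [Finset.sum_congr rfl (fun x _ => key (S x) (w x)), Finset.sum_boole]

end alg

section vf

variable {K N P : Type} [Field K] [Field N] [Algebra K N]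

theorem fixed_of_mem (ρ : (N ≃ₐ[K] N) →* Equiv.Perm P) (w : P → ZMod 2)
    (b : (IntermediateField.fixedField (stbW ρ w) : IntermediateField K N)) (γ : N ≃ₐ[K] N)
    (h : trn (ρ γ) w = w) : γ (b : N) = b :=
  b.2 ⟨γ, h⟩

theorem vf_trn (ρ : (N ≃ₐ[K] N) →* Equiv.Perm P) (w : P → ZMod 2)
    (b : (IntermediateField.fixedField (stbW ρ w) : IntermediateField K N)) (γ : N ≃ₐ[K] N) :
    vf ρ w (b : N) (trn (ρ γ) w) = γ (b : N) := by
  have h : ∃ δ : N ≃ₐ[K] N, trn (ρ δ) w = trn (ρ γ) w := ⟨γ, rfl⟩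
  unfold vf
  rw [dif_pos h]
  have h1 := h.choose_spec
  obtain ⟨δ, hδ⟩ : ∃ δ, δ = h.choose := ⟨_, rfl⟩
  rw [← hδ] at h1 ⊢
  have h2 : trn (ρ (γ⁻¹ * δ)) w = w := by
    rw [map_mul, trn_mul, h1, map_inv, trn_inv_trn]
  have h3 := fixed_of_mem ρ w b (γ⁻¹ * δ) h2
  have h4 : γ ((γ⁻¹ * δ) (b : N)) = γ (b : N) := by rw [h3]
  rw [← h4, ← AlgEquiv.mul_apply, mul_inv_cancel_left]

theorem vf_not (ρ : (N ≃ₐ[K] N) →* Equiv.Perm P) (w u : P → ZMod 2) (b : N)
    (h : ¬ ∃ δ : N ≃ₐ[K] N, trn (ρ δ) w = u) : vf ρ w b u = 1 := by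
  unfold vf
  rw [dif_neg h]

/-- the family of conjugates is equivariant -/
theorem vf_equiv (ρ : (N ≃ₐ[K] N) →* Equiv.Perm P) (w : P → ZMod 2)
    (b : (IntermediateField.fixedField (stbW ρ w) : IntermediateField K N)) (γ : N ≃ₐ[K] N)
    (u : P → ZMod 2) : γ (vf ρ w (b : N) u) = vf ρ w (b : N) (trn (ρ γ) u) := by
  by_cases h : ∃ δ : N ≃ₐ[K] N, trn (ρ δ) w = u
  · obtain ⟨δ, rfl⟩ := h
    rw [vf_trn, ← trn_mul, ← map_mul, vf_trn]
    rfl
  · rw [vf_not ρ w u b h, map_one, vf_not]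
    rintro ⟨δ, hδ⟩
    apply h
    refine ⟨γ⁻¹ * δ, ?_⟩
    rw [map_mul, trn_mul, hδ, map_inv, trn_inv_trn]

theorem vf_ne_zero (ρ : (N ≃ₐ[K] N) →* Equiv.Perm P) (w : P → ZMod 2) (b : N) (hb : b ≠ 0)
    (u : P → ZMod 2) : vf ρ w b u ≠ 0 := by
  unfold vf
  split_ifs with h
  · exact (map_ne_zero _).2 hb
  · exact one_ne_zero

theorem vf_cases (ρ : (N ≃ₐ[K] N) →* Equiv.Perm P) (w : P → ZMod 2) (b : N) (u : P → ZMod 2) :
    vf ρ w b u = 1 ∨ ∃ γ : N ≃ₐ[K] N, vf ρ w b u = γ b := by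
  unfold vf
  split_ifs with h
  · exact Or.inr ⟨_, rfl⟩
  · exact Or.inl rfl

end vf

end Pool.Agent.NH85.CE
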