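import Pool.Agent.NH85.ML.Weak

/-!
# Few extensions with group `H`: the bound `O(Z ^ (2 u ^ 2 |B| / |X|))`
-/

set_option autoImplicit false

open NumberField Filter Topology IntermediateField

namespace Pool.Agent.NH85.CE

open Pool.Agent.TH444.ML Pool.Agent.NH85.ML Pool.Agent.TH979.J3100
open Pool.Agent.TH228.J3101 (main)

section

variable {K Ω : Type} [Field K] [NumberField K] [Field Ω] [Algebra K Ω] [IsAlgClosure K Ω]
  {X : Type} [Finite X] {H : Subgroup (Equiv.Perm X)}

theorem few_key' (hc : CompDisc) (U : Subgroup H) (B : Finset X) (hU : U.normalCore = ⊥)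
    (hB : ∀ h ∈ H, (∀ x ∈ B, h x = x) → h = 1) (hBn : B.Nonempty) (M : IntermediateField K Ω)
    (hM : M ∈ GalX K Ω H) :
    ∃ F : IntermediateField K Ω, FiniteDimensional K F ∧ Module.finrank K F = U.index ∧
      normalClosure K F Ω = normalClosure K M Ω ∧
      dnF F ^ Nat.card X ≤ dnF M ^ (B.card * U.index) := by
  obtain ⟨hfd, e, he⟩ := hM
  obtain ⟨g⟩ := few_iso e he
  have hgal := few_gal K Ω
  have hac : IsAlgClosed Ω := IsAlgClosure.isAlgClosed K
  have hD : Module.finrank K M = Nat.card X := by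
    rw [← Nat.card_congr e, Nat.card_eq_fintype_card, AlgHom.card]
  obtain ⟨F, h1, h2, h3, h4, h5⟩ := main (normalClosure K M Ω) g U hU
  refine ⟨F, h1, h2, ?_, ?_⟩
  · exact h5 _ inferInstance (le_normalClosure F) (normalClosure_le_iff_of_normal.2 h3)
  · obtain ⟨-, h6⟩ := fewC_disc hc M e B hBn
    rw [fewC_eq e he B hB] at h6
    have h7 : Module.finrank K (normalClosure K M Ω) = U.index * Nat.card U := by
      rw [← IsGalois.card_aut_eq_finrank, Nat.card_congr g.toEquiv, Subgroup.index_mul_card]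
    have h8 : dnF F ^ Nat.card U ≤ dnF (normalClosure K M Ω) := by
      rw [dsc_dnF, dsc_dnF] at h4
      exact_mod_cast h4
    have h9 : (dnF F ^ Module.finrank K M) ^ Nat.card U ≤
        (dnF M ^ (B.card * U.index)) ^ Nat.card U := by
      calc (dnF F ^ Module.finrank K M) ^ Nat.card U
          = (dnF F ^ Nat.card U) ^ Module.finrank K M := by rw [← pow_mul, ← pow_mul, mul_comm]
        _ ≤ dnF (normalClosure K M Ω) ^ Module.finrank K M := Nat.pow_le_pow_left h8 _
        _ ≤ dnF M ^ (B.card * Module.finrank K (normalClosure K M Ω)) := h6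
        _ = _ := by rw [h7, ← pow_mul, mul_assoc]
    have h10 : dnF F ^ Module.finrank K M ≤ dnF M ^ (B.card * U.index) :=
      (Nat.pow_le_pow_iff_left Nat.card_pos.ne').1 h9
    rw [← hD]
    exact h10

theorem few_upper [Nonempty X] (U : Subgroup H) (B : Finset X) (hU : U.normalCore = ⊥)
    (hB : ∀ h ∈ H, (∀ x ∈ B, h x = x) → h = 1) :
    Upper K Ω H (2 * U.index ^ 2 * B.card / Nat.card X) := by
  classical
  have hgal := few_gal K Ω
  have hXpos : 0 < Nat.card X := Nat.card_pos
  rcases B.eq_empty_or_nonempty with hBe | hBn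
  · subst hBe
    refine ⟨1, zero_le_one, fun Z hZ => ?_⟩
    have h0 : TTX K Ω H Z ⊆ {⊥} := by
      rintro M ⟨⟨hfd, e, he⟩, -⟩
      have h2 := fewC_eq e he ∅ hB
      have h3 : fewC e ∅ = ⊥ := by
        unfold fewC
        simp
      rw [h3] at h2
      rw [Set.mem_singleton_iff, eq_bot_iff, h2]
      exact le_normalClosure M
    have h1 : (TTX K Ω H Z).ncard ≤ 1 := by
      refine (Set.ncard_le_ncard h0 (Set.finite_singleton _)).trans ?_
      rw [Set.ncard_singleton]
    rw [Finset.card_empty]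
    norm_num
    exact_mod_cast h1
  obtain ⟨C, hC⟩ := hermiteRel K Ω U.index
  have key := fun M : GalX K Ω H => few_key' compDisc U B hU hB hBn M.1 M.2
  choose F hfd hfr hN hdsc using key
  have hfib : ∀ (s : Finset (GalX K Ω H)) (F0 : IntermediateField K Ω),
      (∀ M ∈ s, F M = F0) → s.card ≤ Nat.card (Subgroup H) := by
    intro s F0 hs
    rcases s.eq_empty_or_nonempty with h0 | ⟨M0, hM0⟩
    · rw [h0, Finset.card_empty]
      exact Nat.zero_le _
    · obtain ⟨hfd0, e0, he0⟩ := M0.2
      obtain ⟨g0⟩ := few_iso e0 he0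
      have h1 := few_fib (normalClosure K M0.1 Ω) g0 (s.map ⟨Subtype.val, Subtype.val_injective⟩)
        (fun M' hM' => by
          rw [Finset.mem_map] at hM'
          obtain ⟨M, hM, rfl⟩ := hM'
          change M.1 ≤ _
          have h2 : normalClosure K M.1 Ω = normalClosure K M0.1 Ω := by
            rw [← hN M, ← hN M0, hs M hM, hs M0 hM0]
          rw [← h2]
          exact le_normalClosure M.1)
      rwa [Finset.card_map] at h1
  refine ⟨Nat.card (Subgroup H) * |C|, by positivity, fun Z hZ => ?_⟩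
  have hZ0 : (0 : ℝ) < Z := by linarith
  have hfin := TTX_finite (K := K) (Ω := Ω) H Z
  have hmem : ∀ M ∈ hfin.toFinset, M ∈ GalX K Ω H := by
    intro M hMm
    rw [Set.Finite.mem_toFinset] at hMm
    exact hMm.1
  let j : {x // x ∈ hfin.toFinset} → GalX K Ω H := fun M => ⟨M.1, hmem M.1 M.2⟩
  have hj : Function.Injective j := fun x y hxy =>
    Subtype.ext (congrArg (fun z : GalX K Ω H => z.1) hxy)
  set s : Finset (GalX K Ω H) := hfin.toFinset.attach.map ⟨j, hj⟩ with hs
  have hscard : (TTX K Ω H Z).ncard = s.card := by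
    rw [hs, Finset.card_map, Finset.card_attach, Set.ncard_eq_toFinset_card _ hfin]
  have hsZ : ∀ M ∈ s, dsc M.1 ≤ Z := by
    intro M hM
    rw [hs, Finset.mem_map] at hM
    obtain ⟨M', -, rfl⟩ := hM
    exact (hfin.mem_toFinset.1 M'.2).2
  set T : ℝ := Z ^ ((B.card * U.index : ℕ) / (Nat.card X : ℝ) : ℝ) with hT
  have hT1 : 1 ≤ T := Real.one_le_rpow hZ (by positivity)
  have hFT : ∀ M ∈ s, dsc (F M) ≤ T := by
    intro M hM
    have h1 := hdsc M
    have h2 := hsZ M hM
    have h3 : (dsc (F M)) ^ (Nat.card X) ≤ Z ^ (B.card * U.index) := by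
      rw [dsc_dnF] at h2 ⊢
      have h4 : (dnF (F M) : ℝ) ^ (Nat.card X) ≤ (dnF M.1 : ℝ) ^ (B.card * U.index) := by
        exact_mod_cast h1
      exact h4.trans (pow_le_pow_left₀ (Nat.cast_nonneg _) h2 _)
    have h5 : T ^ (Nat.card X) = Z ^ (B.card * U.index) := by
      rw [hT, ← Real.rpow_natCast, ← Real.rpow_mul hZ0.le, div_mul_cancel₀ _ (by positivity),
        Real.rpow_natCast]
    rw [← h5] at h3
    exact (pow_le_pow_iff_left₀ (by have := one_le_dsc (F M); linarith) (by linarith)
      hXpos.ne').1 h3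
  obtain ⟨hfinF, hle⟩ := hC T hT1
  have h0 : s.card ≤ Nat.card (Subgroup H) * (s.image F).card := by
    refine Finset.card_le_mul_card_image s _ fun F0 _ => hfib _ F0 fun M hM => ?_
    exact (Finset.mem_filter.1 hM).2
  have h1 : (s.image F).card ≤ Set.ncard {F : IntermediateField K Ω |
      FiniteDimensional K F ∧ Module.finrank K F = U.index ∧ dsc F ≤ T} := by
    rw [← Set.ncard_coe_finset]
    refine Set.ncard_le_ncard ?_ hfinF
    intro x hx
    rw [Finset.mem_coe, Finset.mem_image] at hx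
    obtain ⟨M, hM, rfl⟩ := hx
    exact ⟨hfd M, hfr M, hFT M hM⟩
  have hT2 : T ^ (2 * U.index) = Z ^ (2 * U.index ^ 2 * B.card / Nat.card X : ℝ) := by
    rw [hT, ← Real.rpow_natCast, ← Real.rpow_mul hZ0.le]
    congr 1
    push_cast
    ring
  calc ((TTX K Ω H Z).ncard : ℝ) = s.card := by rw [hscard]
    _ ≤ ((Nat.card (Subgroup H) * (s.image F).card : ℕ) : ℝ) := by exact_mod_cast h0
    _ = (Nat.card (Subgroup H) : ℝ) * ((s.image F).card : ℝ) := by push_cast; ring
    _ ≤ Nat.card (Subgroup H) * (|C| * T ^ (2 * U.index)) := by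
        refine mul_le_mul_of_nonneg_left ?_ (Nat.cast_nonneg _)
        refine le_trans ?_ (hle.trans ?_)
        · exact_mod_cast h1
        · exact mul_le_mul_of_nonneg_right (le_abs_self C) (by positivity)
    _ = _ := by rw [hT2]; ring

end

end Pool.Agent.NH85.CE
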