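import Pool.Agent.NH85.CE.Defs
import Pool.Agent.TH444.ML.Perm

/-!
# The minimal index of `W ⋊ H`
-/

set_option autoImplicit false

namespace Pool.Agent.NH85.CE

open Pool.Agent.TH444.ML Pool.Agent.NH85.ML

theorem card_supp_le {n : ℕ} (g : Equiv.Perm (Fin n)) : g.support.card ≤ 2 * ind g := by
  have h1 := two_card_le g
  have h2 := Equiv.Perm.sum_cycleType g
  unfold ind
  omega

theorem card_supp_eq {n : ℕ} (g : Equiv.Perm (Fin n)) (hg : g ^ 2 = 1) :
    g.support.card = 2 * ind g := by
  by_cases h1 : g = 1
  · subst h1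
    simp [ind]
  · have h2 : orderOf g = 2 := orderOf_eq_prime hg h1
    obtain ⟨k, hk⟩ := Equiv.Perm.cycleType_prime_order (σ := g) (by rw [h2]; exact Nat.prime_two)
    have h3 := Equiv.Perm.sum_cycleType g
    unfold ind
    rw [← h3, hk, h2]
    simp
    omega

theorem supp_equiv {n : ℕ} {Q : Type} [Fintype Q] [DecidableEq Q] (f : Fin n ≃ Q)
    (g : Equiv.Perm (Fin n)) :
    g.support.card = (Finset.univ.filter (fun q : Q => f.permCongr g q ≠ q)).card := by
  refine Finset.card_equiv f fun i => ?_
  rw [Equiv.Perm.mem_support, Finset.mem_filter]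
  simp only [Finset.mem_univ, true_and, Equiv.permCongr_apply, Equiv.symm_apply_apply, ne_eq,
    f.injective.eq_iff]

section

variable {m : ℕ} {H : Subgroup (Equiv.Perm (Fin m))}
  {W : Submodule (ZMod 2) (Fin m → ZMod 2)}

theorem wt_card (w : Fin m → ZMod 2) : wt w = (Finset.univ.filter (fun x => w x ≠ 0)).card := by
  unfold wt
  rw [Set.ncard_eq_toFinset_card']
  congr 1
  ext x
  simp

theorem card_prod_bool (S : Finset (Fin m)) :
    (Finset.univ.filter (fun q : Fin m × Bool => q.1 ∈ S)).card = 2 * S.card := by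
  have : Finset.univ.filter (fun q : Fin m × Bool => q.1 ∈ S) = S ×ˢ (Finset.univ : Finset Bool) := by
    ext q
    simp
  rw [this, Finset.card_product, mul_comm]
  simp

theorem least_code {d : ℕ} (hW : Stable H W) (G : Subgroup (Equiv.Perm (Fin d)))
    (f : Fin d ≃ Fin m × Bool) (hf : ∀ π : Equiv.Perm (Fin d), π ∈ G ↔ f.permCongr π ∈ CodeG H W hW)
    (δ : ℕ) (hδ : 1 ≤ δ) (w : Fin m → ZMod 2) (hw : w ∈ W) (hwδ : wt w = δ)
    (hmin : ∀ w ∈ W, w ≠ 0 → δ ≤ wt w) (hmov : ∀ h ∈ H, h ≠ 1 → δ ≤ h.support.card) :
    IsLeast {k : ℕ | ∃ g ∈ G, g ≠ 1 ∧ k = ind g} δ := by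
  classical
  constructor
  · let σ : Fin m × Bool → Fin m × Bool := fun x => (x.1, xor x.2 (decide (w x.1 ≠ 0)))
    have hσ : Function.Involutive σ := by
      rintro ⟨x, b⟩
      change (x, xor (xor b (decide (w x ≠ 0))) (decide (w x ≠ 0))) = (x, b)
      rw [Bool.xor_assoc, Bool.xor_self, Bool.xor_false]
    let π : Equiv.Perm (Fin m × Bool) := hσ.toPerm σ
    have hπ : π ∈ CodeG H W hW := ⟨1, H.one_mem, w, hw, fun x => rfl⟩
    obtain ⟨g, hg⟩ : ∃ g : Equiv.Perm (Fin d), f.permCongr g = π :=
      ⟨f.permCongr.symm π, Equiv.apply_symm_apply _ _⟩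
    have hgG : g ∈ G := by rw [hf, hg]; exact hπ
    have hsupp : g.support.card = 2 * δ := by
      rw [supp_equiv f g, hg, ← hwδ, wt_card, ← card_prod_bool]
      congr 1
      ext ⟨x, b⟩
      simp only [Finset.mem_filter, Finset.mem_univ, true_and]
      change (x, xor b (decide (w x ≠ 0))) ≠ (x, b) ↔ w x ≠ 0
      by_cases h : w x ≠ 0 <;> cases b <;> simp [h]
    have hg2 : g ^ 2 = 1 := by
      have h1 : f.permCongr (g ^ 2) = 1 := by
        have h2 : π ^ 2 = 1 := by
          rw [sq]
          exact Equiv.ext fun x => hσ x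
        rw [← h2, ← hg]
        ext x <;> simp [sq]
      have h3 : f.permCongr (g ^ 2) = f.permCongr 1 := by
        rw [h1]
        ext x <;> simp
      exact f.permCongr.injective h3
    refine ⟨g, hgG, ?_, ?_⟩
    · rintro rfl
      simp at hsupp
      omega
    · have := card_supp_eq g hg2
      omega
  · rintro k ⟨g, hgG, hg1, rfl⟩
    have h1 := card_supp_le g
    have h2 : 2 * δ ≤ g.support.card := by
      rw [supp_equiv f g]
      obtain ⟨h, hh, w', hw', hx⟩ := (hf g).1 hgG
      by_cases hh1 : h = 1
      · subst hh1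
        have hw0 : w' ≠ 0 := by
          rintro rfl
          apply hg1
          apply f.permCongr.injective
          ext x
          · rw [hx x]; simp
          · rw [hx x]; simp
        have h3 := hmin w' hw' hw0
        rw [wt_card] at h3
        calc 2 * δ ≤ 2 * (Finset.univ.filter (fun x => w' x ≠ 0)).card := by omega
          _ = _ := (card_prod_bool _).symm
          _ ≤ _ := by
            refine Finset.card_le_card ?_
            rintro ⟨x, b⟩ hxb
            simp only [Finset.mem_filter, Finset.mem_univ, true_and] at hxb ⊢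
            rw [hx]
            simp only [Equiv.Perm.one_apply]
            cases b <;> simp [hxb]
      · have h3 := hmov h hh hh1
        calc 2 * δ ≤ 2 * h.support.card := by omega
          _ = _ := (card_prod_bool _).symm
          _ ≤ _ := by
            refine Finset.card_le_card ?_
            rintro ⟨x, b⟩ hxb
            simp only [Finset.mem_filter, Finset.mem_univ, true_and, Equiv.Perm.mem_support]
              at hxb ⊢
            rw [hx]
            intro h4
            exact hxb (congrArg Prod.fst h4)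
    omega

end

end Pool.Agent.NH85.CE
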