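import Pool.Agent.TH914.J3087
import Pool.Agent.TH263.J3086

/-!
# Quadratic extensions
-/

set_option autoImplicit false

open NumberField IntermediateField

namespace Pool.Agent.NH85.CE

open Pool.Agent.TH444.ML

/-- the discriminant of `M(√α)` -/
theorem disc_le (M L : Type) [Field M] [NumberField M] [Field L] [NumberField L] [Algebra M L]
    (h2 : Module.finrank M L = 2) (α : 𝓞 M) (hα : α ≠ 0) (s : L)
    (hs : s ^ 2 = algebraMap M L (α : M)) (hns : ∀ x : M, algebraMap M L x ≠ s) :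
    (discr L).natAbs ≤ 4 ^ Module.finrank ℚ M * (discr M).natAbs ^ 2 *
      Ideal.absNorm (Ideal.span {α}) := by
  obtain ⟨k, hk⟩ := Pool.Agent.TH263.J3086.discQuad M
  have hspan0 : Ideal.span {α} ≠ ⊥ := by
    rw [Ne, Ideal.span_singleton_eq_bot]
    exact hα
  obtain ⟨𝔡, 𝔠, hsf, hspan⟩ := Pool.Agent.TH914.J3087.exists_sqf (Ideal.span {α}) hspan0
  have h3 := hk.disc L s α 𝔡 𝔠 h2 hs hns hα hsf hspan
  have h𝔠 : 𝔠 ≠ ⊥ := by
    rintro rfl
    apply hspan0
    rw [hspan, ← Ideal.zero_eq_bot, zero_pow (by norm_num), mul_zero]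
  have h4 := hk.pos 𝔠 α h𝔠
  have h5 : Ideal.absNorm 𝔠 ≠ 0 := by
    rw [Ne, Ideal.absNorm_eq_zero_iff]
    exact h𝔠
  calc (discr L).natAbs = (discr L).natAbs * 1 ^ 2 := by ring
    _ ≤ (discr L).natAbs * (k 𝔠 α) ^ 2 := Nat.mul_le_mul_left _ (Nat.pow_le_pow_left h4 2)
    _ = 4 ^ Module.finrank ℚ M * (discr M).natAbs ^ 2 * Ideal.absNorm 𝔡 := h3
    _ ≤ 4 ^ Module.finrank ℚ M * (discr M).natAbs ^ 2 * (Ideal.absNorm 𝔡 * Ideal.absNorm 𝔠 ^ 2) :=
        Nat.mul_le_mul_left _ (Nat.le_mul_of_pos_right _ (by positivity))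
    _ = _ := by rw [hspan, map_mul, map_pow]

/-- if `M(s) = M(s')` then `s s' ∈ M` -/
theorem kum_mul {K Ω : Type} [Field K] [Field Ω] [Algebra K Ω] [CharZero K]
    (M : IntermediateField K Ω) (a a' : M) (s s' : Ω) (hs : s ^ 2 = (a : Ω))
    (hs' : s' ^ 2 = (a' : Ω)) (hsM : s ∉ M) (hsM' : s' ∉ M)
    (h : M ⊔ adjoin K {s} = M ⊔ adjoin K {s'}) : s * s' ∈ M := by
  have hsup : ∀ t : Ω, M ⊔ adjoin K {t} = (adjoin M {t}).restrictScalars K := by
    intro t
    rw [IntermediateField.restrictScalars_adjoin, IntermediateField.adjoin_union,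
      IntermediateField.adjoin_self]
  have h1 : s' ∈ adjoin M {s} := by
    have h2 : s' ∈ M ⊔ adjoin K {s} := by
      rw [h]
      exact (le_sup_right : adjoin K {s'} ≤ _) (mem_adjoin_simple_self K s')
    rw [hsup] at h2
    exact h2
  obtain ⟨x, y, hxy⟩ := Pool.Agent.TH914.J3087.mem_adjoin (M := M) (E := Ω) (a := a) hs h1
  have hxy' : s' = (x : Ω) + (y : Ω) * s := hxy
  have hchar : CharZero Ω := charZero_of_injective_algebraMap (algebraMap K Ω).injective
  by_cases hx : (x : Ω) = 0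
  · rw [hxy', hx, zero_add, mul_comm, mul_assoc, ← sq, hs]
    exact mul_mem y.2 a.2
  · by_cases hy : (y : Ω) = 0
    · exfalso
      apply hsM'
      rw [hxy', hy, zero_mul, add_zero]
      exact x.2
    · exfalso
      apply hsM
      have h3 : s = ((a' : Ω) - (x : Ω) ^ 2 - (y : Ω) ^ 2 * (a : Ω)) / (2 * (x : Ω) * (y : Ω)) := by
        rw [eq_div_iff (mul_ne_zero (mul_ne_zero two_ne_zero hx) hy)]
        rw [← hs, ← hs', hxy']
        ring
      rw [h3]
      exact div_mem (sub_mem (sub_mem a'.2 (pow_mem x.2 2)) (mul_mem (pow_mem y.2 2) a.2))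
        (mul_mem (mul_mem (by exact_mod_cast IntermediateField.natCast_mem M 2) x.2) y.2)

end Pool.Agent.NH85.CE
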