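import Pool.Agent.NH85.CE.Low1

/-!
# The lower bound for `W ⋊ H`
-/

set_option autoImplicit false

open NumberField Filter Topology IntermediateField

namespace Pool.Agent.NH85.CE

open Pool.Agent.TH444.ML Pool.Agent.NH85.ML
open Pool.Agent.TH9.J3098 (v v_mul)

theorem lower_core (hE : S_E) (hF : S_F) (hG : S_G) (hI : S_I) (hJ : S_J)
    {K Ω : Type} [Field K] [NumberField K] [Field Ω] [Algebra K Ω] [IsAlgClosure K Ω]
    (N : IntermediateField K Ω) [FiniteDimensional K N] [IsGalois K N] {P : Type} [Fintype P]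
    (ρ : (N ≃ₐ[K] N) →* Equiv.Perm P) (hinj : Function.Injective ρ)
    (htr : ∀ x y : P, ∃ γ, ρ γ x = y) (W : Submodule (ZMod 2) (P → ZMod 2))
    (hW : Stable ρ.range W) (w : P → ZMod 2) (hw : w ∈ W) (hw0 : w ≠ 0) (D : ℝ) (hD : 0 < D) :
    ∃ c : ℝ, 0 < c ∧ ∀ᶠ X : ℝ in atTop, c * X ^ (1 / (wt w : ℝ)) ≤
      Set.ncard (TTX K Ω (CodeG ρ.range W hW) (X * D)) := by
  classical
  have hac : IsAlgClosed Ω := IsAlgClosure.isAlgClosed K
  have hnN : NumberField N := nf_of_fd N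
  obtain ⟨x₀, hx₀⟩ : ∃ x₀, w x₀ ≠ 0 := by
    by_contra h
    push Not at h
    exact hw0 (funext h)
  have hwt : 0 < wt w := by
    unfold wt
    rw [Set.ncard_pos (Set.toFinite _)]
    exact ⟨x₀, hx₀⟩
  have hWne : W ≠ ⊥ := by
    rintro rfl
    exact hw0 ((Submodule.mem_bot _).1 hw)
  obtain ⟨rep, hrep0, hrep⟩ :=
    exists_cls (IntermediateField.fixedField (stbW ρ w) : IntermediateField K N)
  obtain ⟨Tr, hTr⟩ := exists_ram K N
  -- the primes below the representatives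
  obtain ⟨Tp, hTp⟩ : ∃ Tp : Finset (Ideal (𝓞 K)), ∀ C (q : Ideal
      (𝓞 (IntermediateField.fixedField (stbW ρ w) : IntermediateField K N))),
      q.IsPrime → q ∣ rep C → q.under (𝓞 K) ∈ Tp := by
    refine ⟨(Finset.univ : Finset (ClassGroup (𝓞 (IntermediateField.fixedField (stbW ρ w) :
      IntermediateField K N)))).biUnion (fun C =>
      (UniqueFactorizationMonoid.normalizedFactors (rep C)).toFinset.image
        (fun q => q.under (𝓞 K))), ?_⟩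
    intro C q hq hqC
    rw [Finset.mem_biUnion]
    refine ⟨C, Finset.mem_univ _, ?_⟩
    rw [Finset.mem_image]
    refine ⟨q, ?_, rfl⟩
    rw [Multiset.mem_toFinset]
    exact (Ideal.mem_normalizedFactors_iff (hrep0 C)).2 ⟨hq, Ideal.dvd_iff_le.1 hqC⟩
  obtain ⟨β0, Q, hβ0, hβeq, hQ⟩ := hG K N P ρ W hW (Tr ∪ Tp)
  obtain ⟨T1, hT1⟩ : ∃ T1 : Finset (Ideal (𝓞 K)), T1 = (Tr ∪ Tp) ∪
    (Finset.univ : Finset (P → ZMod 2)).image (fun u => (Q u).under (𝓞 K)) := ⟨_, rfl⟩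
  have hT1p : ∀ C (q : Ideal
      (𝓞 (IntermediateField.fixedField (stbW ρ w) : IntermediateField K N))),
      q.IsPrime → q ∣ rep C → q.under (𝓞 K) ∈ T1 := by
    intro C q hq hqC
    rw [hT1]
    exact Finset.mem_union_left _ (Finset.mem_union_right _ (hTp C q hq hqC))
  have hT1r : ∀ p : Ideal (𝓞 K), p.IsPrime → p ≠ ⊥ → p ∉ T1 → ∀ Q ∈ p.primesOver (𝓞 N),
      Ideal.ramificationIdx' p Q = 1 := by
    intro p hp hp0 hpT
    refine hTr p hp hp0 (fun h => hpT ?_)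
    rw [hT1]
    exact Finset.mem_union_left _ (Finset.mem_union_left _ h)
  have hT1Q : ∀ u, (Q u).under (𝓞 K) ∈ T1 := by
    intro u
    rw [hT1]
    exact Finset.mem_union_right _ (Finset.mem_image_of_mem _ (Finset.mem_univ u))
  obtain ⟨c, hc, hdens⟩ := hE K (IntermediateField.fixedField (stbW ρ w) : IntermediateField K N) T1
  -- the data of an ideal
  have hdat : ∀ 𝔡 : Ideal (𝓞 (IntermediateField.fixedField (stbW ρ w) : IntermediateField K N)),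
      ∃ (C : ClassGroup (𝓞 (IntermediateField.fixedField (stbW ρ w) : IntermediateField K N)))
        (b : 𝓞 (IntermediateField.fixedField (stbW ρ w) : IntermediateField K N)),
        𝔡 ≠ ⊥ → Ideal.span {b} = 𝔡 * rep C := by
    intro 𝔡
    by_cases h : 𝔡 = ⊥
    · exact ⟨1, 0, fun h1 => absurd h h1⟩
    · obtain ⟨C, b, h1⟩ := hrep 𝔡 h
      exact ⟨C, b, fun _ => h1⟩
  choose C b hCb using hdat
  have hvf : ∀ (𝔡 : Ideal (𝓞 (IntermediateField.fixedField (stbW ρ w) : IntermediateField K N)))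
      (u : P → ZMod 2), ∃ y : 𝓞 N, (y : N) = vf ρ w (((b 𝔡 :
        (IntermediateField.fixedField (stbW ρ w) : IntermediateField K N)) : N)) u := by
    intro 𝔡 u
    rcases vf_cases ρ w (((b 𝔡 : (IntermediateField.fixedField (stbW ρ w) :
      IntermediateField K N)) : N)) u with h1 | ⟨γ, h1⟩
    · exact ⟨1, by rw [h1]; rfl⟩
    · let f : (IntermediateField.fixedField (stbW ρ w) : IntermediateField K N) →ₐ[K] N :=
        γ.toAlgHom.comp (IntermediateField.fixedField (stbW ρ w) : IntermediateField K N).val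
      refine ⟨RingOfIntegers.mapRingHom f.toRingHom (b 𝔡), ?_⟩
      rw [h1]
      rfl
  choose bu hbu using hvf
  have hGood0 : ∀ 𝔡 ∈ Good K (IntermediateField.fixedField (stbW ρ w) : IntermediateField K N) T1,
      𝔡 ≠ ⊥ := by
    intro 𝔡 h𝔡
    exact h𝔡.1.ne_zero
  have hb0 : ∀ 𝔡 ∈ Good K (IntermediateField.fixedField (stbW ρ w) : IntermediateField K N) T1,
      b 𝔡 ≠ 0 := by
    intro 𝔡 h𝔡 h
    have h1 := hCb 𝔡 (hGood0 𝔡 h𝔡)
    rw [h, Ideal.span_singleton_zero, ← Ideal.zero_eq_bot] at h1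
    rcases mul_eq_zero.1 h1.symm with h2 | h2
    · exact hGood0 𝔡 h𝔡 h2
    · exact hrep0 _ h2
  have hbN0 : ∀ 𝔡 ∈ Good K (IntermediateField.fixedField (stbW ρ w) : IntermediateField K N) T1,
      ((b 𝔡 : (IntermediateField.fixedField (stbW ρ w) : IntermediateField K N)) : N) ≠ 0 := by
    intro 𝔡 h𝔡 h
    exact hb0 𝔡 h𝔡 (RingOfIntegers.ext (Subtype.ext h))
  have hbu0 : ∀ 𝔡 ∈ Good K (IntermediateField.fixedField (stbW ρ w) : IntermediateField K N) T1,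
      ∀ u, bu 𝔡 u ≠ 0 := by
    intro 𝔡 h𝔡 u h
    have h1 := hbu 𝔡 u
    rw [h] at h1
    exact vf_ne_zero ρ w _ (hbN0 𝔡 h𝔡) u h1.symm
  have hbueq : ∀ 𝔡, ∀ (γ : N ≃ₐ[K] N), ∀ u, γ (bu 𝔡 u : N) = (bu 𝔡 (trn (ρ γ) u) : N) := by
    intro 𝔡 γ u
    rw [hbu, hbu, vf_equiv]
  -- the family
  obtain ⟨β, hβdef⟩ : ∃ β : Ideal (𝓞 (IntermediateField.fixedField (stbW ρ w) :
      IntermediateField K N)) → (P → ZMod 2) → 𝓞 N, ∀ 𝔡 u, β 𝔡 u = β0 u * bu 𝔡 u :=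
    ⟨fun 𝔡 u => β0 u * bu 𝔡 u, fun _ _ => rfl⟩
  have hβN : ∀ 𝔡 u, ((β 𝔡 u : 𝓞 N) : N) = (β0 u : N) * (bu 𝔡 u : N) := by
    intro 𝔡 u
    rw [hβdef]
    rfl
  have hβne : ∀ 𝔡 ∈ Good K (IntermediateField.fixedField (stbW ρ w) : IntermediateField K N) T1,
      ∀ u ∈ W, β 𝔡 u ≠ 0 := by
    intro 𝔡 h𝔡 u hu
    rw [hβdef]
    exact mul_ne_zero (hβ0 u hu) (hbu0 𝔡 h𝔡 u)
  have hβequiv : ∀ 𝔡, ∀ (γ : N ≃ₐ[K] N), ∀ u ∈ W, γ (β 𝔡 u : N) = (β 𝔡 (trn (ρ γ) u) : N) := by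
    intro 𝔡 γ u hu
    rw [hβN, hβN, map_mul, hβeq γ u hu, hbueq]
  have hval : ∀ 𝔡 ∈ Good K (IntermediateField.fixedField (stbW ρ w) : IntermediateField K N) T1,
      ∀ u ∈ W, ∀ u' ∈ W, Odd (v (Q u) (Ideal.span {β 𝔡 u'})) ↔ u' = u := by
    intro 𝔡 h𝔡 u hu u' hu'
    obtain ⟨hQp, hQ0, hQT, hQodd⟩ := hQ u hu
    have h1 : v (Q u) (Ideal.span {bu 𝔡 u'}) = 0 := by
      refine v_vf_zero ρ w (b 𝔡) (hb0 𝔡 h𝔡) (Q u) hQp ?_ u' (bu 𝔡 u') (hbu 𝔡 u')
      intro q hq hqb hqQ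
      rw [hCb 𝔡 (hGood0 𝔡 h𝔡)] at hqb
      have hqprime : Prime q := by
        refine Ideal.prime_of_isPrime ?_ hq
        rintro rfl
        have h2 : (⊥ : Ideal (𝓞 (IntermediateField.fixedField (stbW ρ w) :
          IntermediateField K N))) ∣ 𝔡 * rep (C 𝔡) := hqb
        rw [← Ideal.zero_eq_bot, zero_dvd_iff] at h2
        rcases mul_eq_zero.1 h2 with h3 | h3
        · exact hGood0 𝔡 h𝔡 h3
        · exact hrep0 _ h3
      rcases hqprime.dvd_or_dvd hqb with h2 | h2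
      · have h3 := (h𝔡.2 q hq h2).2.1
        rw [hqQ] at h3
        exact h3 (hT1Q u)
      · apply hQT
        rw [← hqQ]
        exact Finset.mem_union_right _ (hTp _ q hq h2)
    rw [← hQodd u' hu', hβdef, ← Ideal.span_singleton_mul_span_singleton, v_mul, h1, add_zero]
    · rw [Ne, Ideal.span_singleton_eq_bot]
      exact hβ0 u' hu'
    · rw [Ne, Ideal.span_singleton_eq_bot]
      exact hbu0 𝔡 h𝔡 u'
  -- square roots
  have hroot : ∀ 𝔡, ∃ s : Ω, s ^ 2 = ((Aprod W (fun u => ((β 𝔡 u : 𝓞 N) : N)) x₀ : N) : Ω) := by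
    intro 𝔡
    obtain ⟨s, hs⟩ := IsAlgClosed.exists_pow_nat_eq
      ((Aprod W (fun u => ((β 𝔡 u : 𝓞 N) : N)) x₀ : N) : Ω) (n := 2) (by norm_num)
    exact ⟨s, hs⟩
  choose s hs using hroot
  obtain ⟨M, hM⟩ : ∃ M : IntermediateField K Ω,
    M = IntermediateField.lift (IntermediateField.fixedField (stb ρ x₀)) := ⟨_, rfl⟩
  have hFd : ∀ 𝔡 ∈ Good K (IntermediateField.fixedField (stbW ρ w) : IntermediateField K N) T1,
      M ∈ GalX K Ω ρ.range ∧ ((Aprod W (fun u => ((β 𝔡 u : 𝓞 N) : N)) x₀ : N) : Ω) ∈ M ∧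
      s 𝔡 ∉ M ∧ M ⊔ IntermediateField.adjoin K {s 𝔡} ∈ GalX K Ω (CodeG ρ.range W hW) ∧
      Module.finrank K (M ⊔ IntermediateField.adjoin K {s 𝔡} : IntermediateField K Ω) =
        2 * Module.finrank K M := by
    intro 𝔡 h𝔡
    refine hF K Ω N P ρ hinj htr W hW hWne (fun u => ((β 𝔡 u : 𝓞 N) : N)) ?_ ?_ ?_ x₀ M hM (s 𝔡)
      (hs 𝔡)
    · intro u hu h
      exact hβne 𝔡 h𝔡 u hu (RingOfIntegers.ext h)
    · exact hβequiv 𝔡
    · intro S hS
      exact val_cond W (β 𝔡) (hβne 𝔡 h𝔡) Q (hval 𝔡 h𝔡) S hS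
  -- the elements of `M'`
  have hmk : ∀ (δ : (P → ZMod 2) → 𝓞 N),
      (∀ (γ : N ≃ₐ[K] N), ∀ u ∈ W, γ (δ u : N) = (δ (trn (ρ γ) u) : N)) →
      ∃ a : 𝓞 (IntermediateField.fixedField (stb ρ x₀) : IntermediateField K N),
        ((a : (IntermediateField.fixedField (stb ρ x₀) : IntermediateField K N)) : N) =
          Aprod W (fun u => ((δ u : 𝓞 N) : N)) x₀ := by
    intro δ hδ
    have h1 := fix_mem ρ W hW (fun u => ((δ u : 𝓞 N) : N)) hδ x₀
    have h2 : ((Aprod W δ x₀ : 𝓞 N) : N) = Aprod W (fun u => ((δ u : 𝓞 N) : N)) x₀ :=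
      Aprod_map (algebraMap (𝓞 N) N : 𝓞 N →* N) W δ x₀
    have h3 : IsIntegral ℤ (⟨_, h1⟩ :
        (IntermediateField.fixedField (stb ρ x₀) : IntermediateField K N)) := by
      have h4 : IsIntegral ℤ (Aprod W (fun u => ((δ u : 𝓞 N) : N)) x₀) := by
        rw [← h2]
        exact (Aprod W δ x₀).2
      exact (isIntegral_algebraMap_iff (A := (IntermediateField.fixedField (stb ρ x₀) :
        IntermediateField K N)) (B := N) (algebraMap (IntermediateField.fixedField (stb ρ x₀) :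
        IntermediateField K N) N).injective).1 h4
    exact ⟨⟨_, h3⟩, rfl⟩
  obtain ⟨a0, ha0⟩ := hmk β0 hβeq
  have hab := fun 𝔡 => hmk (bu 𝔡) (fun γ u _ => hbueq 𝔡 γ u)
  choose ab hab using hab
  have ha0ne : a0 ≠ 0 := by
    intro h
    rw [h] at ha0
    refine Aprod_ne_zero (R := N) W (β := fun u => ((β0 u : 𝓞 N) : N)) ?_ x₀ ha0.symm
    intro u hu h1
    exact hβ0 u hu (RingOfIntegers.ext h1)
  have habne : ∀ 𝔡 ∈ Good K (IntermediateField.fixedField (stbW ρ w) : IntermediateField K N) T1,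
      ab 𝔡 ≠ 0 := by
    intro 𝔡 h𝔡 h
    have h1 := hab 𝔡
    rw [h] at h1
    refine Aprod_ne_zero (R := N) W (β := fun u => ((bu 𝔡 u : 𝓞 N) : N)) ?_ x₀ h1.symm
    intro u hu h2
    exact hbu0 𝔡 h𝔡 u (RingOfIntegers.ext h2)
  have hAmul : ∀ 𝔡 x, Aprod W (fun u => ((β 𝔡 u : 𝓞 N) : N)) x =
      Aprod W (fun u => ((β0 u : 𝓞 N) : N)) x * Aprod W (fun u => ((bu 𝔡 u : 𝓞 N) : N)) x := by
    intro 𝔡 x
    rw [← Aprod_mul]
    exact Aprod_congr W (fun u _ => hβN 𝔡 u) x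
  have hbuvf : ∀ 𝔡, (fun u => ((bu 𝔡 u : 𝓞 N) : N)) = vf ρ w (((b 𝔡 :
      (IntermediateField.fixedField (stbW ρ w) : IntermediateField K N)) : N)) :=
    fun 𝔡 => funext fun u => hbu 𝔡 u
  -- the bound for the discriminant
  obtain ⟨R, hR⟩ : ∃ R : ℕ, ∀ C, Ideal.absNorm (rep C) ≤ R :=
    ⟨∑ C, Ideal.absNorm (rep C), fun C =>
      Finset.single_le_sum (f := fun C => Ideal.absNorm (rep C)) (fun _ _ => Nat.zero_le _)
        (Finset.mem_univ C)⟩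
  obtain ⟨B, hB1, hB⟩ : ∃ B : ℝ, 1 ≤ B ∧
      ∀ 𝔡 ∈ Good K (IntermediateField.fixedField (stbW ρ w) : IntermediateField K N) T1,
      dsc (M ⊔ IntermediateField.adjoin K {s 𝔡}) ≤ B * (Ideal.absNorm 𝔡 : ℝ) ^ wt w := by
    refine ⟨max 1 (4 ^ Module.finrank ℚ (IntermediateField.fixedField (stb ρ x₀) :
      IntermediateField K N) * (discr (IntermediateField.fixedField (stb ρ x₀) :
      IntermediateField K N)).natAbs ^ 2 * (Ideal.absNorm (Ideal.span {a0}) * R ^ wt w)),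
      le_max_left _ _, ?_⟩
    intro 𝔡 h𝔡
    obtain ⟨hMG, hAM, hsM, hLG, hdeg⟩ := hFd 𝔡 h𝔡
    have h1 := disc_bound N (IntermediateField.fixedField (stb ρ x₀)) (a0 * ab 𝔡)
      (mul_ne_zero ha0ne (habne 𝔡 h𝔡)) (s 𝔡) (by
        rw [hs 𝔡, hAmul, ← ha0, ← hab 𝔡]
        rfl) (by rw [← hM]; exact hsM) (by rw [← hM]; exact hdeg)
    rw [← hM] at h1
    refine h1.trans ?_
    have h2 : Ideal.absNorm (Ideal.span {ab 𝔡}) ≤ (Ideal.absNorm 𝔡 * R) ^ wt w := by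
      have h3 := hJ K N P ρ htr W hW w hw x₀ (b 𝔡) (ab 𝔡) (by rw [hab 𝔡, hbuvf])
      rw [h3, hCb 𝔡 (hGood0 𝔡 h𝔡), map_mul]
      exact Nat.pow_le_pow_left (Nat.mul_le_mul_left _ (hR _)) _
    have h4 : Ideal.absNorm (Ideal.span {a0 * ab 𝔡}) ≤
        Ideal.absNorm (Ideal.span {a0}) * (Ideal.absNorm 𝔡 * R) ^ wt w := by
      rw [← Ideal.span_singleton_mul_span_singleton, map_mul]
      exact Nat.mul_le_mul_left _ h2
    have h5 : (Ideal.absNorm (Ideal.span {a0 * ab 𝔡}) : ℝ) ≤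
        Ideal.absNorm (Ideal.span {a0}) * ((Ideal.absNorm 𝔡 : ℝ) * R) ^ wt w := by
      exact_mod_cast h4
    calc (4 : ℝ) ^ Module.finrank ℚ (IntermediateField.fixedField (stb ρ x₀) :
          IntermediateField K N) * ((discr (IntermediateField.fixedField (stb ρ x₀) :
          IntermediateField K N)).natAbs : ℝ) ^ 2 * (Ideal.absNorm (Ideal.span {a0 * ab 𝔡}) : ℝ)
        ≤ (4 : ℝ) ^ Module.finrank ℚ (IntermediateField.fixedField (stb ρ x₀) :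
          IntermediateField K N) * ((discr (IntermediateField.fixedField (stb ρ x₀) :
          IntermediateField K N)).natAbs : ℝ) ^ 2 *
          (Ideal.absNorm (Ideal.span {a0}) * ((Ideal.absNorm 𝔡 : ℝ) * R) ^ wt w) :=
          mul_le_mul_of_nonneg_left h5 (by positivity)
      _ = (4 : ℝ) ^ Module.finrank ℚ (IntermediateField.fixedField (stb ρ x₀) :
          IntermediateField K N) * ((discr (IntermediateField.fixedField (stb ρ x₀) :
          IntermediateField K N)).natAbs : ℝ) ^ 2 *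
          (Ideal.absNorm (Ideal.span {a0}) * R ^ wt w) * (Ideal.absNorm 𝔡 : ℝ) ^ wt w := by
          rw [mul_pow]
          ring
      _ ≤ _ := mul_le_mul_of_nonneg_right (le_max_right _ _) (by positivity)
  -- injectivity
  have hinjL : ∀ 𝔡 ∈ Good K (IntermediateField.fixedField (stbW ρ w) : IntermediateField K N) T1,
      ∀ 𝔡' ∈ Good K (IntermediateField.fixedField (stbW ρ w) : IntermediateField K N) T1,
      M ⊔ IntermediateField.adjoin K {s 𝔡} = M ⊔ IntermediateField.adjoin K {s 𝔡'} →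
      C 𝔡 = C 𝔡' → 𝔡 = 𝔡' := by
    intro 𝔡 h𝔡 𝔡' h𝔡' hLL hCC
    obtain ⟨-, hAM, hsM, -, -⟩ := hFd 𝔡 h𝔡
    obtain ⟨-, hAM', hsM', -, -⟩ := hFd 𝔡' h𝔡'
    have h1 := kum_mul M ⟨_, hAM⟩ ⟨_, hAM'⟩ (s 𝔡) (s 𝔡') (hs 𝔡) (hs 𝔡') hsM hsM' hLL
    have h2 : s 𝔡 * s 𝔡' ∈ N := by
      rw [hM] at h1
      exact IntermediateField.lift_le _ h1
    obtain ⟨m, hm⟩ : ∃ m : N, (m : Ω) = s 𝔡 * s 𝔡' := ⟨⟨_, h2⟩, rfl⟩
    have h3 : m ^ 2 = Aprod W (fun u => ((β 𝔡 u : 𝓞 N) : N)) x₀ *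
        Aprod W (fun u => ((β 𝔡' u : 𝓞 N) : N)) x₀ := by
      apply Subtype.ext
      change (m : Ω) ^ 2 = ((Aprod W (fun u => ((β 𝔡 u : 𝓞 N) : N)) x₀ : N) : Ω) *
        ((Aprod W (fun u => ((β 𝔡' u : 𝓞 N) : N)) x₀ : N) : Ω)
      rw [hm, mul_pow, hs, hs]
    have hA0 : Aprod W (fun u => ((β0 u : 𝓞 N) : N)) x₀ ≠ 0 := by
      refine Aprod_ne_zero (R := N) W (β := fun u => ((β0 u : 𝓞 N) : N)) ?_ x₀
      intro u hu h1
      exact hβ0 u hu (RingOfIntegers.ext h1)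
    have h4 : Aprod W (fun u => ((bu 𝔡 u : 𝓞 N) : N)) x₀ *
        Aprod W (fun u => ((bu 𝔡' u : 𝓞 N) : N)) x₀ =
        (m / Aprod W (fun u => ((β0 u : 𝓞 N) : N)) x₀) ^ 2 := by
      rw [div_pow, h3, hAmul, hAmul]
      field_simp
    have h5 : ∀ x : P, IsSquare (Aprod W (vf ρ w (((b 𝔡 :
        (IntermediateField.fixedField (stbW ρ w) : IntermediateField K N)) : N))) x *
        Aprod W (vf ρ w (((b 𝔡' :
        (IntermediateField.fixedField (stbW ρ w) : IntermediateField K N)) : N))) x) := by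
      intro x
      obtain ⟨γ, hγ⟩ := htr x₀ x
      rw [hbuvf, hbuvf] at h4
      have e1 := fun 𝔡 => Aprod_equiv W hW (vf ρ w (((b 𝔡 :
        (IntermediateField.fixedField (stbW ρ w) : IntermediateField K N)) : N)))
        (γ : N →* N) (ρ γ) ⟨γ, rfl⟩ (fun u _ => vf_equiv ρ w _ γ u) x₀
      rw [← hγ, ← e1, ← e1, ← map_mul, h4, map_pow]
      exact ⟨_, sq _⟩
    have h6 := hI K N P ρ W hW w hw hw0 T1 hT1r (rep (C 𝔡)) 𝔡 𝔡' (b 𝔡) (b 𝔡') (hrep0 _)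
      (fun q hq hqC => hT1p _ q hq hqC) h𝔡 h𝔡' (hCb 𝔡 (hGood0 𝔡 h𝔡))
      (by rw [hCC]; exact hCb 𝔡' (hGood0 𝔡' h𝔡')) h5
    exact h6
  -- counting
  have hcount : ∀ Z : ℝ, 0 ≤ Z → (Set.ncard {𝔡 : Ideal (𝓞 (IntermediateField.fixedField (stbW ρ w) :
      IntermediateField K N)) | 𝔡 ∈ Good K (IntermediateField.fixedField (stbW ρ w) :
        IntermediateField K N) T1 ∧ (Ideal.absNorm 𝔡 : ℝ) ≤ Z} : ℝ) ≤
      Set.ncard (TTX K Ω (CodeG ρ.range W hW) (B * Z ^ wt w)) *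
        Fintype.card (ClassGroup (𝓞 (IntermediateField.fixedField (stbW ρ w) :
          IntermediateField K N))) := by
    intro Z hZ
    have hfin := TTX_finite (K := K) (Ω := Ω) (CodeG ρ.range W hW) (B * Z ^ wt w)
    have h1 : Set.ncard {𝔡 : Ideal (𝓞 (IntermediateField.fixedField (stbW ρ w) :
      IntermediateField K N)) | 𝔡 ∈ Good K (IntermediateField.fixedField (stbW ρ w) :
        IntermediateField K N) T1 ∧ (Ideal.absNorm 𝔡 : ℝ) ≤ Z} ≤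
        Set.ncard ((TTX K Ω (CodeG ρ.range W hW) (B * Z ^ wt w)) ×ˢ
          (Set.univ : Set (ClassGroup (𝓞 (IntermediateField.fixedField (stbW ρ w) :
            IntermediateField K N))))) := by
      refine Set.ncard_le_ncard_of_injOn
        (fun 𝔡 => (M ⊔ IntermediateField.adjoin K {s 𝔡}, C 𝔡)) ?_ ?_
        (hfin.prod Set.finite_univ)
      · rintro 𝔡 ⟨h𝔡, hZ1⟩
        refine ⟨⟨(hFd 𝔡 h𝔡).2.2.2.1, (hB 𝔡 h𝔡).trans ?_⟩, Set.mem_univ _⟩
        exact mul_le_mul_of_nonneg_left (pow_le_pow_left₀ (Nat.cast_nonneg _) hZ1 _) (by linarith)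
      · rintro 𝔡 ⟨h𝔡, -⟩ 𝔡' ⟨h𝔡', -⟩ he
        exact hinjL 𝔡 h𝔡 𝔡' h𝔡' (Prod.ext_iff.1 he).1 (Prod.ext_iff.1 he).2
    rw [Set.ncard_prod, Set.ncard_univ, Nat.card_eq_fintype_card] at h1
    exact_mod_cast h1
  -- conclusion
  obtain ⟨h, hh⟩ : ∃ h : ℕ, h = Fintype.card (ClassGroup (𝓞
    (IntermediateField.fixedField (stbW ρ w) : IntermediateField K N))) := ⟨_, rfl⟩
  rw [← hh] at hcount
  have hhpos : 0 < h := by
    rw [hh]
    exact Fintype.card_pos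
  have hhR : (0 : ℝ) < h := by exact_mod_cast hhpos
  have hkR : (0 : ℝ) < wt w := by exact_mod_cast hwt
  have hB0 : 0 < B := by linarith
  refine ⟨c * (D / B) ^ (1 / (wt w : ℝ)) / h, by positivity, ?_⟩
  have htend : Tendsto (fun X : ℝ => (X * (D / B)) ^ (1 / (wt w : ℝ))) atTop atTop := by
    refine (tendsto_rpow_atTop (by positivity)).comp ?_
    exact tendsto_id.atTop_mul_const (by positivity)
  filter_upwards [htend.eventually hdens, eventually_gt_atTop (0 : ℝ)] with X h1 hX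
  have h2 := hcount ((X * (D / B)) ^ (1 / (wt w : ℝ))) (by positivity)
  have h3 : B * ((X * (D / B)) ^ (1 / (wt w : ℝ))) ^ wt w = X * D := by
    rw [← Real.rpow_natCast, ← Real.rpow_mul (by positivity), one_div,
      inv_mul_cancel₀ hkR.ne', Real.rpow_one]
    field_simp
  rw [h3] at h2
  have h4 := h1.trans h2
  rw [Real.mul_rpow hX.le (by positivity)] at h4
  rw [div_mul_eq_mul_div, div_le_iff₀ hhR]
  calc c * (D / B) ^ (1 / (wt w : ℝ)) * X ^ (1 / (wt w : ℝ))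
      = c * (X ^ (1 / (wt w : ℝ)) * (D / B) ^ (1 / (wt w : ℝ))) := by ring
    _ ≤ _ := h4

end Pool.Agent.NH85.CE
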