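import Mathlib

/-!
# Finitely many ramified primes
-/

set_option autoImplicit false

open NumberField

namespace Pool.Agent.NH85.CE

theorem exists_ram (K N : Type) [Field K] [NumberField K] [Field N] [NumberField N] [Algebra K N] :
    ∃ T : Finset (Ideal (𝓞 K)), ∀ p : Ideal (𝓞 K), p.IsPrime → p ≠ ⊥ → p ∉ T →
      ∀ Q ∈ p.primesOver (𝓞 N), Ideal.ramificationIdx' p Q = 1 := by
  classical
  refine ⟨((UniqueFactorizationMonoid.normalizedFactors
    (differentIdeal (𝓞 K) (𝓞 N))).toFinset).image (fun Q => Q.under (𝓞 K)), ?_⟩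
  rintro p hp hp0 hpT Q ⟨hQ, hQp⟩
  have hover : Q.under (𝓞 K) = p := hQp.over.symm
  have hQ0 : Q ≠ ⊥ := by
    rintro rfl
    apply hp0
    rw [← hover]
    exact Ideal.comap_bot_of_injective _ (FaithfulSMul.algebraMap_injective (𝓞 K) (𝓞 N))
  have h1 : ¬ Q ∣ differentIdeal (𝓞 K) (𝓞 N) := by
    intro h2
    apply hpT
    rw [Finset.mem_image]
    refine ⟨Q, ?_, hover⟩
    rw [Multiset.mem_toFinset, UniqueFactorizationMonoid.mem_normalizedFactors_iff]
    · exact ⟨Ideal.prime_of_isPrime hQ0 hQ, h2⟩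
    · rw [Ne, Ideal.zero_eq_bot]
      exact differentIdeal_ne_bot
  rw [not_dvd_differentIdeal_iff] at h1
  have h3 := Ideal.ramificationIdx_eq_one_iff.2 h1
  have : Q.IsPrime := hQ
  have : Q.LiesOver p := hQp
  rw [Ideal.ramificationIdx'_eq_ramificationIdx p Q hp0]
  exact h3

end Pool.Agent.NH85.CE
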