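import Pool.Agent.NH85.CE.Fam

/-!
# Valuations
-/

set_option autoImplicit false

open NumberField Filter Topology IntermediateField

namespace Pool.Agent.NH85.CE

open Pool.Agent.TH9.J3098 (v v_mul v_prod v_zero)

theorem v_pow {R : Type} [CommRing R] [IsDedekindDomain R] (Q I : Ideal R) (hI : I ≠ ⊥) (n : ℕ) :
    v Q (I ^ n) = n * v Q I := by
  induction n with
  | zero =>
    rw [pow_zero, zero_mul, Ideal.one_eq_top]
    unfold v
    rw [← Ideal.one_eq_top, UniqueFactorizationMonoid.normalizedFactors_one, Multiset.count_zero]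
  | succ n ih =>
    have h1 : I ^ n ≠ ⊥ := by
      rw [← Ideal.zero_eq_bot]
      exact pow_ne_zero n hI
    rw [pow_succ, v_mul Q h1 hI, ih]
    ring

theorem v_one {R : Type} [CommRing R] [IsDedekindDomain R] (Q : Ideal R) :
    v Q (1 : Ideal R) = 0 := by
  unfold v
  rw [UniqueFactorizationMonoid.normalizedFactors_one, Multiset.count_zero]

theorem isSquare_int {N : Type} [Field N] [NumberField N] (x : 𝓞 N) (h : IsSquare (x : N)) :
    IsSquare x := by
  obtain ⟨r, hr⟩ := h
  have h1 : IsIntegral ℤ r := by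
    have h2 : IsIntegral ℤ (r ^ 2) := by
      rw [sq, ← hr]
      exact x.2
    exact IsIntegral.of_pow (by norm_num) h2
  refine ⟨⟨r, h1⟩, ?_⟩
  apply RingOfIntegers.ext
  rw [hr]
  rfl

open Classical in
/-- odd valuations exclude that a product is a square -/
theorem val_cond {N P : Type} [Field N] [NumberField N] [Fintype P]
    (W : Submodule (ZMod 2) (P → ZMod 2)) (β : (P → ZMod 2) → 𝓞 N) (hβ0 : ∀ u ∈ W, β u ≠ 0)
    (Q : (P → ZMod 2) → Ideal (𝓞 N))
    (hQ : ∀ u ∈ W, ∀ u' ∈ W, Odd (v (Q u) (Ideal.span {β u'})) ↔ u' = u) (S : P → ZMod 2)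
    (hsq : IsSquare (Sprod S (Aprod W (fun u => ((β u : 𝓞 N) : N))))) :
    ∀ w ∈ W, ∑ x, S x * w x = 0 := by
  intro w hw
  have e0 : ((Sprod S (Aprod W β) : 𝓞 N) : N) = Sprod S (Aprod W (fun u => ((β u : 𝓞 N) : N))) := by
    rw [Sprod_Aprod, Sprod_Aprod]
    change algebraMap (𝓞 N) N _ = _
    rw [map_prod]
    refine Finset.prod_congr rfl fun u _ => ?_
    split_ifs
    · rw [map_pow]
    · exact map_one _
  rw [← e0] at hsq
  obtain ⟨r, hr⟩ := isSquare_int _ hsq
  rw [Sprod_Aprod] at hr
  have h1 : ∏ u : P → ZMod 2, (if u ∈ W then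
      (Ideal.span {β u}) ^ (Finset.univ.filter (fun x => S x ≠ 0 ∧ u x ≠ 0)).card else 1) =
      Ideal.span {r} ^ 2 := by
    rw [Ideal.span_singleton_pow, sq, ← hr, ← Ideal.prod_span_singleton]
    refine Finset.prod_congr rfl fun u _ => ?_
    split_ifs
    · rw [Ideal.span_singleton_pow]
    · rw [Ideal.span_singleton_one, Ideal.one_eq_top]
  have hspan0 : ∀ u ∈ W, Ideal.span {β u} ≠ ⊥ := by
    intro u hu h
    rw [Ideal.span_singleton_eq_bot] at h
    exact hβ0 u hu h
  have hI0 : ∀ u : P → ZMod 2, (if u ∈ W then (Ideal.span {β u}) ^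
      (Finset.univ.filter (fun x => S x ≠ 0 ∧ u x ≠ 0)).card else (1 : Ideal (𝓞 N))) ≠ ⊥ := by
    intro u
    split_ifs with h
    · rw [← Ideal.zero_eq_bot]
      exact pow_ne_zero _ (hspan0 u h)
    · rw [← Ideal.zero_eq_bot]
      exact one_ne_zero
  have hr0 : Ideal.span {r} ≠ ⊥ := by
    intro h
    rw [h] at h1
    have h2 : ∏ u : P → ZMod 2, (if u ∈ W then (Ideal.span {β u}) ^
      (Finset.univ.filter (fun x => S x ≠ 0 ∧ u x ≠ 0)).card else (1 : Ideal (𝓞 N))) ≠ 0 := by
      rw [Finset.prod_ne_zero_iff]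
      intro u _
      exact hI0 u
    apply h2
    rw [h1, ← Ideal.zero_eq_bot, zero_pow (by norm_num)]
  have h2 := congrArg (v (Q w)) h1
  rw [v_prod _ _ _ hI0, v_pow _ _ hr0] at h2
  have h3 := congrArg (fun n : ℕ => (n : ZMod 2)) h2
  simp only [Nat.cast_sum, Nat.cast_mul, Nat.cast_ofNat] at h3
  have h20 : (2 : ZMod 2) = 0 := by decide
  rw [h20, zero_mul, Finset.sum_eq_single w] at h3
  · rw [if_pos hw, v_pow _ _ (hspan0 w hw), Nat.cast_mul] at h3
    have h4 : ((v (Q w) (Ideal.span {β w}) : ℕ) : ZMod 2) = 1 := by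
      have h5 : Odd (v (Q w) (Ideal.span {β w})) := (hQ w hw w hw).2 rfl
      exact (ZMod.natCast_eq_one_iff_odd).2 h5
    rw [h4, mul_one] at h3
    rw [inner_eq]
    exact h3
  · intro u _ huw
    by_cases hu : u ∈ W
    · rw [if_pos hu, v_pow _ _ (hspan0 u hu), Nat.cast_mul]
      have h4 : ((v (Q w) (Ideal.span {β u}) : ℕ) : ZMod 2) = 0 := by
        have h5 : ¬ Odd (v (Q w) (Ideal.span {β u})) := fun h => huw ((hQ w hw u hu).1 h)
        rw [Nat.not_odd_iff_even] at h5
        exact (ZMod.natCast_eq_zero_iff_even).2 h5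
      rw [h4, mul_zero]
    · rw [if_neg hu, v_one]
      rfl
  · intro h
    exact absurd (Finset.mem_univ _) h

/-- the conjugates of `b` are units at the primes above the primes of `K` which are not below the
divisors of `b` -/
theorem v_vf_zero {K N P : Type} [Field K] [NumberField K] [Field N] [NumberField N] [Algebra K N]
    [IsGalois K N] (ρ : (N ≃ₐ[K] N) →* Equiv.Perm P) (w : P → ZMod 2)
    (b : 𝓞 (IntermediateField.fixedField (stbW ρ w) : IntermediateField K N)) (hb : b ≠ 0)
    (Q : Ideal (𝓞 N)) (hQ : Q.IsPrime)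
    (h : ∀ q : Ideal (𝓞 (IntermediateField.fixedField (stbW ρ w) : IntermediateField K N)),
      q.IsPrime → q ∣ Ideal.span {b} → q.under (𝓞 K) ≠ Q.under (𝓞 K))
    (u : P → ZMod 2) (y : 𝓞 N)
    (hy : (y : N) = vf ρ w ((b : (IntermediateField.fixedField (stbW ρ w) :
      IntermediateField K N)) : N) u) : v Q (Ideal.span {y}) = 0 := by
  have hy0 : y ≠ 0 := by
    intro h0
    rw [h0] at hy
    refine vf_ne_zero ρ w _ ?_ u hy.symm
    intro h1
    apply hb
    apply RingOfIntegers.ext
    exact Subtype.ext h1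
  apply v_zero
  · rw [Ne, Ideal.span_singleton_eq_bot]
    exact hy0
  · rw [Ideal.span_singleton_le_iff_mem]
    intro hyQ
    rcases vf_cases ρ w ((b : (IntermediateField.fixedField (stbW ρ w) :
      IntermediateField K N)) : N) u with h1 | ⟨γ, h1⟩
    · rw [h1] at hy
      have : y = 1 := RingOfIntegers.ext hy
      rw [this] at hyQ
      exact hQ.ne_top ((Ideal.eq_top_iff_one _).2 hyQ)
    · let f : (IntermediateField.fixedField (stbW ρ w) : IntermediateField K N) →ₐ[K] N :=
        γ.toAlgHom.comp (IntermediateField.fixedField (stbW ρ w) : IntermediateField K N).val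
      let g := RingOfIntegers.mapRingHom f.toRingHom
      have hgb : g b = y := by
        apply RingOfIntegers.ext
        rw [hy, h1]
        rfl
      have hq : (Q.comap g).IsPrime := Ideal.comap_isPrime g Q
      refine h (Q.comap g) hq ?_ ?_
      · rw [Ideal.dvd_span_singleton, Ideal.mem_comap, hgb]
        exact hyQ
      · rw [Ideal.under_def, Ideal.under_def, Ideal.comap_comap]
        congr 1
        apply RingHom.ext
        intro x
        apply RingOfIntegers.ext
        change f (algebraMap K _ (x : K)) = algebraMap K N (x : K)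
        rw [AlgHom.commutes]

end Pool.Agent.NH85.CE
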