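import Pool.Agent.NH85.CE.Kum
import Pool.Agent.NH85.CE.Val
import Pool.Agent.NH85.CE.Ram
import Pool.Agent.NH85.ML.Weak
import Pool.Agent.TH293.J3093

/-!
# Preparations for the lower bound
-/

set_option autoImplicit false

open NumberField Filter Topology IntermediateField

namespace Pool.Agent.NH85.CE

open Pool.Agent.TH444.ML Pool.Agent.NH85.ML

/-- every ideal times one of finitely many ideals is principal -/
theorem exists_cls (F : Type) [Field F] [NumberField F] :
    ∃ (rep : ClassGroup (𝓞 F) → Ideal (𝓞 F)), (∀ C, rep C ≠ ⊥) ∧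
      ∀ 𝔡 : Ideal (𝓞 F), 𝔡 ≠ ⊥ → ∃ (C : ClassGroup (𝓞 F)) (b : 𝓞 F),
        Ideal.span {b} = 𝔡 * rep C := by
  obtain ⟨rep, hrep, hrep0, -, -⟩ := Pool.Agent.TH293.J3093.exists_rep F
  refine ⟨rep, hrep0, fun 𝔡 h𝔡 => ?_⟩
  have hm : 𝔡 ∈ nonZeroDivisors (Ideal (𝓞 F)) := mem_nonZeroDivisors_of_ne_zero h𝔡
  obtain ⟨h1, h2⟩ := hrep (ClassGroup.mk0 ⟨𝔡, hm⟩)⁻¹
  have h3 : ClassGroup.mk0 (⟨𝔡, hm⟩ * ⟨rep (ClassGroup.mk0 ⟨𝔡, hm⟩)⁻¹, h1⟩ :
      nonZeroDivisors (Ideal (𝓞 F))) = 1 := by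
    rw [map_mul, h2, mul_inv_cancel]
  rw [ClassGroup.mk0_eq_one_iff] at h3
  obtain ⟨b, hb⟩ := h3
  exact ⟨_, b, hb.symm⟩

/-- the products of an equivariant family are in the fixed field -/
theorem fix_mem {K N P : Type} [Field K] [Field N] [Algebra K N] [Fintype P]
    (ρ : (N ≃ₐ[K] N) →* Equiv.Perm P)
    (W : Submodule (ZMod 2) (P → ZMod 2)) (hW : Stable ρ.range W) (β : (P → ZMod 2) → N)
    (hβ : ∀ (γ : N ≃ₐ[K] N), ∀ u ∈ W, γ (β u) = β (trn (ρ γ) u)) (x₀ : P) :
    Aprod W β x₀ ∈ (IntermediateField.fixedField (stb ρ x₀) : IntermediateField K N) := by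
  rintro ⟨γ, hγ⟩
  have h1 := Aprod_equiv W hW β (γ : N →* N) (ρ γ) ⟨γ, rfl⟩ (fun u hu => hβ γ u hu) x₀
  have h2 : ρ γ x₀ = x₀ := hγ
  rw [h2] at h1
  exact h1

/-- the discriminant -/
theorem disc_bound {K Ω : Type} [Field K] [NumberField K] [Field Ω] [Algebra K Ω]
    (N : IntermediateField K Ω) [FiniteDimensional K N] (M' : IntermediateField K N)
    [NumberField M'] (a : 𝓞 M') (ha : a ≠ 0) (s : Ω) (hs : s ^ 2 = (((a : M') : N) : Ω))
    (hsM : s ∉ IntermediateField.lift M')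
    (h2 : Module.finrank K (IntermediateField.lift M' ⊔ adjoin K {s} : IntermediateField K Ω) =
      2 * Module.finrank K (IntermediateField.lift M')) :
    dsc (IntermediateField.lift M' ⊔ adjoin K {s}) ≤
      4 ^ Module.finrank ℚ M' * (discr M').natAbs ^ 2 * Ideal.absNorm (Ideal.span {a}) := by
  obtain ⟨L, hL⟩ : ∃ L : IntermediateField K Ω, L = IntermediateField.lift M' ⊔ adjoin K {s} :=
    ⟨_, rfl⟩
  rw [← hL] at h2 ⊢
  have hML : IntermediateField.lift M' ≤ L := by rw [hL]; exact le_sup_left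
  have hsL : s ∈ L := by
    rw [hL]
    exact (le_sup_right : adjoin K {s} ≤ _) (mem_adjoin_simple_self K s)
  have hfM : Module.finrank K (IntermediateField.lift M') = Module.finrank K M' :=
    (IntermediateField.liftAlgEquiv M').toLinearEquiv.finrank_eq.symm
  have hpos : 0 < Module.finrank K M' := Module.finrank_pos
  have hfdL : FiniteDimensional K L := FiniteDimensional.of_finrank_pos (by omega)
  have hnL : NumberField L := nf_of_fd L
  let f : M' →ₐ[K] L := (IntermediateField.inclusion hML).comp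
    (IntermediateField.liftAlgEquiv M').toAlgHom
  let _ : Algebra M' L := f.toRingHom.toAlgebra
  have hf : ∀ x : M', ((algebraMap M' L x : L) : Ω) = ((x : N) : Ω) := fun x => rfl
  have htower : IsScalarTower K M' L := IsScalarTower.of_algebraMap_eq fun x =>
    (f.commutes x).symm
  have hf2 : Module.finrank M' L = 2 := by
    have h5 := Module.finrank_mul_finrank K M' L
    rw [h2, hfM] at h5
    exact Nat.eq_of_mul_eq_mul_left hpos (by rw [h5]; ring)
  have h6 := disc_le M' L hf2 a ha ⟨s, hsL⟩ (by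
    apply Subtype.ext
    rw [hf]
    exact hs) (by
    intro x hx
    apply hsM
    have h7 := congrArg Subtype.val hx
    rw [hf] at h7
    rw [← show ((x : N) : Ω) = s from h7, IntermediateField.mem_lift]
    exact x.2)
  rw [dsc_eq L, ← Nat.cast_natAbs]
  exact_mod_cast h6

end Pool.Agent.NH85.CE
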