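import Pool.Agent.NH85.CE.Defs
import Pool.Agent.NH85.CE.UnifP
import Pool.Agent.NH85.ML.Weak

/-!
# The upper bound for `W ⋊ H`
-/

set_option autoImplicit false

open NumberField Filter Topology IntermediateField

namespace Pool.Agent.NH85.CE

open Pool.Agent.TH444.ML Pool.Agent.NH85.ML

section

variable {K Ω : Type} [Field K] [NumberField K] [Field Ω] [Algebra K Ω] [IsAlgClosure K Ω]
variable {P : Type} [Fintype P]

/-- the extensions with group `W ⋊ H` above `M`, of bounded discriminant -/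
def SMC {H : Subgroup (Equiv.Perm P)} {W : Submodule (ZMod 2) (P → ZMod 2)}
    (hW : Stable H W) (M : IntermediateField K Ω) (Z : ℝ) : Set (IntermediateField K Ω) :=
  {L | L ∈ GalX K Ω (CodeG H W hW) ∧ M ≤ L ∧ Module.finrank K L = 2 * Module.finrank K M ∧
    dsc L ≤ Z ∧ ∃ e : (M →ₐ[K] Ω) ≃ P,
      ∀ (α : M) (s : Ω), s ^ 2 = (α : Ω) → s ∉ M → L = M ⊔ IntermediateField.adjoin K {s} →
        ∀ S : P → ZMod 2, (∀ w ∈ W, ∑ x, S x * w x = 0) →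
          ∃ b ∈ IntermediateField.normalClosure K M Ω, b ^ 2 = Sprod S (fun x => e.symm x α)}

/-- the bound for one `M` -/
theorem card_SMC (hB : S_B) (hC : S_C) (n d : ℕ) (hd1 : 1 ≤ d) (ε : ℝ) (hε : 0 < ε) :
    ∃ C : ℝ, 0 ≤ C ∧ ∀ {H : Subgroup (Equiv.Perm P)} {W : Submodule (ZMod 2) (P → ZMod 2)}
      (hW : Stable H W), (∀ w ∈ W, w ≠ 0 → d ≤ wt w) →
      ∀ (M : IntermediateField K Ω) [FiniteDimensional K M], Module.finrank ℚ M = n →
      ∀ Z : ℝ, 0 < Z → (SMC (K := K) (Ω := Ω) hW M Z).Finite ∧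
        (Set.ncard (SMC (K := K) (Ω := Ω) hW M Z) : ℝ) ≤
          C * Z ^ (1 / (d : ℝ) + ε) * (dsc M) ^ (-(2 / (d : ℝ) - 1 / 2 + ε / 2)) := by
  classical
  have hac : IsAlgClosed Ω := IsAlgClosure.isAlgClosed K
  obtain ⟨C1, hC10, hC1⟩ := unifP Pool.Agent.TH263.J3086.discQuad Pool.Agent.TH914.J3087.kumP
    idealUnifE n ε hε
  obtain ⟨C2, hC20, hC2⟩ := hC K n d ε hd1 hε
  refine ⟨C1 * C2 * (4 ^ n) ^ (1 / (d : ℝ) + ε), by positivity, ?_⟩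
  intro H W hW hwt M hfd hn Z hZ
  have hnf : NumberField M := nf_of_fd M
  set δ : ℝ := dsc M with hδ
  have hδ1 : 1 ≤ δ := one_le_dsc M
  have hδ0 : 0 < δ := by linarith
  obtain ⟨Y, hYdef⟩ : ∃ Y : ℝ, Y = Z / δ ^ 2 := ⟨_, rfl⟩
  have hY0 : 0 < Y := by rw [hYdef]; positivity
  have hYZ : Y * δ ^ 2 = Z := by rw [hYdef, div_mul_cancel₀ _ (by positivity)]
  obtain ⟨PP, hPP⟩ : ∃ PP : Set (Ideal (𝓞 M)),
    PP = {𝔡 : Ideal (𝓞 M) | 𝔡 ∈ BdW K M d ∧ (Ideal.absNorm 𝔡 : ℝ) ≤ 4 ^ n * Y} := ⟨_, rfl⟩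
  have hPPb : PP.Finite ∧ (PP.ncard : ℝ) ≤ C2 * δ ^ ε * (4 ^ n * Y) ^ (1 / (d : ℝ) + ε) := by
    by_cases h1 : 1 ≤ 4 ^ n * Y
    · obtain ⟨h2, h3⟩ := hC2 M hn (4 ^ n * Y) h1
      rw [← dsc_eq M, ← hδ] at h3
      rw [hPP]
      exact ⟨h2, h3⟩
    · have hemp : PP = ∅ := by
        rw [hPP, Set.eq_empty_iff_forall_notMem]
        rintro 𝔡 ⟨h2, h3⟩
        have h4 : 𝔡 ≠ 0 := h2.1.ne_zero
        have h5 : Ideal.absNorm 𝔡 ≠ 0 := by
          rw [Ne, Ideal.absNorm_eq_zero_iff]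
          exact h4
        have h6 : (1 : ℝ) ≤ Ideal.absNorm 𝔡 := by exact_mod_cast Nat.one_le_iff_ne_zero.2 h5
        exact h1 (h6.trans h3)
      rw [hemp]
      refine ⟨Set.finite_empty, ?_⟩
      rw [Set.ncard_empty, Nat.cast_zero]
      positivity
  obtain ⟨SS, hSS⟩ : ∃ SS : Set (IntermediateField M Ω),
    SS = {L' | IntermediateField.restrictScalars K L' ∈ SMC (K := K) (Ω := Ω) hW M Z} := ⟨_, rfl⟩
  have himg : (fun L' : IntermediateField M Ω => IntermediateField.restrictScalars K L') '' SS =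
      SMC (K := K) (Ω := Ω) hW M Z := by
    ext L
    constructor
    · rintro ⟨L', hL', rfl⟩
      rw [hSS] at hL'
      exact hL'
    · intro hL
      refine ⟨IntermediateField.extendScalars hL.2.1, ?_, rfl⟩
      rw [hSS]
      exact hL
  have hsubQ : SS ⊆ QS M Ω Y := by
    intro L' hL'
    rw [hSS] at hL'
    have h1 := (extend_mem (Y := Y) (IntermediateField.restrictScalars K L') hL'.2.1).1
      ⟨hL'.2.1, hL'.2.2.1, by rw [← hδ, hYZ]; exact hL'.2.2.2.1⟩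
    exact h1
  obtain ⟨h5, h6⟩ := hC1 M Ω hn Y SS PP hPPb.1 hsubQ (by
    intro L' hL' α s 𝔡 𝔠 hα0 hsf hspan hs hsM hadj h𝔡0 hN
    rw [hSS] at hL'
    obtain ⟨-, hML, -, -, e, he⟩ := hL'
    rw [hPP]
    refine ⟨?_, hN⟩
    refine hB K Ω P W d M e hwt α 𝔡 𝔠 hα0 hsf hspan ?_
    refine he (α : M) s hs (fun h => hsM ⟨s, h⟩ rfl) ?_
    rw [hadj, IntermediateField.restrictScalars_adjoin, IntermediateField.adjoin_union,
      IntermediateField.adjoin_self])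
  rw [← himg]
  refine ⟨h5.image _, ?_⟩
  rw [Set.ncard_image_of_injective _ (IntermediateField.restrictScalars_injective K)]
  refine h6.trans ?_
  rw [← dsc_eq M, ← hδ]
  have h7 : C1 * δ ^ ((1 + ε) / 2) * (PP.ncard : ℝ) ≤
      C1 * δ ^ ((1 + ε) / 2) * (C2 * δ ^ ε * (4 ^ n * Y) ^ (1 / (d : ℝ) + ε)) :=
    mul_le_mul_of_nonneg_left hPPb.2 (by positivity)
  refine h7.trans (le_of_eq ?_)
  rw [Real.mul_rpow (by positivity) hY0.le, hYdef, Real.div_rpow hZ.le (by positivity)]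
  have e1 : (δ ^ 2) ^ (1 / (d : ℝ) + ε) = δ ^ (2 * (1 / (d : ℝ) + ε)) := by
    rw [← Real.rpow_natCast, ← Real.rpow_mul hδ0.le]
    norm_num
  have e2 : δ ^ ((1 + ε) / 2) * δ ^ ε / δ ^ (2 * (1 / (d : ℝ) + ε)) =
      δ ^ (-(2 / (d : ℝ) - 1 / 2 + ε / 2)) := by
    rw [← Real.rpow_add hδ0, ← Real.rpow_sub hδ0]
    congr 1
    ring
  rw [e1, ← e2]
  ring

/-- the upper bound -/
theorem upper_code (hA : S_A) (hB : S_B) (hC : S_C) {H : Subgroup (Equiv.Perm P)}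
    {W : Submodule (ZMod 2) (P → ZMod 2)} (hW : Stable H W) (d : ℕ) (hd1 : 1 ≤ d) (hd4 : d ≤ 4)
    (hwt : ∀ w ∈ W, w ≠ 0 → d ≤ wt w) {A : ℝ} (ε : ℝ) (hε : 0 < ε)
    (hAd : A < 2 / (d : ℝ) - 1 / 2 + ε / 2) (h : Upper K Ω H A) :
    Upper K Ω (CodeG H W hW) (1 / (d : ℝ) + ε) := by
  classical
  obtain ⟨C, hC0, hCb⟩ := card_SMC (K := K) (Ω := Ω) (P := P) hB hC
    (Module.finrank ℚ K * Nat.card P) d hd1 ε hε
  set s : ℝ := 2 / (d : ℝ) - 1 / 2 + ε / 2 with hs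
  have hd0 : (0 : ℝ) < d := by exact_mod_cast hd1
  have hd4' : (d : ℝ) ≤ 4 := by exact_mod_cast hd4
  have hs0 : 0 ≤ s := by
    have : (1 : ℝ) / 2 ≤ 2 / d := by
      rw [div_le_div_iff₀ (by norm_num) hd0]
      linarith
    rw [hs]
    linarith
  have hsum : Summable (fun M : GalX K Ω H => (dsc M.1) ^ (-s)) :=
    summable_of_upper h (by rw [hs]; linarith) hs0
  have hnn : ∀ M : GalX K Ω H, 0 ≤ (dsc M.1) ^ (-s) := fun M =>
    Real.rpow_nonneg (by have := one_le_dsc M.1; linarith) _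
  refine ⟨C * ∑' M : GalX K Ω H, (dsc M.1) ^ (-s), mul_nonneg hC0 (tsum_nonneg hnn), ?_⟩
  intro Z hZ
  have hZ0 : 0 < Z := by linarith
  have hM : ∀ M : GalX K Ω H, (SMC (K := K) (Ω := Ω) hW M.1 Z).Finite ∧
      (Set.ncard (SMC (K := K) (Ω := Ω) hW M.1 Z) : ℝ) ≤
        C * Z ^ (1 / (d : ℝ) + ε) * (dsc M.1) ^ (-s) := by
    rintro ⟨M, hM⟩
    have hfd := galX_fd hM
    have hnf : NumberField M := nf_of_fd M
    have hdeg : Module.finrank ℚ M = Module.finrank ℚ K * Nat.card P := by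
      rw [← galX_card hM, Module.finrank_mul_finrank ℚ K M]
    exact hCb hW hwt M hdeg Z hZ0
  have hfinH : (TTX K Ω H Z).Finite := TTX_finite H Z
  have hsubU : TTX K Ω (CodeG H W hW) Z ⊆
      ⋃ M ∈ hfinH.toFinset, SMC (K := K) (Ω := Ω) hW M Z := by
    rintro L ⟨hL, hLZ⟩
    obtain ⟨M, e, hMG, hML, hfdL, h2, h3⟩ := hA K Ω P H W hW L hL
    simp only [Set.mem_iUnion, Set.Finite.mem_toFinset, exists_prop]
    refine ⟨M, ⟨hMG, ?_⟩, hL, hML, h2, hLZ, e, h3⟩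
    have hfd := galX_fd hMG
    have h1 := dsc_sq_le hML h2
    have h2 := one_le_dsc M
    nlinarith
  have hmemG : ∀ M ∈ hfinH.toFinset, M ∈ GalX K Ω H := by
    intro M hMm
    rw [Set.Finite.mem_toFinset] at hMm
    exact hMm.1
  have hU : (Set.ncard (TTX K Ω (CodeG H W hW) Z) : ℝ) ≤
      ∑ M ∈ hfinH.toFinset.attach, (Set.ncard (SMC (K := K) (Ω := Ω) hW M.1 Z) : ℝ) := by
    have h1 : Set.ncard (TTX K Ω (CodeG H W hW) Z) ≤
        Set.ncard (⋃ M ∈ hfinH.toFinset, SMC (K := K) (Ω := Ω) hW M Z) := by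
      refine Set.ncard_le_ncard hsubU ?_
      exact Set.Finite.biUnion hfinH.toFinset.finite_toSet
        (fun M hMm => (hM ⟨M, hmemG M hMm⟩).1)
    have h2 : Set.ncard (⋃ M ∈ hfinH.toFinset, SMC (K := K) (Ω := Ω) hW M Z) ≤
        ∑ M ∈ hfinH.toFinset, Set.ncard (SMC (K := K) (Ω := Ω) hW M Z) :=
      Finset.set_ncard_biUnion_le _ _
    rw [Finset.sum_attach hfinH.toFinset
      (fun M => (Set.ncard (SMC (K := K) (Ω := Ω) hW M Z) : ℝ))]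
    exact_mod_cast h1.trans h2
  refine hU.trans ?_
  have h3 : ∑ M ∈ hfinH.toFinset.attach, (Set.ncard (SMC (K := K) (Ω := Ω) hW M.1 Z) : ℝ) ≤
      ∑ M ∈ hfinH.toFinset.attach, C * Z ^ (1 / (d : ℝ) + ε) * (dsc M.1) ^ (-s) :=
    Finset.sum_le_sum fun M _ => (hM ⟨M.1, hmemG M.1 M.2⟩).2
  refine h3.trans ?_
  rw [← Finset.mul_sum]
  have h4 : ∑ M ∈ hfinH.toFinset.attach, (dsc M.1) ^ (-s) ≤ ∑' M : GalX K Ω H, (dsc M.1) ^ (-s) := by
    let j : {x // x ∈ hfinH.toFinset} → GalX K Ω H := fun M => ⟨M.1, hmemG M.1 M.2⟩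
    have hj : Function.Injective j := fun x y hxy =>
      Subtype.ext (congrArg (fun z : GalX K Ω H => z.1) hxy)
    have h5 := hsum.sum_le_tsum (hfinH.toFinset.attach.map ⟨j, hj⟩) (fun M _ => hnn M)
    rw [Finset.sum_map] at h5
    exact h5
  calc C * Z ^ (1 / (d : ℝ) + ε) * ∑ M ∈ hfinH.toFinset.attach, (dsc M.1) ^ (-s)
      ≤ C * Z ^ (1 / (d : ℝ) + ε) * ∑' M : GalX K Ω H, (dsc M.1) ^ (-s) :=
        mul_le_mul_of_nonneg_left h4 (by positivity)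
    _ = _ := by ring

end

end Pool.Agent.NH85.CE
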