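import Pool.Agent.NH85.CE.Low
import Pool.Agent.NH85.CE.Up
import Pool.Agent.NH85.CE.FewU
import Pool.Agent.NH85.CE.Idx
import Pool.Agent.NH85.ML.WeakOut

/-!
# The weak form for `W ⋊ H`, permutation groups on `Fin d`
-/

set_option autoImplicit false

open NumberField Filter Topology IntermediateField

namespace Pool.Agent.NH85.CE

open Pool.Agent.TH444.ML Pool.Agent.NH85.ML

theorem lower_code (hE : S_E) (hF : S_F) (hG : S_G) (hI : S_I) (hJ : S_J)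
    {K Ω : Type} [Field K] [NumberField K] [Field Ω] [Algebra K Ω] [IsAlgClosure K Ω]
    {P : Type} [Fintype P] {H : Subgroup (Equiv.Perm P)} (htr : ∀ x y : P, ∃ h ∈ H, h x = y)
    (hne : (GalX K Ω H).Nonempty) (W : Submodule (ZMod 2) (P → ZMod 2))
    (hW : Stable H W) (w : P → ZMod 2) (hw : w ∈ W) (hw0 : w ≠ 0) (D : ℝ) (hD : 0 < D) :
    ∃ c : ℝ, 0 < c ∧ ∀ᶠ X : ℝ in atTop, c * X ^ (1 / (wt w : ℝ)) ≤
      Set.ncard (TTX K Ω (CodeG H W hW) (X * D)) := by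
  obtain ⟨M₀, hfd, e, he⟩ := hne
  have hgal := few_gal K Ω
  obtain ⟨g⟩ := few_iso e he
  obtain ⟨ρ, hρ, hr⟩ : ∃ ρ : (normalClosure K M₀ Ω ≃ₐ[K] normalClosure K M₀ Ω) →* Equiv.Perm P,
      Function.Injective ρ ∧ ρ.range = H := by
    refine ⟨H.subtype.comp g.toMonoidHom, ?_, ?_⟩
    · exact H.subtype_injective.comp g.injective
    · ext h
      constructor
      · rintro ⟨γ, rfl⟩
        exact (g γ).2
      · intro hh
        refine ⟨g.symm ⟨h, hh⟩, ?_⟩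
        change ((g (g.symm ⟨h, hh⟩) : H) : Equiv.Perm P) = h
        rw [g.apply_symm_apply]
  subst hr
  refine lower_core hE hF hG hI hJ (normalClosure K M₀ Ω) ρ hρ ?_ W hW w hw hw0 D hD
  intro x y
  obtain ⟨_, ⟨γ, rfl⟩, h⟩ := htr x y
  exact ⟨γ, h⟩

section

variable {m : ℕ} {H : Subgroup (Equiv.Perm (Fin m))}
  {W : Submodule (ZMod 2) (Fin m → ZMod 2)} {d : ℕ} {G : Subgroup (Equiv.Perm (Fin d))}

theorem code_TTX (K : Type) [Field K] [NumberField K] (hW : Stable H W) (f : Fin d ≃ Fin m × Bool)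
    (hf : ∀ π : Equiv.Perm (Fin d), π ∈ G ↔ f.permCongr π ∈ CodeG H W hW) (Z : ℝ) :
    TTX K (AlgebraicClosure K) G Z = TTX K (AlgebraicClosure K) (CodeG H W hW) Z := by
  ext L
  have h := hasGp_of_equiv K f (CodeG H W hW) hf L
  constructor
  · rintro ⟨⟨h1, h2⟩, h3⟩
    exact ⟨⟨h1, h.1 h2⟩, h3⟩
  · rintro ⟨⟨h1, h2⟩, h3⟩
    exact ⟨⟨h1, h.2 h2⟩, h3⟩

/-- the two bounds -/
theorem weak_code (hA : S_A) (hB : S_B) (hC : S_C) (hE : S_E) (hF : S_F) (hG : S_G) (hI : S_I)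
    (hJ : S_J) (K : Type) [Field K] [NumberField K] (htr : ∀ x y : Fin m, ∃ h ∈ H, h x = y)
    (hW : Stable H W) (f : Fin d ≃ Fin m × Bool)
    (hf : ∀ π : Equiv.Perm (Fin d), π ∈ G ↔ f.permCongr π ∈ CodeG H W hW)
    (δ : ℕ) (hδ : 1 ≤ δ) (hδ3 : δ ≤ 3) (w : Fin m → ZMod 2) (hw : w ∈ W) (hwδ : wt w = δ)
    (hmin : ∀ w ∈ W, w ≠ 0 → δ ≤ wt w) (A : ℝ) (hAδ : A ≤ 2 / (δ : ℝ) - 1 / 2)
    (hne : (GalX K (AlgebraicClosure K) H).Nonempty)
    (hup : ∀ ε : ℝ, 0 < ε → Upper K (AlgebraicClosure K) H (A + ε)) :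
    (∃ c : ℝ, 0 < c ∧ ∃ X₀ : ℝ, ∀ X : ℝ, X₀ ≤ X →
      c * X ^ (1 / (δ : ℝ)) ≤ Set.ncard (Cnt K G X)) ∧
    (∀ ε : ℝ, 0 < ε → ∃ C : ℝ, 0 < C ∧ ∃ X₀ : ℝ, ∀ X : ℝ, X₀ ≤ X →
      (Set.ncard (Cnt K G X) : ℝ) < C * X ^ (1 / (δ : ℝ) + ε)) ∧
    (GalX K (AlgebraicClosure K) G).Nonempty ∧
    ∀ ε : ℝ, 0 < ε → Upper K (AlgebraicClosure K) G (1 / (δ : ℝ) + ε) := by
  have hw0 : w ≠ 0 := by
    rintro rfl
    rw [← hwδ] at hδ
    unfold wt at hδ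
    simp at hδ
  have hm : 0 < m := by
    rcases Nat.eq_zero_or_pos m with h | h
    · subst h
      exact absurd (Subsingleton.elim w 0) hw0
    · exact h
  have hd : d = 2 * m := by
    have := Nat.card_congr f
    rw [Nat.card_prod] at this
    simpa [mul_comm] using this
  have hd0 : 0 < d := by omega
  obtain ⟨D, hDdef⟩ : ∃ D : ℝ, D = ((|discr K| : ℤ) : ℝ) ^ d := ⟨_, rfl⟩
  have hD1 : 1 ≤ D := by
    have h1 : (1 : ℤ) ≤ |discr K| := Int.one_le_abs (discr_ne_zero K)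
    have h2 : (1 : ℝ) ≤ ((|discr K| : ℤ) : ℝ) := by exact_mod_cast h1
    rw [hDdef]
    exact one_le_pow₀ h2
  have hcnt : ∀ X : ℝ, Cnt K G X = TTX K (AlgebraicClosure K) (CodeG H W hW) (X * D) := by
    intro X
    rw [cnt_TTX K hd0, code_TTX K hW f hf, hDdef]
  have hupper : ∀ ε : ℝ, 0 < ε →
      Upper K (AlgebraicClosure K) (CodeG H W hW) (1 / (δ : ℝ) + ε) := by
    intro ε hε
    exact upper_code hA hB hC hW δ hδ (by omega) hmin ε hε (A := A + ε / 4) (by linarith)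
      (hup (ε / 4) (by positivity))
  refine ⟨?_, ?_, ?_, ?_⟩
  · obtain ⟨c, hc, hlow⟩ := lower_code hE hF hG hI hJ (K := K) (Ω := AlgebraicClosure K)
      htr hne W hW w hw hw0 D (by linarith)
    obtain ⟨X₀, hX₀⟩ := eventually_atTop.1 hlow
    refine ⟨c, hc, X₀, fun X hX => ?_⟩
    rw [hcnt, ← hwδ]
    exact hX₀ X hX
  · intro ε hε
    obtain ⟨C, hC0, hCb⟩ := hupper ε hε
    have hexp : 0 < 1 / (δ : ℝ) + ε := by
      have : (0 : ℝ) < δ := by exact_mod_cast hδ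
      positivity
    refine ⟨C * D ^ (1 / (δ : ℝ) + ε) + 1, by positivity, 1, fun X hX => ?_⟩
    rw [hcnt]
    have h1 := hCb (X * D) (by nlinarith)
    rw [Real.mul_rpow (by linarith) (by linarith)] at h1
    have h2 : (0 : ℝ) < X ^ (1 / (δ : ℝ) + ε) := Real.rpow_pos_of_pos (by linarith) _
    calc (Set.ncard (TTX K (AlgebraicClosure K) (CodeG H W hW) (X * D)) : ℝ)
        ≤ C * (X ^ (1 / (δ : ℝ) + ε) * D ^ (1 / (δ : ℝ) + ε)) := h1
      _ < (C * D ^ (1 / (δ : ℝ) + ε) + 1) * X ^ (1 / (δ : ℝ) + ε) := by nlinarith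
  · obtain ⟨c, hc, hlow⟩ := lower_code hE hF hG hI hJ (K := K) (Ω := AlgebraicClosure K)
      htr hne W hW w hw hw0 1 one_pos
    obtain ⟨X, h1, h2⟩ := (hlow.and (eventually_gt_atTop (0 : ℝ))).exists
    have h3 : 0 < (Set.ncard (TTX K (AlgebraicClosure K) (CodeG H W hW) (X * 1)) : ℝ) :=
      (mul_pos hc (Real.rpow_pos_of_pos h2 _)).trans_le h1
    have h4 : 0 < Set.ncard (TTX K (AlgebraicClosure K) (CodeG H W hW) (X * 1)) := by
      exact_mod_cast h3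
    rw [← code_TTX K hW f hf] at h4
    obtain ⟨L, hL⟩ := Set.nonempty_of_ncard_ne_zero h4.ne'
    exact ⟨L, hL.1⟩
  · intro ε hε
    obtain ⟨C, hC0, hCb⟩ := hupper ε hε
    refine ⟨C, hC0, fun Z hZ => ?_⟩
    rw [code_TTX K hW f hf]
    exact hCb Z hZ

end

end Pool.Agent.NH85.CE
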